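import Pool.Agent.U964.ML.Many

/-!
The estimate for several logarithms.
-/

set_option autoImplicit false

namespace Pool.Agent.U964.ML

open Finset

section
variable {ι : Type} [Fintype ι]

theorem fm_zero {T Y : ℕ} (hT : 1 ≤ T) (hY : 1 ≤ Y) {x : Option ι → ℤ}
    (h : fm (wt T Y) x x = 0) (i : Option ι) : x i = 0 := by
  rw [fm_eq] at h
  have hT' : (0:ℤ) < (T:ℤ) ^ 2 := by positivity
  have hY' : (0:ℤ) < (Y:ℤ) ^ 2 := by positivity
  have h1 : 0 ≤ (Y:ℤ) ^ 2 * (x none * x none) := mul_nonneg hY'.le (mul_self_nonneg _)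
  have h3 : ∀ j ∈ (Finset.univ : Finset ι), 0 ≤ (T:ℤ) ^ 2 * (x (some j) * x (some j)) :=
    fun j _ => mul_nonneg hT'.le (mul_self_nonneg _)
  have h2 := Finset.sum_nonneg h3
  cases i with
  | none =>
    have h4 : (Y:ℤ) ^ 2 * (x none * x none) = 0 := by linarith
    have h5 := (mul_eq_zero.1 h4).resolve_left hY'.ne'
    exact mul_self_eq_zero.1 h5
  | some j =>
    have h4 : ∑ j, (T:ℤ) ^ 2 * (x (some j) * x (some j)) = 0 := by linarith
    have h5 := (Finset.sum_eq_zero_iff_of_nonneg h3).1 h4 j (Finset.mem_univ j)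
    have h6 := (mul_eq_zero.1 h5).resolve_left hT'.ne'
    exact mul_self_eq_zero.1 h6

/-- the degenerate case does not occur -/
theorem triv {b q : ℕ} (hq1 : 1 ≤ q) (hqb : q < b) {e : ι → ℤ}
    (hprim : ∀ a : ℤ, a ∣ (b:ℤ) → (∀ j, a ∣ e j) → a.natAbs = 1) (a c x0 : ℤ) (x : ι → ℤ)
    (h0 : (b:ℤ) = a * x0) (h1 : (q:ℤ) = c * x0) (h2 : ∀ j, e j = a * x j) : False := by
  have h3 := hprim a ⟨x0, h0⟩ (fun j => ⟨x j, h2 j⟩)
  have h4 : (b:ℤ) ∣ x0 := by
    have h5 : x0.natAbs = b := by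
      have := congrArg Int.natAbs h0
      rw [Int.natAbs_natCast, Int.natAbs_mul, h3, one_mul] at this
      exact this.symm
    rw [← h5]
    exact Int.natAbs_dvd.2 (dvd_refl _)
  have h6 : (b:ℤ) ∣ (q:ℤ) := by rw [h1]; exact Dvd.dvd.mul_left h4 c
  have h7 := Nat.le_of_dvd hq1 (Int.natCast_dvd_natCast.1 h6)
  omega

theorem L_le (D : ℝ) (hD : 1 ≤ D) :
    ((⌈8 * (2 + Real.log D)⌉₊ : ℕ) : ℝ) ^ 2 ≤ 1024 * Real.sqrt D := by
  obtain ⟨s, hs⟩ : ∃ s, s = Real.sqrt (Real.sqrt D) := ⟨_, rfl⟩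
  have hD0 : 0 < D := by linarith
  have h1 : 1 ≤ Real.sqrt D := by rw [Real.one_le_sqrt]; exact hD
  have h2 : 1 ≤ s := by rw [hs, Real.one_le_sqrt]; exact h1
  have h3 : s ^ 2 = Real.sqrt D := by rw [hs]; exact Real.sq_sqrt (Real.sqrt_nonneg _)
  have h4 : Real.log D = 4 * Real.log s := by
    have h5 : D = s ^ 4 := by
      have e : s ^ 4 = (s ^ 2) ^ 2 := by ring
      rw [e, h3, Real.sq_sqrt hD0.le]
    rw [h5, Real.log_pow]
    push_cast
    ring
  have h5 : Real.log s ≤ s - 1 := Real.log_le_sub_one_of_pos (by linarith)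
  have h6 : 0 ≤ Real.log D := Real.log_nonneg hD
  have h7 := (Nat.ceil_lt_add_one (by positivity : 0 ≤ 8 * (2 + Real.log D))).le
  have h8 : ((⌈8 * (2 + Real.log D)⌉₊ : ℕ) : ℝ) ≤ 32 * s := by
    rw [h4] at h7
    rw [h4]
    linarith
  calc ((⌈8 * (2 + Real.log D)⌉₊ : ℕ) : ℝ) ^ 2 ≤ (32 * s) ^ 2 :=
        pow_le_pow_left₀ (Nat.cast_nonneg _) h8 2
    _ = 1024 * Real.sqrt D := by rw [mul_pow, h3]; norm_num

/-- **Several logarithms**, quantitative version. -/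
theorem main_case (P : ι → ℕ) (hP : ∀ j, 1 ≤ P j) (T : ℕ) (hT : 1 ≤ T)
    (hPT : ∀ j, Real.log (P j) ≤ T) (D : ℕ) (hD : 1 ≤ D) (b : ℕ) (hb : 1 ≤ b)
    (hDb : D ^ Fintype.card ι < b) (hDb' : D ≤ b) (e : ι → ℤ) (he : ∀ j, |e j| < b)
    (hprim : ∀ a : ℤ, a ∣ (b:ℤ) → (∀ j, a ∣ e j) → a.natAbs = 1)
    (u v Y : ℕ) (hY : 1 ≤ Y) (n : Num u v Y)
    (hne : ∑ j, (e j : ℝ) * Real.log (P j) + b * lg u v ≠ 0) :
    Real.exp (-(200638464 * ((Fintype.card ι + 1 : ℕ) : ℝ) ^ 4 * (T:ℝ) ^ 2 * (Y * b) / Real.sqrt D))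
      < |∑ j, (e j : ℝ) * Real.log (P j) + b * lg u v| := by
  obtain ⟨κ, hκ⟩ : ∃ κ : ℕ, κ = Fintype.card ι + 1 := ⟨_, rfl⟩
  rw [← hκ]
  obtain ⟨q, c, r, hq1, hqb, hcr, hr⟩ := dirichlet b D hDb hD e
  set B : Option ι → ℤ := fun i => Option.elim i (b:ℤ) e with hB
  set C : Option ι → ℤ := fun i => Option.elim i (q:ℤ) c with hC
  set R : Option ι → ℤ := fun i => Option.elim i (0:ℤ) r with hR
  have hBC : ∀ i, (b:ℤ) * C i = q * B i - R i := by
    intro i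
    cases i with
    | none => simp only [hB, hC, hR, Option.elim]; ring
    | some j => simp only [hB, hC, hR, Option.elim]; exact hcr j
  obtain ⟨X1, X2, a1, a2, c1, c2, h1, h2, h3, i1, i2, i3⟩ :=
    reduce_ineq (wt T Y) (wt_nonneg T Y) B C R b q hBC
  have hTr : (1:ℝ) ≤ T := by exact_mod_cast hT
  have hYr : (1:ℝ) ≤ Y := by exact_mod_cast hY
  have hbr : (1:ℝ) ≤ b := by exact_mod_cast hb
  have hDr : (1:ℝ) ≤ D := by exact_mod_cast hD
  have hDbr : (D:ℝ) ≤ b := by exact_mod_cast hDb'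
  have hκr : (1:ℝ) ≤ κ := by
    rw [hκ]; push_cast
    have : (0:ℝ) ≤ (Fintype.card ι : ℝ) := Nat.cast_nonneg _
    linarith
  have hsD1 : 1 ≤ Real.sqrt D := by rw [Real.one_le_sqrt]; exact hDr
  have hsDD : Real.sqrt D ≤ D := by
    rw [Real.sqrt_le_left (by linarith)]
    nlinarith
  -- the trivial bound
  have hE : (Y:ℝ) < 200638464 * (κ:ℝ) ^ 4 * (T:ℝ) ^ 2 * (Y * b) / Real.sqrt D := by
    rw [lt_div_iff₀ (by linarith)]
    have k1 : (Y:ℝ) * Real.sqrt D ≤ Y * b := by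
      have := hsDD.trans hDbr
      gcongr
    have k2 : (1:ℝ) ≤ (κ:ℝ) ^ 4 * (T:ℝ) ^ 2 :=
      one_le_mul_of_one_le_of_one_le (one_le_pow₀ hκr) (one_le_pow₀ hTr)
    have k3 : 0 < (Y:ℝ) * b := by positivity
    have k4 : (Y:ℝ) * b ≤ ((κ:ℝ) ^ 4 * (T:ℝ) ^ 2) * (Y * b) := le_mul_of_one_le_left k3.le k2
    nlinarith
  have hlin : ∑ j, (e j : ℝ) * Real.log (P j) + b * lg u v =
      (a1:ℝ) * lg (nm P u v X1) (nm P u v (fun i => -X1 i)) +
        (a2:ℝ) * lg (nm P u v X2) (nm P u v (fun i => -X2 i)) := by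
    rw [lg_nm P u v hP n.hu n.hv, lg_nm P u v hP n.hu n.hv]
    have e1 : ∀ j, (e j : ℝ) = a1 * X1 (some j) + a2 * X2 (some j) := by
      intro j
      have := congrArg (Int.cast : ℤ → ℝ) (h1 (some j))
      simp only [hB, Option.elim] at this
      push_cast at this
      exact this
    have e0 : (b : ℝ) = a1 * X1 none + a2 * X2 none := by
      have := congrArg (Int.cast : ℤ → ℝ) (h1 none)
      simp only [hB, Option.elim] at this
      push_cast at this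
      exact this
    rw [Finset.sum_congr rfl fun j _ => by rw [e1 j], e0, mul_add, mul_add, Finset.mul_sum,
      Finset.mul_sum]
    have e2 : ∑ j, ((a1:ℝ) * X1 (some j) + a2 * X2 (some j)) * Real.log (P j) =
        ∑ j, (a1:ℝ) * (X1 (some j) * Real.log (P j)) +
          ∑ j, (a2:ℝ) * (X2 (some j) * Real.log (P j)) := by
      rw [← Finset.sum_add_distrib]
      exact Finset.sum_congr rfl fun j _ => by ring
    rw [e2]
    ring
  obtain ⟨β, hβ⟩ : ∃ β, β = fm (wt T Y) B B := ⟨_, rfl⟩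
  obtain ⟨ρ, hρ⟩ : ∃ ρ, ρ = fm (wt T Y) R R := ⟨_, rfl⟩
  obtain ⟨p, hp⟩ : ∃ p, p = fm (wt T Y) X1 X1 := ⟨_, rfl⟩
  obtain ⟨s, hs⟩ : ∃ s, s = fm (wt T Y) X2 X2 := ⟨_, rfl⟩
  have hp0 : 0 ≤ p := by rw [hp]; exact fm_nonneg _ (wt_nonneg T Y) _
  have hs0 : 0 ≤ s := by rw [hs]; exact fm_nonneg _ (wt_nonneg T Y) _
  rcases hp0.eq_or_lt with hp1 | hp1
  · have hX : ∀ i, X1 i = 0 := fm_zero hT hY (by rw [← hp, ← hp1])
    refine absurd (triv hq1 hqb hprim a2 c2 (X2 none) (fun j => X2 (some j)) ?_ ?_ ?_) not_false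
    · have := h1 none
      rw [hX none, mul_zero, zero_add] at this
      exact this
    · have := h2 none
      rw [hX none, mul_zero, zero_add] at this
      exact this
    · intro j
      have := h1 (some j)
      rw [hX (some j), mul_zero, zero_add] at this
      exact this
  rcases hs0.eq_or_lt with hs1 | hs1
  · have hX : ∀ i, X2 i = 0 := fm_zero hT hY (by rw [← hs, ← hs1])
    refine absurd (triv hq1 hqb hprim a1 c1 (X1 none) (fun j => X1 (some j)) ?_ ?_ ?_) not_false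
    · have := h1 none
      rw [hX none, mul_zero, add_zero] at this
      exact this
    · have := h2 none
      rw [hX none, mul_zero, add_zero] at this
      exact this
    · intro j
      have := h1 (some j)
      rw [hX (some j), mul_zero, add_zero] at this
      exact this
  -- the main case
  have hβle : (β:ℝ) ≤ (κ * T * Y * b) ^ 2 := by
    have k1 : β ≤ (κ:ℤ) * (((T:ℤ) * Y * b) ^ 2) := by
      rw [hβ, fm_eq]
      simp only [hB, Option.elim]
      have hTz : (1:ℤ) ≤ T := by exact_mod_cast hT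
      have hYz : (1:ℤ) ≤ Y := by exact_mod_cast hY
      have k2 : (Y:ℤ) ^ 2 * (b * b) ≤ ((T:ℤ) * Y * b) ^ 2 := by
        have e : ((T:ℤ) * Y * b) ^ 2 = (T:ℤ) ^ 2 * ((Y:ℤ) ^ 2 * (b * b)) := by ring
        rw [e]
        exact le_mul_of_one_le_left (by positivity) (one_le_pow₀ hTz)
      have k3 : ∑ j, (T:ℤ) ^ 2 * (e j * e j) ≤ ∑ _j : ι, ((T:ℤ) * Y * b) ^ 2 := by
        refine Finset.sum_le_sum fun j _ => ?_
        have k4 : e j * e j ≤ b * b := by
          have := he j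
          have h5 := abs_mul_abs_self (e j)
          rw [← h5]
          exact mul_self_le_mul_self (abs_nonneg _) this.le
        have e' : ((T:ℤ) * Y * b) ^ 2 = (Y:ℤ) ^ 2 * ((T:ℤ) ^ 2 * (b * b)) := by ring
        rw [e']
        calc (T:ℤ) ^ 2 * (e j * e j) ≤ (T:ℤ) ^ 2 * (b * b) :=
              mul_le_mul_of_nonneg_left k4 (sq_nonneg _)
          _ ≤ _ := le_mul_of_one_le_left (by positivity) (one_le_pow₀ hYz)
      rw [Finset.sum_const, Finset.card_univ, nsmul_eq_mul] at k3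
      rw [hκ]
      push_cast
      linarith
    have k2 : (β:ℝ) ≤ (κ:ℝ) * (((T:ℝ) * Y * b) ^ 2) := by exact_mod_cast k1
    refine k2.trans ?_
    have e : ((κ:ℝ) * T * Y * b) ^ 2 = κ * (κ * (((T:ℝ) * Y * b) ^ 2)) := by ring
    rw [e]
    exact le_mul_of_one_le_left (by positivity) hκr
  have hρle : (D:ℝ) ^ 2 * ρ ≤ κ * ((T:ℝ) * b) ^ 2 := by
    have k1 : (D:ℤ) ^ 2 * ρ ≤ (κ:ℤ) * ((T:ℤ) * b) ^ 2 := by
      rw [hρ, fm_eq]
      simp only [hR, Option.elim]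
      rw [mul_zero, mul_zero, zero_add, Finset.mul_sum]
      have k3 : ∑ j, (D:ℤ) ^ 2 * ((T:ℤ) ^ 2 * (r j * r j)) ≤ ∑ _j : ι, ((T:ℤ) * b) ^ 2 := by
        refine Finset.sum_le_sum fun j _ => ?_
        have k4 : (|r j| * D) * (|r j| * D) ≤ b * b :=
          mul_self_le_mul_self (by positivity) (hr j)
        have k5 : (|r j| * D) * (|r j| * D) = (D:ℤ) ^ 2 * (r j * r j) := by
          have := abs_mul_abs_self (r j)
          rw [← this]; ring
        have e1 : (D:ℤ) ^ 2 * ((T:ℤ) ^ 2 * (r j * r j)) = (T:ℤ) ^ 2 * ((D:ℤ) ^ 2 * (r j * r j)) := by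
          ring
        have e2 : ((T:ℤ) * b) ^ 2 = (T:ℤ) ^ 2 * (b * b) := by ring
        rw [e1, e2, ← k5]
        exact mul_le_mul_of_nonneg_left k4 (sq_nonneg _)
      rw [Finset.sum_const, Finset.card_univ, nsmul_eq_mul] at k3
      rw [hκ]
      push_cast
      have : (0:ℤ) ≤ ((T:ℤ) * b) ^ 2 := sq_nonneg _
      linarith
    exact_mod_cast k1
  rw [← hp, ← hβ] at i1
  rw [← hs, ← hβ] at i2
  rw [← hp, ← hs, ← hβ, ← hρ] at i3
  have i1' : (a1:ℝ) ^ 2 * p ≤ 2 * β := by exact_mod_cast i1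
  have i2' : (a2:ℝ) ^ 2 * s ≤ 2 * β := by exact_mod_cast i2
  have i3' : 3 * (b:ℝ) ^ 2 * (p * s) ≤ 4 * (β * ρ) := by exact_mod_cast i3
  have hpr : (1:ℝ) ≤ p := by exact_mod_cast hp1
  have hsr : (1:ℝ) ≤ s := by exact_mod_cast hs1
  have hβ0 : (0:ℝ) ≤ β := by
    have := fm_nonneg (wt T Y) (wt_nonneg T Y) B
    rw [← hβ] at this
    exact_mod_cast this
  obtain ⟨x, hx⟩ : ∃ x, x = Real.sqrt (p:ℝ) := ⟨_, rfl⟩
  obtain ⟨y, hy⟩ : ∃ y, y = Real.sqrt (s:ℝ) := ⟨_, rfl⟩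
  obtain ⟨t, ht⟩ : ∃ t, t = Real.sqrt (β:ℝ) := ⟨_, rfl⟩
  have hx1 : 1 ≤ x := by rw [hx, Real.one_le_sqrt]; exact hpr
  have hy1 : 1 ≤ y := by rw [hy, Real.one_le_sqrt]; exact hsr
  have hx2 : x ^ 2 = p := by rw [hx]; exact Real.sq_sqrt (by linarith)
  have hy2 : y ^ 2 = s := by rw [hy]; exact Real.sq_sqrt (by linarith)
  have ht2 : t ^ 2 = β := by rw [ht]; exact Real.sq_sqrt hβ0
  have ht0 : 0 ≤ t := by rw [ht]; exact Real.sqrt_nonneg _
  have hx0 : 0 < x := by linarith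
  have hy0 : 0 < y := by linarith
  have htle : t ≤ κ * T * Y * b := by
    rw [← ht2] at hβle
    exact (abs_le_of_sq_le_sq' hβle (by positivity)).2
  -- the size of the product
  have hz : x * y * D ≤ 2 * κ * T * t := by
    have k1 : (x * y * D) ^ 2 ≤ (2 * κ * T * t) ^ 2 := by
      have hb2 : 0 < (b:ℝ) ^ 2 := by positivity
      have k2 : (b:ℝ) ^ 2 * (3 * (x * y * D) ^ 2) ≤ (b:ℝ) ^ 2 * (4 * κ * T ^ 2 * t ^ 2) := by
        have e1 : (b:ℝ) ^ 2 * (3 * (x * y * D) ^ 2) = (3 * (b:ℝ) ^ 2 * (p * s)) * (D:ℝ) ^ 2 := by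
          rw [← hx2, ← hy2]; ring
        have e2 : (4 * ((β:ℝ) * ρ)) * (D:ℝ) ^ 2 = 4 * β * ((D:ℝ) ^ 2 * ρ) := by ring
        rw [e1]
        calc (3 * (b:ℝ) ^ 2 * (p * s)) * (D:ℝ) ^ 2 ≤ (4 * ((β:ℝ) * ρ)) * (D:ℝ) ^ 2 := by gcongr
          _ = 4 * β * ((D:ℝ) ^ 2 * ρ) := e2
          _ ≤ 4 * β * (κ * ((T:ℝ) * b) ^ 2) := by gcongr
          _ = _ := by rw [← ht2]; ring
      have k3 := le_of_mul_le_mul_left k2 hb2
      have k4 : 0 ≤ (κ:ℝ) * T ^ 2 * t ^ 2 := by positivity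
      have k5 : (κ:ℝ) * T ^ 2 * t ^ 2 ≤ κ * (κ * T ^ 2 * t ^ 2) := le_mul_of_one_le_left k4 hκr
      have k6 := sq_nonneg (x * y * D)
      nlinarith
    exact (abs_le_of_sq_le_sq' k1 (by positivity)).2
  -- the heights
  have hsz1 : ((sz T Y X1 : ℕ) : ℝ) ≤ 2 * x := by
    have := sz_le (T := T) (Y := Y) (x := X1) (by rw [← hp]; exact hp1)
    rw [← hp, ← hx] at this
    exact this
  have hsz2 : ((sz T Y X2 : ℕ) : ℝ) ≤ 2 * y := by
    have := sz_le (T := T) (Y := Y) (x := X2) (by rw [← hs]; exact hs1)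
    rw [← hs, ← hy] at this
    exact this
  have hsz1' : x ≤ ((sz T Y X1 : ℕ) : ℝ) := by
    have := sz_ge (T := T) (Y := Y) X1
    rw [← hp, ← hx] at this
    exact this
  have hsz2' : y ≤ ((sz T Y X2 : ℕ) : ℝ) := by
    have := sz_ge (T := T) (Y := Y) X2
    rw [← hs, ← hy] at this
    exact this
  obtain ⟨H1, hH1⟩ : ∃ H1 : ℕ, H1 = κ * sz T Y X1 := ⟨_, rfl⟩
  obtain ⟨H2, hH2⟩ : ∃ H2 : ℕ, H2 = κ * sz T Y X2 := ⟨_, rfl⟩
  have hκ1 : 1 ≤ κ := by omega
  have n1 : Num (nm P u v X1) (nm P u v (fun i => -X1 i)) H1 := by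
    rw [hH1, hκ]; exact num_nm P u v hP hPT n X1
  have n2 : Num (nm P u v X2) (nm P u v (fun i => -X2 i)) H2 := by
    rw [hH2, hκ]; exact num_nm P u v hP hPT n X2
  have hH1r : (H1:ℝ) = κ * sz T Y X1 := by rw [hH1]; push_cast; ring
  have hH2r : (H2:ℝ) = κ * sz T Y X2 := by rw [hH2]; push_cast; ring
  have hH1x : x ≤ H1 := by
    rw [hH1r]
    exact hsz1'.trans (le_mul_of_one_le_left (Nat.cast_nonneg _) hκr)
  have hH2y : y ≤ H2 := by
    rw [hH2r]
    exact hsz2'.trans (le_mul_of_one_le_left (Nat.cast_nonneg _) hκr)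
  have hHH : (H1:ℝ) * H2 ≤ 4 * κ ^ 2 * (x * y) := by
    rw [hH1r, hH2r]
    calc (κ:ℝ) * sz T Y X1 * (κ * sz T Y X2) ≤ (κ:ℝ) * (2 * x) * (κ * (2 * y)) := by gcongr
      _ = _ := by ring
  -- the logarithmic factor
  obtain ⟨Δ, hΔ⟩ : ∃ Δ : ℝ, Δ = max 1 (2 * t / (x * y)) := ⟨_, rfl⟩
  have hΔ1 : 1 ≤ Δ := by rw [hΔ]; exact le_max_left _ _
  have hΔ2 : 2 * t / (x * y) ≤ Δ := by rw [hΔ]; exact le_max_right _ _
  obtain ⟨L, hL⟩ : ∃ L : ℕ, L = ⌈8 * (2 + Real.log Δ)⌉₊ := ⟨_, rfl⟩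
  have hLΔ : 8 * (2 + Real.log Δ) ≤ L := by rw [hL]; exact Nat.le_ceil _
  have hL1 : 1 ≤ L := by
    have h5 : 0 ≤ Real.log Δ := Real.log_nonneg hΔ1
    have h6 : (1:ℝ) ≤ L := by linarith
    exact_mod_cast h6
  have hL2 : (L:ℝ) ^ 2 ≤ 1024 * Real.sqrt Δ := by rw [hL]; exact L_le Δ hΔ1
  have hpar : Par H1 H2 L Δ := by
    refine ⟨?_, ?_, hL1, hΔ1, hLΔ⟩
    · have : (1:ℝ) ≤ H1 := hx1.trans hH1x
      exact_mod_cast this
    · have : (1:ℝ) ≤ H2 := hy1.trans hH2y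
      exact_mod_cast this
  have hca : ∀ (a : ℤ) (x y : ℝ) (H : ℕ), 0 < x → 0 < y → y ≤ H → (a:ℝ) ^ 2 * x ^ 2 ≤ 2 * t ^ 2 →
      2 * t / (x * y) ≤ Δ → (a.natAbs : ℝ) ≤ Δ * H := by
    intro a x y H hx hy hyH ha hΔ'
    have e1 : (a.natAbs : ℝ) = |(a:ℝ)| := by rw [Nat.cast_natAbs, Int.cast_abs]
    rw [e1]
    have k1 : |(a:ℝ)| * x ≤ 2 * t := by
      have k2 : (|(a:ℝ)| * x) ^ 2 ≤ (2 * t) ^ 2 := by
        rw [mul_pow, sq_abs]
        nlinarith [sq_nonneg t]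
      exact (abs_le_of_sq_le_sq' k2 (by positivity)).2
    have k2 : 2 * t ≤ Δ * (x * y) := by
      rw [div_le_iff₀ (by positivity)] at hΔ'
      exact hΔ'
    have k3 : |(a:ℝ)| * x ≤ (Δ * y) * x := by linarith
    have k4 := le_of_mul_le_mul_right k3 hx
    have k5 : Δ * y ≤ Δ * H := by gcongr
    linarith
  have ha1 : (a1.natAbs:ℝ) ≤ Δ * H2 :=
    hca a1 x y H2 hx0 hy0 hH2y (by rw [hx2, ht2]; exact i1') hΔ2
  have ha2 : (a2.natAbs:ℝ) ≤ Δ * H1 :=
    hca a2 y x H1 hy0 hx0 hH1x (by rw [hy2, ht2]; exact i2') (by rw [mul_comm y x]; exact hΔ2)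
  rw [hlin] at hne ⊢
  have hfin := two_log hpar n1 n2 ha2 ha1 hne
  refine lt_of_le_of_lt ?_ hfin
  apply Real.exp_le_exp.2
  apply neg_le_neg
  -- the exponent
  have hsΔ0 : 0 ≤ Real.sqrt Δ := Real.sqrt_nonneg _
  have hzΔ : (x * y) * Real.sqrt Δ ≤ 2 * κ * T * t / Real.sqrt D := by
    rw [le_div_iff₀ (by linarith)]
    rcases le_total (2 * t / (x * y)) 1 with h5 | h5
    · have h6 : Δ = 1 := by rw [hΔ]; exact max_eq_left h5
      rw [h6, Real.sqrt_one, mul_one]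
      calc x * y * Real.sqrt D ≤ x * y * D := by gcongr
        _ ≤ _ := hz
    · have h6 : Δ = 2 * t / (x * y) := by rw [hΔ]; exact max_eq_right h5
      have h7 : (x * y * Real.sqrt Δ * Real.sqrt D) ^ 2 ≤ (2 * κ * T * t) ^ 2 := by
        have e1 : (x * y * Real.sqrt Δ * Real.sqrt D) ^ 2 =
            (x * y) ^ 2 * (Real.sqrt Δ) ^ 2 * (Real.sqrt D) ^ 2 := by ring
        rw [e1, Real.sq_sqrt (by linarith), Real.sq_sqrt (by linarith)]
        have e2 : (x * y) ^ 2 * Δ * D = 2 * t * (x * y * D) := by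
          rw [h6]; field_simp
        rw [e2]
        have k1 : 2 * t * (x * y * D) ≤ 2 * t * (2 * κ * T * t) := by gcongr
        have k2 : 2 * t * (2 * κ * T * t) = (4 * (κ * T)) * t ^ 2 := by ring
        have k3 : (2 * κ * T * t) ^ 2 = (4 * (κ * T)) * ((κ * T) * t ^ 2) := by ring
        rw [k3]
        rw [k2] at k1
        refine k1.trans ?_
        have hκT : (1:ℝ) ≤ κ * T := one_le_mul_of_one_le_of_one_le hκr hTr
        have k4 : t ^ 2 ≤ (κ * T) * t ^ 2 := le_mul_of_one_le_left (sq_nonneg _) hκT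
        have k5 : (0:ℝ) ≤ 4 * (κ * T) := by positivity
        exact mul_le_mul_of_nonneg_left k4 k5
      exact (abs_le_of_sq_le_sq' h7 (by positivity)).2
  calc 24492 * (H1:ℝ) * H2 * (L:ℝ) ^ 2 = 24492 * (H1 * H2) * (L:ℝ) ^ 2 := by ring
    _ ≤ 24492 * (4 * κ ^ 2 * (x * y)) * (1024 * Real.sqrt Δ) := by gcongr
    _ = 100319232 * κ ^ 2 * ((x * y) * Real.sqrt Δ) := by ring
    _ ≤ 100319232 * κ ^ 2 * (2 * κ * T * t / Real.sqrt D) := by gcongr
    _ ≤ 100319232 * κ ^ 2 * (2 * κ * T * (κ * T * Y * b) / Real.sqrt D) := by gcongr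
    _ = _ := by ring

/-- the estimate for all `b`, with a term for the small ones -/
theorem many_ind (P : ι → ℕ) (hP : ∀ j, 1 ≤ P j) (δ : ℝ) (hδ : 0 < δ) : ∃ K0 : ℝ, 0 ≤ K0 ∧
    ∀ b : ℕ, 1 ≤ b → ∀ e : ι → ℤ, (∀ j, |e j| < b) → ∀ u v Y : ℕ, 1 ≤ Y → Num u v Y →
      ∑ j, (e j : ℝ) * Real.log (P j) + b * lg u v ≠ 0 →
      Real.exp (-(δ * (Y * b) + K0 * Y)) <
        |∑ j, (e j : ℝ) * Real.log (P j) + b * lg u v| := by
  obtain ⟨T, hT⟩ : ∃ T : ℕ, T = ∑ j, P j + 1 := ⟨_, rfl⟩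
  have hT1 : 1 ≤ T := by omega
  have hPT : ∀ j, Real.log (P j) ≤ T := by
    intro j
    have h1 : P j ≤ T := by
      have : P j ≤ ∑ j, P j := Finset.single_le_sum (fun _ _ => Nat.zero_le _) (Finset.mem_univ j)
      omega
    have h2 : (0:ℝ) < P j := by
      have := hP j
      exact_mod_cast this
    have h3 : Real.log (P j) ≤ P j - 1 := Real.log_le_sub_one_of_pos h2
    have h4 : (P j : ℝ) ≤ T := by exact_mod_cast h1
    linarith
  obtain ⟨K, hK⟩ : ∃ K : ℝ, K = 200638464 * ((Fintype.card ι + 1 : ℕ) : ℝ) ^ 4 * (T:ℝ) ^ 2 :=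
    ⟨_, rfl⟩
  have hTr0 : (0:ℝ) < T := by exact_mod_cast hT1
  have hK0 : 0 < K := by
    rw [hK]
    positivity
  obtain ⟨D, hD⟩ : ∃ D : ℕ, D = ⌈(K / δ) ^ 2⌉₊ + 1 := ⟨_, rfl⟩
  have hD1 : 1 ≤ D := by omega
  have hsD : K / δ ≤ Real.sqrt D := by
    apply Real.le_sqrt_of_sq_le
    have := Nat.le_ceil ((K / δ) ^ 2)
    rw [hD]
    push_cast
    linarith
  obtain ⟨N, hN⟩ : ∃ N : ℕ, N = D ^ Fintype.card ι + 1 + D := ⟨_, rfl⟩
  obtain ⟨κ, hκ⟩ : ∃ κ : ℝ, κ = ((Fintype.card ι : ℕ) : ℝ) * T + 1 := ⟨_, rfl⟩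
  have hκ1 : 1 ≤ κ := by
    rw [hκ]
    have : (0:ℝ) ≤ ((Fintype.card ι : ℕ) : ℝ) * T := by positivity
    linarith
  refine ⟨κ * N + 1, by positivity, ?_⟩
  intro b
  induction b using Nat.strong_induction_on with
  | _ b ih =>
  intro hb e he u v Y hY n hne
  have hYr : (1:ℝ) ≤ Y := by exact_mod_cast hY
  have hbr : (1:ℝ) ≤ b := by exact_mod_cast hb
  have hNr : (0:ℝ) ≤ N := Nat.cast_nonneg _
  by_cases hNb : N ≤ b
  · by_cases hprim : ∀ a : ℤ, a ∣ (b:ℤ) → (∀ j, a ∣ e j) → a.natAbs = 1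
    · have h1 := main_case P hP T hT1 hPT D hD1 b hb (by omega) (by omega) e he hprim u v Y hY n hne
      refine lt_of_le_of_lt ?_ h1
      apply Real.exp_le_exp.2
      apply neg_le_neg
      rw [← hK]
      have hsD0 : 0 < Real.sqrt D := lt_of_lt_of_le (by positivity) hsD
      rw [div_le_iff₀ hsD0]
      rw [div_le_iff₀ hδ] at hsD
      have h2 : (0:ℝ) ≤ Y * b := by positivity
      have h3 : (0:ℝ) ≤ (κ * N + 1) * Y := by positivity
      calc K * (Y * b) ≤ (Real.sqrt D * δ) * (Y * b) := by gcongr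
        _ = (δ * (Y * b)) * Real.sqrt D := by ring
        _ ≤ (δ * (Y * b) + (κ * N + 1) * Y) * Real.sqrt D := by gcongr; linarith
    · push_neg at hprim
      obtain ⟨a0, ha1, ha2, ha3⟩ := hprim
      obtain ⟨a, ha⟩ : ∃ a : ℕ, a = a0.natAbs := ⟨_, rfl⟩
      have ha1' : a ∣ b := by
        have := Int.natAbs_dvd_natAbs.2 ha1
        rwa [Int.natAbs_natCast, ← ha] at this
      have ha2' : ∀ j, (a:ℤ) ∣ e j := by
        intro j
        rw [ha]
        exact Int.natAbs_dvd.2 (ha2 j)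
      obtain ⟨b', hb'⟩ := ha1'
      have ha0 : a ≠ 0 := by
        rintro rfl
        rw [zero_mul] at hb'
        omega
      have ha2'' : 2 ≤ a := by omega
      have hb'1 : 1 ≤ b' := by
        rcases Nat.eq_zero_or_pos b' with h | h
        · rw [h, mul_zero] at hb'
          omega
        · exact h
      have hb'lt : b' < b := by
        rw [hb']
        nlinarith
      choose e' he' using ha2'
      have haz : (0:ℤ) < a := by exact_mod_cast (by omega : 0 < a)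
      have har : (2:ℝ) ≤ a := by exact_mod_cast ha2''
      have hlin : ∑ j, (e j : ℝ) * Real.log (P j) + b * lg u v =
          a * (∑ j, (e' j : ℝ) * Real.log (P j) + b' * lg u v) := by
        rw [mul_add, Finset.mul_sum, hb']
        congr 1
        · refine Finset.sum_congr rfl fun j _ => ?_
          rw [he' j]
          push_cast
          ring
        · push_cast
          ring
      have hne2 := hne
      rw [hlin] at hne2
      have h1 := ih b' hb'lt hb'1 e' (by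
        intro j
        have h2 := he j
        rw [he' j, hb', abs_mul, abs_of_pos haz] at h2
        push_cast at h2
        exact lt_of_mul_lt_mul_left h2 haz.le) u v Y hY n (right_ne_zero_of_mul hne2)
      rw [hlin, abs_mul, abs_of_nonneg (by positivity : (0:ℝ) ≤ a)]
      have h2 : |∑ j, (e' j : ℝ) * Real.log (P j) + b' * lg u v| ≤
          a * |∑ j, (e' j : ℝ) * Real.log (P j) + b' * lg u v| :=
        le_mul_of_one_le_left (abs_nonneg _) (by linarith)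
      refine lt_of_le_of_lt ?_ (h1.trans_le h2)
      apply Real.exp_le_exp.2
      apply neg_le_neg
      have h3 : (b':ℝ) ≤ b := by exact_mod_cast hb'lt.le
      gcongr
  · -- small `b`
    rw [not_le] at hNb
    set x : Option ι → ℤ := fun i => Option.elim i (b:ℤ) e with hx
    have hbd : ∀ z : Option ι → ℤ, (∀ i, |z i| = |x i|) → Real.log (nm P u v z) ≤ κ * N * Y := by
      intro z hz
      refine (log_nm_le P u v hP hPT n z).trans ?_
      have hzc : ∀ i, |(z i : ℝ)| ≤ N := by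
        intro i
        have h1 : |z i| ≤ (N:ℤ) := by
          rw [hz i]
          cases i with
          | none =>
            simp only [hx, Option.elim]
            rw [Nat.abs_cast]
            exact_mod_cast hNb.le
          | some j =>
            simp only [hx, Option.elim]
            have := he j
            have h2 : (b:ℤ) < N := by exact_mod_cast hNb
            linarith
        have h2 : ((|z i| : ℤ) : ℝ) ≤ ((N:ℤ) : ℝ) := by exact_mod_cast h1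
        rwa [Int.cast_abs, Int.cast_natCast] at h2
      have h1 : ∑ j, |(z (some j) : ℝ)| * T ≤ ∑ _j : ι, (N:ℝ) * T :=
        Finset.sum_le_sum fun j _ => mul_le_mul_of_nonneg_right (hzc _) hTr0.le
      rw [Finset.sum_const, Finset.card_univ, nsmul_eq_mul] at h1
      have h2 : |(z none : ℝ)| * Y ≤ N * Y := mul_le_mul_of_nonneg_right (hzc _) (by positivity)
      have h3 : (Fintype.card ι : ℝ) * (N * T) ≤ (Fintype.card ι : ℝ) * (N * T) * Y :=
        le_mul_of_one_le_right (by positivity) hYr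
      rw [hκ]
      linarith
    have hform : lg (nm P u v x) (nm P u v (fun i => -x i)) =
        ∑ j, (e j : ℝ) * Real.log (P j) + b * lg u v := by
      rw [lg_nm P u v hP n.hu n.hv]
      simp only [hx, Option.elim]
      push_cast
      rfl
    rw [← hform] at hne ⊢
    have h1 := lg_low (one_le_nm P u v hP n.hu n.hv x) (one_le_nm P u v hP n.hu n.hv _) hne
      (hbd x fun _ => rfl) (hbd _ fun i => abs_neg _)
    refine lt_of_lt_of_le ?_ h1
    apply Real.exp_lt_exp.2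
    apply neg_lt_neg
    have h2 : (0:ℝ) ≤ δ * (Y * b) := by positivity
    linarith

/-- **Several logarithms.** -/
theorem many_log (P : ι → ℕ) (hP : ∀ j, 1 ≤ P j) (δ : ℝ) (hδ : 0 < δ) : ∃ N : ℕ,
    ∀ b : ℕ, N ≤ b → ∀ e : ι → ℤ, (∀ j, |e j| < b) → ∀ u v Y : ℕ, 1 ≤ Y → Num u v Y →
      ∑ j, (e j : ℝ) * Real.log (P j) + b * lg u v ≠ 0 →
      Real.exp (-(δ * (Y * b))) < |∑ j, (e j : ℝ) * Real.log (P j) + b * lg u v| := by
  obtain ⟨K0, hK0, h⟩ := many_ind P hP (δ / 2) (by positivity)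
  obtain ⟨N, hN⟩ : ∃ N : ℕ, K0 / (δ / 2) ≤ N := exists_nat_ge _
  refine ⟨N + 1, fun b hb e he u v Y hY n hne => ?_⟩
  refine lt_of_le_of_lt ?_ (h b (by omega) e he u v Y hY n hne)
  apply Real.exp_le_exp.2
  apply neg_le_neg
  rw [div_le_iff₀ (by positivity)] at hN
  have h1 : (N:ℝ) ≤ b := by exact_mod_cast (by omega : N ≤ b)
  have h2 : (1:ℝ) ≤ Y := by exact_mod_cast hY
  have h3 : K0 ≤ b * (δ / 2) := hN.trans (by gcongr)
  have h4 : K0 * Y ≤ b * (δ / 2) * Y := by gcongr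
  linarith

end

end Pool.Agent.U964.ML
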