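import Mathlib
import Pool.Agent.U964.ML.Main

/-!
Two numbers which are nearly equal and which are `n`-th powers up to a fixed finite set of primes
(helper964)
-/

set_option autoImplicit false

namespace Pool.Agent.U964.ML

open Finset

/-- `many_log` for a finite set of primes -/
theorem many_fin (S : Finset ℕ) (hS : ∀ q ∈ S, q.Prime) (δ : ℝ) (hδ : 0 < δ) : ∃ N : ℕ,
    ∀ b : ℕ, N ≤ b → ∀ e : ℕ → ℤ, (∀ q ∈ S, |e q| < b) → ∀ u v Y : ℕ, 1 ≤ Y →
      Num u v Y → ∑ q ∈ S, (e q : ℝ) * Real.log q + b * lg u v ≠ 0 →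
      Real.exp (-(δ * (Y * b))) < |∑ q ∈ S, (e q : ℝ) * Real.log q + b * lg u v| := by
  obtain ⟨N, hN⟩ := many_log (ι := S) (fun q => (q : ℕ)) (fun q => (hS q q.2).one_le) δ hδ
  refine ⟨N, fun b hNb e he u v Y hY hn hne => ?_⟩
  have h := hN b hNb (fun q => e q) (fun q => he q q.2) u v Y hY hn
  have e1 : ∑ q : S, ((e (q : ℕ) : ℤ) : ℝ) * Real.log ((q : ℕ) : ℝ) =
      ∑ q ∈ S, (e q : ℝ) * Real.log q :=
    Finset.sum_coe_sort S (fun q => (e q : ℝ) * Real.log q)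
  rw [e1] at h
  exact h hne

theorem log_prod_pow (S : Finset ℕ) (hS : ∀ q ∈ S, q.Prime) (g : ℕ → ℕ) :
    1 ≤ ∏ q ∈ S, q ^ g q ∧
      Real.log ((∏ q ∈ S, q ^ g q : ℕ) : ℝ) = ∑ q ∈ S, (g q : ℝ) * Real.log q := by
  constructor
  · exact Finset.prod_pos fun q hq => pow_pos (hS q hq).pos _
  · push_cast
    rw [Real.log_prod (fun q hq => by
      have := (hS q hq).pos
      positivity)]
    exact Finset.sum_congr rfl fun q _ => Real.log_pow _ _

theorem final {A Q δ h A0 : ℝ} (hδ : 0 < δ) (h1 : Real.exp (-A) < Q * Real.exp (-(δ * h)))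
    (h2 : A ≤ δ / 2 * h + A0) : h ≤ 2 * (A0 + Q) / δ := by
  have h3 : Real.exp (δ * h - A) < Q := by
    have e1 : Real.exp (-A) = Real.exp (δ * h - A) * Real.exp (-(δ * h)) := by
      rw [← Real.exp_add]; congr 1; ring
    rw [e1] at h1
    exact lt_of_mul_lt_mul_right h1 (Real.exp_pos _).le
  have h4 := Real.add_one_le_exp (δ * h - A)
  rw [le_div_iff₀ hδ]
  linarith

theorem log_two_gt : (1:ℝ) / 2 < Real.log 2 := by
  have := Real.log_two_gt_d9
  linarith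

/-- **Two nearly equal almost powers.** -/
theorem abs_two (S : Finset ℕ) (hS : ∀ q ∈ S, q.Prime) (m1 m2 T : ℕ) (hm1 : 1 ≤ m1)
    (hm2 : 1 ≤ m2) (s C δ : ℝ) (hs : 0 ≤ s) (hδ : 0 < δ) :
    ∃ (N : ℕ) (H0 : ℝ), ∀ (h X1 X2 : ℝ), 0 ≤ h → X1 ≤ s + h → X2 ≤ s + h →
      ∀ n : ℕ, 1 ≤ n → N ≤ n → ∀ (y1 y2 : ℕ) (e1 e2 : ℕ → ℕ) (t : ℕ → ℤ), 1 ≤ y1 → 1 ≤ y2 →
      (∀ q, e1 q < n) → (∀ q, e2 q < n) → (∀ q ∈ S, |t q| ≤ T) →
      m1 * X1 = n * Real.log y1 + ∑ q ∈ S, (e1 q : ℝ) * Real.log q →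
      m2 * X2 = n * Real.log y2 + ∑ q ∈ S, (e2 q : ℝ) * Real.log q →
      X1 - X2 - ∑ q ∈ S, (t q : ℝ) * Real.log q ≠ 0 →
      |X1 - X2 - ∑ q ∈ S, (t q : ℝ) * Real.log q| ≤ C * Real.exp (-(δ * h)) → h ≤ H0 := by
  have hm1r : (1:ℝ) ≤ m1 := by exact_mod_cast hm1
  have hm2r : (1:ℝ) ≤ m2 := by exact_mod_cast hm2
  have hT0 : (0:ℝ) ≤ T := Nat.cast_nonneg _
  obtain ⟨κ, hκ⟩ : ∃ κ : ℕ, κ = m1 + m2 + m1 * m2 * T + 1 := ⟨_, rfl⟩
  obtain ⟨Lq, hLq⟩ : ∃ Lq : ℝ, Lq = ∑ q ∈ S, Real.log q := ⟨_, rfl⟩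
  have hlog0 : ∀ q : ℕ, 0 ≤ Real.log q := fun q => Real.log_natCast_nonneg q
  have hLq0 : 0 ≤ Lq := by rw [hLq]; exact Finset.sum_nonneg fun q _ => hlog0 q
  obtain ⟨c0, hc0⟩ : ∃ c0 : ℝ, c0 = 2 * (m1 + m2) * (1 + s) := ⟨_, rfl⟩
  have hc00 : 0 < c0 := by rw [hc0]; positivity
  obtain ⟨c1, hc1⟩ : ∃ c1 : ℝ, c1 = m1 * m2 * (1 + s) + c0 * (κ * Lq + 2) := ⟨_, rfl⟩
  have hc10 : 0 < c1 := by rw [hc1]; positivity
  obtain ⟨c2, hc2⟩ : ∃ c2 : ℝ, c2 = 4 * m1 * m2 * (1 + s) + m1 * m2 * T := ⟨_, rfl⟩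
  have hc20 : 0 < c2 := by rw [hc2]; positivity
  obtain ⟨N1, hN1⟩ := many_fin S hS (δ / (2 * c1)) (by positivity)
  obtain ⟨N2, hN2⟩ := many_fin S hS (δ / (4 * c2)) (by positivity)
  obtain ⟨Q, hQ⟩ : ∃ Q : ℝ, Q = m1 * m2 * C := ⟨_, rfl⟩
  obtain ⟨A0, hA0⟩ : ∃ A0 : ℝ, A0 = δ / (2 * c2) * (N2 + 2) + δ / 2 := ⟨_, rfl⟩
  refine ⟨N1, 2 * (A0 + Q) / δ, ?_⟩
  intro h X1 X2 hh hX1 hX2 n hn hNn y1 y2 e1 e2 t hy1 hy2 he1 he2 ht E1 E2 hne hle
  obtain ⟨D, hD⟩ : ∃ D : ℝ, D = X1 - X2 - ∑ q ∈ S, (t q : ℝ) * Real.log q := ⟨_, rfl⟩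
  rw [← hD] at hne hle
  have hmm : (0:ℝ) < m1 * m2 := by positivity
  have hn0 : (0:ℝ) < n := by exact_mod_cast hn
  obtain ⟨c, hc⟩ : ∃ c : ℕ → ℤ, ∀ q, c q = m2 * e1 q - m1 * e2 q - m1 * m2 * t q :=
    ⟨_, fun _ => rfl⟩
  have hcr : ∀ q, (c q : ℝ) = m2 * e1 q - m1 * e2 q - m1 * m2 * t q := fun q => by
    rw [hc]; push_cast; ring
  have hΛ : m1 * m2 * D = n * (m2 * Real.log y1 - m1 * Real.log y2) +
      ∑ q ∈ S, (c q : ℝ) * Real.log q := by
    have h1 : ∑ q ∈ S, (c q : ℝ) * Real.log q = m2 * ∑ q ∈ S, (e1 q : ℝ) * Real.log q -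
        m1 * ∑ q ∈ S, (e2 q : ℝ) * Real.log q - m1 * m2 * ∑ q ∈ S, (t q : ℝ) * Real.log q := by
      rw [Finset.mul_sum, Finset.mul_sum, Finset.mul_sum, ← Finset.sum_sub_distrib,
        ← Finset.sum_sub_distrib]
      exact Finset.sum_congr rfl fun q _ => by rw [hcr]; ring
    rw [h1, hD]
    linear_combination (m2:ℝ) * E1 - (m1:ℝ) * E2
  have hne' : m1 * m2 * D ≠ 0 := mul_ne_zero hmm.ne' hne
  have hle' : |m1 * m2 * D| ≤ Q * Real.exp (-(δ * h)) := by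
    rw [abs_mul, abs_of_pos hmm, hQ, mul_assoc _ C]
    exact mul_le_mul_of_nonneg_left hle hmm.le
  have hs1 : 0 ≤ ∑ q ∈ S, (e1 q : ℝ) * Real.log q :=
    Finset.sum_nonneg fun q _ => mul_nonneg (Nat.cast_nonneg _) (hlog0 q)
  have hs2 : 0 ≤ ∑ q ∈ S, (e2 q : ℝ) * Real.log q :=
    Finset.sum_nonneg fun q _ => mul_nonneg (Nat.cast_nonneg _) (hlog0 q)
  have hX1' : m1 * X1 ≤ m1 * (s + h) := mul_le_mul_of_nonneg_left hX1 (by positivity)
  have hX2' : m2 * X2 ≤ m2 * (s + h) := mul_le_mul_of_nonneg_left hX2 (by positivity)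
  have hy1n : n * Real.log y1 ≤ m1 * (s + h) := by linarith
  have hy2n : n * Real.log y2 ≤ m2 * (s + h) := by linarith
  have hsh : s + h ≤ (1 + s) * (1 + h) := by nlinarith [mul_nonneg hs hh]
  by_cases hcase : (n:ℝ) ≤ c0 * (1 + h)
  · -- large height
    obtain ⟨g, hg⟩ : ∃ g : ℕ → ℤ, ∀ q, g q = c q % n := ⟨_, fun _ => rfl⟩
    obtain ⟨k, hk⟩ : ∃ k : ℕ → ℤ, ∀ q, k q = c q / n := ⟨_, fun _ => rfl⟩
    have hnz : (0:ℤ) < n := by exact_mod_cast hn
    have hgk : ∀ q, c q = n * k q + g q := fun q => by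
      rw [hg, hk]; exact (Int.mul_ediv_add_emod _ _).symm
    have hg0 : ∀ q, 0 ≤ g q := fun q => by rw [hg]; exact Int.emod_nonneg _ hnz.ne'
    have hgn : ∀ q, g q < n := fun q => by rw [hg]; exact Int.emod_lt_of_pos _ hnz
    have hkκ : ∀ q ∈ S, |k q| ≤ κ := by
      intro q hq
      have a1 : (e1 q : ℤ) < n := by exact_mod_cast he1 q
      have a2 : (e2 q : ℤ) < n := by exact_mod_cast he2 q
      have a3 := abs_le.1 (ht q hq)
      have b1 : (0:ℤ) ≤ e1 q := Int.natCast_nonneg _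
      have b2 : (0:ℤ) ≤ e2 q := Int.natCast_nonneg _
      have z1 : (1:ℤ) ≤ m1 := by exact_mod_cast hm1
      have z2 : (1:ℤ) ≤ m2 := by exact_mod_cast hm2
      have zn : (1:ℤ) ≤ n := hnz
      have zT : (0:ℤ) ≤ T := Int.natCast_nonneg _
      have zmm : (0:ℤ) ≤ (m1:ℤ) * m2 := by positivity
      have d1 : (m2:ℤ) * e1 q ≤ m2 * n := mul_le_mul_of_nonneg_left a1.le (by positivity)
      have d2 : (m1:ℤ) * e2 q ≤ m1 * n := mul_le_mul_of_nonneg_left a2.le (by positivity)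
      have d3 : (m1:ℤ) * m2 * t q ≤ m1 * m2 * T := mul_le_mul_of_nonneg_left a3.2 zmm
      have d4 : -((m1:ℤ) * m2 * T) ≤ m1 * m2 * t q := by
        have := mul_le_mul_of_nonneg_left a3.1 zmm
        linarith
      have d5 : (m1:ℤ) * m2 * T ≤ (m1 * m2 * T) * n := le_mul_of_one_le_right (by positivity) zn
      have d6 : (0:ℤ) ≤ m2 * e1 q := by positivity
      have d7 : (0:ℤ) ≤ m1 * e2 q := by positivity
      have d8 : (0:ℤ) ≤ (m1:ℤ) * n := by positivity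
      have d9 : (0:ℤ) ≤ (m2:ℤ) * n := by positivity
      have hcq := hc q
      have hgkq := hgk q
      have hg0q := hg0 q
      have hgnq := hgn q
      have u1 : (n:ℤ) * k q ≤ n * κ := by
        rw [hκ]; push_cast
        linarith
      have u2 : (n:ℤ) * (-(κ:ℤ)) ≤ n * k q := by
        rw [hκ]; push_cast
        linarith
      rw [abs_le]
      exact ⟨le_of_mul_le_mul_left u2 hnz, le_of_mul_le_mul_left u1 hnz⟩
    obtain ⟨U, hU⟩ : ∃ U : ℕ, U = ∏ q ∈ S, q ^ (k q).toNat := ⟨_, rfl⟩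
    obtain ⟨V, hV⟩ : ∃ V : ℕ, V = ∏ q ∈ S, q ^ (-k q).toNat := ⟨_, rfl⟩
    obtain ⟨hU1, hUlog⟩ := log_prod_pow S hS (fun q => (k q).toNat)
    obtain ⟨hV1, hVlog⟩ := log_prod_pow S hS (fun q => (-k q).toNat)
    rw [← hU] at hU1 hUlog
    rw [← hV] at hV1 hVlog
    have bnd : ∀ f : ℕ → ℕ, (∀ q ∈ S, (f q : ℤ) ≤ |k q|) →
        ∑ q ∈ S, (f q : ℝ) * Real.log q ≤ κ * Lq := by
      intro f hf
      rw [hLq, Finset.mul_sum]
      refine Finset.sum_le_sum fun q hq => mul_le_mul_of_nonneg_right ?_ (hlog0 q)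
      have h1 : (f q : ℤ) ≤ κ := (hf q hq).trans (hkκ q hq)
      exact_mod_cast h1
    have hUb : Real.log U ≤ κ * Lq := by
      rw [hUlog]
      refine bnd _ fun q _ => ?_
      rw [Int.toNat_eq_max]
      exact max_le (le_abs_self _) (abs_nonneg _)
    have hVb : Real.log V ≤ κ * Lq := by
      rw [hVlog]
      refine bnd _ fun q _ => ?_
      rw [Int.toNat_eq_max]
      exact max_le (neg_le_abs _) (abs_nonneg _)
    obtain ⟨Y, hY⟩ : ∃ Y : ℕ, Y = ⌈m1 * m2 * (s + h) / n + κ * Lq⌉₊ + 1 := ⟨_, rfl⟩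
    have hY1 : 1 ≤ Y := by omega
    have hYge : m1 * m2 * (s + h) / n + κ * Lq ≤ Y := by
      rw [hY]; push_cast
      have := Nat.le_ceil (m1 * m2 * (s + h) / n + κ * Lq)
      linarith
    have hpos : 0 ≤ m1 * m2 * (s + h) / n + κ * Lq := by positivity
    have hYle : (Y:ℝ) ≤ m1 * m2 * (s + h) / n + κ * Lq + 2 := by
      rw [hY]; push_cast
      have := Nat.ceil_lt_add_one hpos
      linarith
    have ly1 : Real.log y1 ≤ m1 * (s + h) / n := by
      rw [le_div_iff₀ hn0]; linarith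
    have ly2 : Real.log y2 ≤ m2 * (s + h) / n := by
      rw [le_div_iff₀ hn0]; linarith
    have p1 : (0:ℝ) < y1 := by exact_mod_cast hy1
    have p2 : (0:ℝ) < y2 := by exact_mod_cast hy2
    have p3 : (0:ℝ) < U := by exact_mod_cast hU1
    have p4 : (0:ℝ) < V := by exact_mod_cast hV1
    have lu : Real.log ((y1 ^ m2 * U : ℕ) : ℝ) = m2 * Real.log y1 + Real.log U := by
      push_cast
      rw [Real.log_mul (by positivity) (by positivity), Real.log_pow]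
    have lv : Real.log ((y2 ^ m1 * V : ℕ) : ℝ) = m1 * Real.log y2 + Real.log V := by
      push_cast
      rw [Real.log_mul (by positivity) (by positivity), Real.log_pow]
    have hnum : Num (y1 ^ m2 * U) (y2 ^ m1 * V) Y := by
      refine ⟨Nat.mul_pos (Nat.pow_pos hy1) hU1, Nat.mul_pos (Nat.pow_pos hy2) hV1, ?_, ?_⟩
      · rw [lu]
        have h1 : m2 * Real.log y1 ≤ m2 * (m1 * (s + h) / n) :=
          mul_le_mul_of_nonneg_left ly1 (by positivity)
        have h2 : (m2:ℝ) * (m1 * (s + h) / n) = m1 * m2 * (s + h) / n := by ring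
        linarith
      · rw [lv]
        have h1 : m1 * Real.log y2 ≤ m1 * (m2 * (s + h) / n) :=
          mul_le_mul_of_nonneg_left ly2 (by positivity)
        have h2 : (m1:ℝ) * (m2 * (s + h) / n) = m1 * m2 * (s + h) / n := by ring
        linarith
    have hform : ∑ q ∈ S, (g q : ℝ) * Real.log q + n * lg (y1 ^ m2 * U) (y2 ^ m1 * V) =
        m1 * m2 * D := by
      rw [lg_eq hnum.hu hnum.hv, lu, lv, hUlog, hVlog, hΛ]
      have h1 : ∑ q ∈ S, (c q : ℝ) * Real.log q = n * (∑ q ∈ S, ((k q).toNat : ℝ) * Real.log q -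
          ∑ q ∈ S, ((-k q).toNat : ℝ) * Real.log q) + ∑ q ∈ S, (g q : ℝ) * Real.log q := by
        rw [← Finset.sum_sub_distrib, Finset.mul_sum, ← Finset.sum_add_distrib]
        refine Finset.sum_congr rfl fun q _ => ?_
        have h2 := toNat_sub (k q)
        have h3 : (c q : ℝ) = n * k q + g q := by
          have := hgk q
          exact_mod_cast this
        linear_combination h3 * Real.log q - (n:ℝ) * Real.log q * h2
      rw [h1]; ring
    have key := hN1 n hNn g (fun q _ => by rw [abs_of_nonneg (hg0 q)]; exact hgn q)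
      _ _ Y hY1 hnum (by rw [hform]; exact hne')
    rw [hform] at key
    refine final hδ (key.trans_le hle') ?_
    have h1 : (Y:ℝ) * n ≤ c1 * (1 + h) := by
      calc (Y:ℝ) * n ≤ (m1 * m2 * (s + h) / n + κ * Lq + 2) * n :=
            mul_le_mul_of_nonneg_right hYle hn0.le
        _ = m1 * m2 * (s + h) + (κ * Lq + 2) * n := by field_simp; ring
        _ ≤ m1 * m2 * ((1 + s) * (1 + h)) + (κ * Lq + 2) * (c0 * (1 + h)) := by
            have h5 : (0:ℝ) ≤ κ * Lq + 2 := by positivity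
            gcongr
        _ = c1 * (1 + h) := by rw [hc1]; ring
    have h2 : δ / (2 * c1) * (Y * n) ≤ δ / (2 * c1) * (c1 * (1 + h)) :=
      mul_le_mul_of_nonneg_left h1 (by positivity)
    have h3 : δ / (2 * c1) * (c1 * (1 + h)) = δ / 2 * (1 + h) := by field_simp
    have h4 : 0 ≤ δ / (2 * c2) * (N2 + 2) := by positivity
    rw [hA0]
    linarith
  · -- small height
    rw [not_le] at hcase
    have small : ∀ (m y : ℕ), 1 ≤ y → (m:ℝ) ≤ m1 + m2 → n * Real.log y ≤ m * (s + h) →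
        Real.log y = 0 := by
      intro m y hy hm hl
      by_contra hcon
      have hy2 : 2 ≤ y := by
        by_contra h2
        have : y = 1 := by omega
        rw [this, Nat.cast_one, Real.log_one] at hcon
        exact hcon rfl
      have h1 : Real.log 2 ≤ Real.log y := Real.log_le_log (by norm_num) (by exact_mod_cast hy2)
      have h2 := log_two_gt
      have h3 : (n:ℝ) * (1 / 2) < n * Real.log y := mul_lt_mul_of_pos_left (by linarith) hn0
      have h4 : (m:ℝ) * (s + h) ≤ (m1 + m2) * ((1 + s) * (1 + h)) := by gcongr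
      rw [hc0] at hcase
      linarith
    have l1 := small m1 y1 hy1 (by linarith) hy1n
    have l2 := small m2 y2 hy2 (by linarith) hy2n
    rw [l1, mul_zero, zero_add] at E1
    rw [l2, mul_zero, zero_add] at E2
    rw [l1, l2, mul_zero, mul_zero, sub_zero, mul_zero, zero_add] at hΛ
    have ebnd : ∀ (e : ℕ → ℕ) (m : ℕ), ∑ q ∈ S, (e q : ℝ) * Real.log q ≤ m * (s + h) →
        ∀ q ∈ S, (e q : ℝ) ≤ 2 * m * ((1 + s) * (1 + h)) := by
      intro e m he q hq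
      have h1 : (e q : ℝ) * Real.log q ≤ ∑ q ∈ S, (e q : ℝ) * Real.log q :=
        Finset.single_le_sum (f := fun q => (e q : ℝ) * Real.log q)
          (fun q _ => mul_nonneg (Nat.cast_nonneg _) (hlog0 q)) hq
      have h2 : Real.log 2 ≤ Real.log q :=
        Real.log_le_log (by norm_num) (by exact_mod_cast (hS q hq).two_le)
      have h3 := log_two_gt
      have h4 : (e q : ℝ) * (1 / 2) ≤ e q * Real.log q := by gcongr; linarith
      have h5 : (m:ℝ) * (s + h) ≤ m * ((1 + s) * (1 + h)) := by gcongr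
      linarith
    have eb1 := ebnd e1 m1 (by linarith)
    have eb2 := ebnd e2 m2 (by linarith)
    have hcb : ∀ q ∈ S, |(c q : ℝ)| ≤ c2 * (1 + h) := by
      intro q hq
      have a1 := eb1 q hq
      have a2 := eb2 q hq
      have a3 : |(t q : ℝ)| ≤ T := by
        have := ht q hq
        have h1 : ((|t q| : ℤ) : ℝ) ≤ ((T:ℤ) : ℝ) := by exact_mod_cast this
        rwa [Int.cast_abs, Int.cast_natCast] at h1
      have a4 := abs_le.1 a3
      have b1 : (0:ℝ) ≤ e1 q := Nat.cast_nonneg _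
      have b2 : (0:ℝ) ≤ e2 q := Nat.cast_nonneg _
      have d1 : (m2:ℝ) * e1 q ≤ m2 * (2 * m1 * ((1 + s) * (1 + h))) := by gcongr
      have d2 : (m1:ℝ) * e2 q ≤ m1 * (2 * m2 * ((1 + s) * (1 + h))) := by gcongr
      have d3 : (m1:ℝ) * m2 * t q ≤ m1 * m2 * T := by
        have := a4.2
        gcongr
      have d4 : -((m1:ℝ) * m2 * T) ≤ m1 * m2 * t q := by
        have := mul_le_mul_of_nonneg_left a4.1 hmm.le
        linarith
      have d5 : (m1:ℝ) * m2 * T ≤ m1 * m2 * T * (1 + h) :=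
        le_mul_of_one_le_right (by positivity) (by linarith)
      have d6 : (0:ℝ) ≤ m2 * e1 q := by positivity
      have d7 : (0:ℝ) ≤ m1 * e2 q := by positivity
      rw [hcr, abs_le, hc2]
      constructor <;> linarith
    obtain ⟨B, hB⟩ : ∃ B : ℕ, B = N2 + ⌈c2 * (1 + h)⌉₊ + 1 := ⟨_, rfl⟩
    obtain ⟨b, hb1, hb2⟩ : ∃ b : ℕ, B < b ∧ b ≤ 2 * B := ⟨B + 1, by omega, by omega⟩
    have hceil : c2 * (1 + h) ≤ ⌈c2 * (1 + h)⌉₊ := Nat.le_ceil _
    have hpos : 0 ≤ c2 * (1 + h) := by positivity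
    have hceil2 := Nat.ceil_lt_add_one hpos
    have hBr : (B:ℝ) = N2 + ⌈c2 * (1 + h)⌉₊ + 1 := by rw [hB]; push_cast; ring
    have hb1r : (B:ℝ) < b := by exact_mod_cast hb1
    have hb2r : (b:ℝ) ≤ 2 * B := by exact_mod_cast hb2
    have hN2r : (0:ℝ) ≤ N2 := Nat.cast_nonneg _
    have key := hN2 b (by omega) c (fun q hq => by
      have h1 := hcb q hq
      have h2 : |(c q : ℝ)| < b := by linarith
      have h3 : ((|c q| : ℤ) : ℝ) < ((b : ℤ) : ℝ) := by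
        rw [Int.cast_abs, Int.cast_natCast]; exact h2
      exact_mod_cast h3) 1 1 1 le_rfl
      ⟨le_rfl, le_rfl, by simp, by simp⟩
    have e0 : lg 1 1 = 0 := by unfold lg; simp
    rw [e0, mul_zero, add_zero, ← hΛ] at key
    have key2 := key hne'
    refine final hδ (key2.trans_le hle') ?_
    have h1 : ((1:ℕ):ℝ) * b ≤ 2 * (N2 + c2 * (1 + h) + 2) := by
      rw [Nat.cast_one, one_mul]
      linarith
    have h2 : δ / (4 * c2) * (((1:ℕ):ℝ) * b) ≤ δ / (4 * c2) * (2 * (N2 + c2 * (1 + h) + 2)) :=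
      mul_le_mul_of_nonneg_left h1 (by positivity)
    have h3 : δ / (4 * c2) * (2 * (N2 + c2 * (1 + h) + 2)) =
        δ / (2 * c2) * (N2 + 2) + δ / 2 * (1 + h) := by field_simp; ring
    rw [hA0]
    linarith

end Pool.Agent.U964.ML
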