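import Mathlib
import Pool.Agent.U964.LF.Pole

/-!
Rational numbers at which all pole orders outside a finite set of primes of a rational function with a
rational pole are divisible by `n` (helper964)
-/

set_option autoImplicit false

namespace Pool.Agent.U964.ML

open Polynomial Finset
open Pool.Agent.U964.LF (IsPole elp loc_pt log_abs_eq)

/-- the pole orders of `r` outside `S` are divisible by `n` -/
def DvS (S : Finset ℕ) (n : ℕ) (r : ℚ) : Prop :=
  ∀ q : ℕ, q.Prime → q ∉ S → padicValRat q r < 0 → (n : ℤ) ∣ padicValRat q r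

/-- **A rational pole.** -/
theorem pole_S (F G : ℚ[X]) (hcop : IsCoprime F G) (hG : G ≠ 0) (π : Option ℚ)
    (hπ : IsPole F G π) (S : Finset ℕ) :
    ∃ (m : ℕ) (S0 : Finset ℕ), 1 ≤ m ∧ (∀ q ∈ S0, q.Prime) ∧
      ∀ S' : Finset ℕ, S0 ⊆ S' → (∀ q ∈ S', q.Prime) →
      ∀ x : ℚ, G.eval x ≠ 0 → ∀ n : ℕ, 1 ≤ n → DvS S n (F.eval x / G.eval x) →
      ∃ (y : ℕ) (e : ℕ → ℕ), 1 ≤ y ∧ (∀ q, e q < n) ∧
        m * Real.log |(elp π x : ℝ)| = n * Real.log y + ∑ q ∈ S', (e q : ℝ) * Real.log q := by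
  classical
  obtain ⟨m, M, K, hm, hM, hloc⟩ := loc_pt F G hcop hG π hπ
  refine ⟨m, S.filter Nat.Prime ∪ M.primeFactors, hm, ?_, ?_⟩
  · intro q hq
    rcases Finset.mem_union.1 hq with h | h
    · exact (Finset.mem_filter.1 h).2
    · exact Nat.prime_of_mem_primeFactors h
  intro S' hS' hS'p x hx n hn hDv
  obtain ⟨a, ha⟩ : ∃ a : ℕ → ℕ, a = fun q => padicValInt q (elp π x) := ⟨_, rfl⟩
  have hout : ∀ q : ℕ, q.Prime → q ∉ S' → n ∣ m * a q := by
    intro q hq hqS'
    have hqS : q ∉ S := fun h =>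
      hqS' (hS' (Finset.mem_union_left _ (Finset.mem_filter.2 ⟨h, hq⟩)))
    have hqM : padicValNat q M = 0 := by
      rw [← Nat.factorization_def _ hq, ← Finsupp.notMem_support_iff, Nat.support_factorization]
      exact fun h => hqS' (hS' (Finset.mem_union_right _ h))
    rcases Nat.eq_zero_or_pos (a q) with h0 | hpos
    · rw [h0, mul_zero]; exact dvd_zero _
    have h2 := hloc x hx q hq (by rw [hqM, mul_zero]; rw [ha] at hpos; exact hpos)
    rw [hqM, Nat.cast_zero, mul_zero] at h2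
    have h3 : padicValRat q (F.eval x / G.eval x) = -((m * a q : ℕ) : ℤ) := by
      have h4 := abs_eq_zero.1 (le_antisymm h2 (abs_nonneg _))
      rw [ha]
      push_cast
      linarith
    have hma : 0 < m * a q := Nat.mul_pos hm hpos
    have h5 := hDv q hq hqS (by
      rw [h3]
      have : (0:ℤ) < ((m * a q : ℕ) : ℤ) := by exact_mod_cast hma
      linarith)
    rw [h3, dvd_neg] at h5
    exact_mod_cast h5
  obtain ⟨T, hT⟩ : ∃ T : Finset ℕ, T = (elp π x).natAbs.primeFactors ∪ S' := ⟨_, rfl⟩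
  have hTp : ∀ q ∈ T, q.Prime := by
    intro q hq
    rw [hT, Finset.mem_union] at hq
    rcases hq with h | h
    · exact Nat.prime_of_mem_primeFactors h
    · exact hS'p q h
  have hST : S' ⊆ T := by rw [hT]; exact Finset.subset_union_right
  refine ⟨∏ q ∈ T, q ^ (m * a q / n), fun q => m * a q % n, ?_, fun q => Nat.mod_lt _ hn, ?_⟩
  · exact Finset.prod_pos fun q hq => pow_pos (hTp q hq).pos _
  have hy : Real.log ((∏ q ∈ T, q ^ (m * a q / n) : ℕ) : ℝ) =
      ∑ q ∈ T, ((m * a q / n : ℕ) : ℝ) * Real.log q := by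
    rw [Nat.cast_prod]
    simp only [Nat.cast_pow]
    rw [Real.log_prod (fun q hq => by
      have := (hTp q hq).pos
      positivity)]
    exact Finset.sum_congr rfl fun q _ => Real.log_pow _ _
  rw [hy, log_abs_eq (elp π x) T hTp (by rw [hT]; exact Finset.subset_union_left)]
  have e2 : ∑ q ∈ S', ((m * a q % n : ℕ) : ℝ) * Real.log q =
      ∑ q ∈ T, ((m * a q % n : ℕ) : ℝ) * Real.log q := by
    apply Finset.sum_subset hST
    intro q hqT hqS
    have h1 := hout q (hTp q hqT) hqS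
    rw [Nat.dvd_iff_mod_eq_zero.1 h1]
    simp
  rw [e2, Finset.mul_sum, Finset.mul_sum, ← Finset.sum_add_distrib]
  refine Finset.sum_congr rfl fun q _ => ?_
  have h1 : n * (m * a q / n) + m * a q % n = m * a q := Nat.div_add_mod _ _
  have h2 : (n:ℝ) * ((m * a q / n : ℕ) : ℝ) + ((m * a q % n : ℕ) : ℝ) = (m:ℝ) * (a q : ℝ) := by
    exact_mod_cast h1
  have h3 : ((padicValInt q (elp π x) : ℕ) : ℝ) = (a q : ℝ) := by rw [ha]
  rw [h3]
  linear_combination (-Real.log q) * h2

end Pool.Agent.U964.ML
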