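import Mathlib
import Pool.Agent.U964.LF.Fin
import Pool.Agent.U964.ML.Abs
import Pool.Agent.U964.ML.PoleS

/-!
Two integers whose quotient is an `n`-th power up to a finite set of primes are equal or far from each
other, for all large `n` (helper964)
-/

set_option autoImplicit false

namespace Pool.Agent.U964.ML

open Finset
open Pool.Agent.U964.LF (log_abs_eq log_one_add)

/-- `r` is an `n`-th power up to the primes of `S` (and up to the sign) -/
def AP (S : Finset ℕ) (n : ℕ) (r : ℚ) : Prop :=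
  ∀ q : ℕ, q.Prime → q ∉ S → (n : ℤ) ∣ padicValRat q r

theorem int_dec (S' : Finset ℕ) (hS'p : ∀ q ∈ S', q.Prime) (z : ℤ) (n : ℕ) (hn : 1 ≤ n)
    (hout : ∀ q : ℕ, q.Prime → q ∉ S' → n ∣ padicValInt q z) :
    ∃ (y : ℕ) (e : ℕ → ℕ), 1 ≤ y ∧ (∀ q, e q < n) ∧
      Real.log |(z : ℝ)| = n * Real.log y + ∑ q ∈ S', (e q : ℝ) * Real.log q := by
  classical
  obtain ⟨a, ha⟩ : ∃ a : ℕ → ℕ, a = fun q => padicValInt q z := ⟨_, rfl⟩
  have hout' : ∀ q : ℕ, q.Prime → q ∉ S' → n ∣ a q := by rw [ha]; exact hout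
  obtain ⟨T, hT⟩ : ∃ T : Finset ℕ, T = z.natAbs.primeFactors ∪ S' := ⟨_, rfl⟩
  have hTp : ∀ q ∈ T, q.Prime := by
    intro q hq
    rw [hT, Finset.mem_union] at hq
    rcases hq with h | h
    · exact Nat.prime_of_mem_primeFactors h
    · exact hS'p q h
  have hST : S' ⊆ T := by rw [hT]; exact Finset.subset_union_right
  refine ⟨∏ q ∈ T, q ^ (a q / n), fun q => a q % n, ?_, fun q => Nat.mod_lt _ hn, ?_⟩
  · exact Finset.prod_pos fun q hq => pow_pos (hTp q hq).pos _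
  have hy : Real.log ((∏ q ∈ T, q ^ (a q / n) : ℕ) : ℝ) =
      ∑ q ∈ T, ((a q / n : ℕ) : ℝ) * Real.log q := by
    rw [Nat.cast_prod]
    simp only [Nat.cast_pow]
    rw [Real.log_prod (fun q hq => by
      have := (hTp q hq).pos
      positivity)]
    exact Finset.sum_congr rfl fun q _ => Real.log_pow _ _
  rw [hy, log_abs_eq z T hTp (by rw [hT]; exact Finset.subset_union_left)]
  have e2 : ∑ q ∈ S', ((a q % n : ℕ) : ℝ) * Real.log q =
      ∑ q ∈ T, ((a q % n : ℕ) : ℝ) * Real.log q := by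
    apply Finset.sum_subset hST
    intro q hqT hqS
    have h1 := hout' q (hTp q hqT) hqS
    rw [Nat.dvd_iff_mod_eq_zero.1 h1]
    simp
  rw [e2, Finset.mul_sum, ← Finset.sum_add_distrib]
  refine Finset.sum_congr rfl fun q _ => ?_
  have h1 : n * (a q / n) + a q % n = a q := Nat.div_add_mod _ _
  have h2 : (n:ℝ) * ((a q / n : ℕ) : ℝ) + ((a q % n : ℕ) : ℝ) = (a q : ℝ) := by
    exact_mod_cast h1
  have h3 : ((padicValInt q z : ℕ) : ℝ) = (a q : ℝ) := by rw [ha]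
  rw [h3]
  linear_combination (-Real.log q) * h2

/-- A rational number near `1` which is an `n`-th power up to `S`. -/
theorem log_gap (S : Finset ℕ) (C δ : ℝ) (hδ : 0 < δ) : ∃ (N : ℕ) (H0 : ℝ),
    ∀ n : ℕ, N ≤ n → ∀ r : ℚ, 0 < r → r ≠ 1 → AP S n r → ∀ h : ℝ, 0 ≤ h →
      Real.log |(r.num : ℝ)| ≤ h → Real.log (r.den : ℝ) ≤ h →
      |Real.log |(r.num : ℝ)| - Real.log (r.den : ℝ)| ≤ C * Real.exp (-(δ * h)) → h ≤ H0 := by
  classical
  have hS'p : ∀ q ∈ S.filter Nat.Prime, q.Prime := fun q hq => (Finset.mem_filter.1 hq).2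
  obtain ⟨N, H0, hN⟩ := abs_two (S.filter Nat.Prime) hS'p 1 1 0 le_rfl le_rfl 0 C δ le_rfl hδ
  refine ⟨N + 1, H0, ?_⟩
  intro n hn r hr0 hr1 hAP h hh h1 h2 h3
  have hn1 : 1 ≤ n := by omega
  have hcop : r.num.natAbs.Coprime r.den := r.reduced
  have hdiv : ∀ q : ℕ, q.Prime → q ∉ S.filter Nat.Prime →
      n ∣ padicValInt q r.num ∧ n ∣ padicValInt q (r.den : ℤ) := by
    intro q hq hqS
    have hqS' : q ∉ S := fun hc => hqS (Finset.mem_filter.2 ⟨hc, hq⟩)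
    have h4 := hAP q hq hqS'
    have h5 : padicValRat q r = (padicValInt q r.num : ℤ) - (padicValNat q r.den : ℤ) := rfl
    rw [h5] at h4
    have h6 : padicValInt q (r.den : ℤ) = padicValNat q r.den := by
      rw [padicValInt, Int.natAbs_natCast]
    rw [h6]
    by_cases hqn : q ∣ r.num.natAbs
    · have h7 : ¬ q ∣ r.den := fun hc => by
        have := Nat.dvd_gcd hqn hc
        rw [hcop] at this
        exact hq.one_lt.ne' (Nat.dvd_one.1 this)
      have h8 : padicValNat q r.den = 0 := padicValNat.eq_zero_of_not_dvd h7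
      rw [h8] at h4 ⊢
      refine ⟨?_, dvd_zero _⟩
      rw [Nat.cast_zero, sub_zero] at h4
      exact_mod_cast h4
    · have h8 : padicValInt q r.num = 0 := by
        rw [padicValInt]
        exact padicValNat.eq_zero_of_not_dvd hqn
      rw [h8] at h4 ⊢
      refine ⟨dvd_zero _, ?_⟩
      rw [Nat.cast_zero, zero_sub, dvd_neg] at h4
      exact_mod_cast h4
  obtain ⟨y1, e1, hy1, he1, E1⟩ := int_dec _ hS'p r.num n hn1 fun q hq hqS => (hdiv q hq hqS).1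
  obtain ⟨y2, e2, hy2, he2, E2⟩ := int_dec _ hS'p (r.den : ℤ) n hn1
    fun q hq hqS => (hdiv q hq hqS).2
  have hden : |(((r.den : ℕ) : ℤ) : ℝ)| = (r.den : ℝ) := by
    rw [Int.cast_natCast, abs_of_nonneg (Nat.cast_nonneg _)]
  rw [hden] at E2
  have hne : Real.log |(r.num : ℝ)| - Real.log (r.den : ℝ) -
      ∑ q ∈ S.filter Nat.Prime, (((fun _ => 0 : ℕ → ℤ) q : ℤ) : ℝ) * Real.log q ≠ 0 := by
    simp only [Int.cast_zero, zero_mul, Finset.sum_const_zero, sub_zero]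
    intro h0
    have hnum : 0 < r.num := Rat.num_pos.2 hr0
    have hnumr : (0:ℝ) < (r.num : ℝ) := by exact_mod_cast hnum
    have hdenr : (0:ℝ) < (r.den : ℝ) := by exact_mod_cast r.den_pos
    rw [abs_of_pos hnumr, sub_eq_zero] at h0
    have h4 := Real.log_injOn_pos (Set.mem_Ioi.2 hnumr) (Set.mem_Ioi.2 hdenr) h0
    have h5 : r.num = (r.den : ℤ) := by exact_mod_cast h4
    apply hr1
    rw [← Rat.num_div_den r, h5, Int.cast_natCast]
    exact div_self (by exact_mod_cast r.den_pos.ne')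
  refine hN h (Real.log |(r.num : ℝ)|) (Real.log (r.den : ℝ)) hh (by linarith) (by linarith) n hn1
    (by omega) y1 y2 e1 e2 (fun _ => 0) hy1 hy2 he1 he2 (fun q _ => by simp)
    (by rw [← E1, Nat.cast_one, one_mul]) (by rw [← E2, Nat.cast_one, one_mul]) hne ?_
  simpa using h3

/-- **The gap theorem.** -/
theorem pow_gap (S : Finset ℕ) (δ : ℝ) (hδ : 0 < δ) : ∃ N B : ℕ, 1 ≤ B ∧
    ∀ n : ℕ, N ≤ n → ∀ u v : ℤ, u ≠ 0 → v ≠ 0 → u ≠ v → AP S n ((u : ℚ) / v) →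
      ∀ M : ℝ, |(u : ℝ)| ≤ M → |(v : ℝ)| ≤ M → |(u : ℝ)| = M ∨ |(v : ℝ)| = M →
      |(u : ℝ) - v| ≤ M ^ (1 - δ) → M ≤ B := by
  obtain ⟨N, H0, hN⟩ := log_gap S 3 δ hδ
  obtain ⟨B, hB⟩ : ∃ B : ℕ, Real.exp H0 + (4:ℝ) ^ (1 / δ) + 1 ≤ B := exists_nat_ge _
  have hB1 : 1 ≤ B := by
    have h1 : (0:ℝ) < Real.exp H0 + (4:ℝ) ^ (1 / δ) := by positivity
    have h2 : (1:ℝ) ≤ B := by linarith
    exact_mod_cast h2
  refine ⟨N, B, hB1, ?_⟩
  intro n hn u v hu hv huv hAP M huM hvM hor hle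
  have e1 : 0 < Real.exp H0 := Real.exp_pos _
  have e2 : 0 < (4:ℝ) ^ (1 / δ) := by positivity
  by_contra hcon
  rw [not_le] at hcon
  have hM4 : (4:ℝ) ^ (1 / δ) < M := by linarith
  have hMpos : 0 < M := e2.trans hM4
  have hMH : Real.exp H0 < M := by linarith
  have hM1 : 1 ≤ M := by linarith
  have h4 : (4:ℝ) < M ^ δ := by
    have h1 := Real.rpow_lt_rpow e2.le hM4 hδ
    rwa [← Real.rpow_mul (by norm_num), one_div, inv_mul_cancel₀ hδ.ne', Real.rpow_one] at h1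
  have hMd : M ^ (-δ) < 1 / 4 := by
    rw [Real.rpow_neg hMpos.le, ← one_div]
    exact one_div_lt_one_div_of_lt (by norm_num) h4
  have hMd0 : 0 < M ^ (-δ) := Real.rpow_pos_of_pos hMpos _
  have hsplit : M ^ (1 - δ) = M * M ^ (-δ) := by
    rw [sub_eq_add_neg, Real.rpow_add hMpos, Real.rpow_one]
  rw [hsplit] at hle
  have hsmall : |(u:ℝ) - v| ≤ M / 4 := by
    refine hle.trans ?_
    nlinarith
  have hvlow : 3 / 4 * M ≤ |(v:ℝ)| := by
    rcases hor with h | h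
    · have := abs_sub_abs_le_abs_sub (u:ℝ) (v:ℝ)
      linarith
    · rw [h]; linarith
  have hvr : (v:ℝ) ≠ 0 := by exact_mod_cast hv
  have hvpos : 0 < |(v:ℝ)| := abs_pos.2 hvr
  obtain ⟨w, hw⟩ : ∃ w : ℝ, w = ((u:ℝ) - v) / v := ⟨_, rfl⟩
  have hwabs : |w| ≤ 4 / 3 * M ^ (-δ) := by
    rw [hw, abs_div, div_le_iff₀ hvpos]
    calc |(u:ℝ) - v| ≤ M * M ^ (-δ) := hle
      _ = 4 / 3 * M ^ (-δ) * (3 / 4 * M) := by ring
      _ ≤ 4 / 3 * M ^ (-δ) * |(v:ℝ)| := by gcongr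
  have hw2 : |w| ≤ 1 / 2 := by linarith
  have hlogw := log_one_add hw2
  have hr : (u:ℝ) / v = 1 + w := by rw [hw]; field_simp; ring
  have hrpos : (0:ℝ) < (u:ℝ) / v := by
    rw [hr]
    have := (abs_le.1 hw2).1
    linarith
  obtain ⟨r, hrdef⟩ : ∃ r : ℚ, r = (u:ℚ) / v := ⟨_, rfl⟩
  rw [← hrdef] at hAP
  have hrr : (r:ℝ) = (u:ℝ) / v := by rw [hrdef]; push_cast; rfl
  have hr0 : 0 < r := by
    have : (0:ℝ) < (r:ℝ) := by rw [hrr]; exact hrpos
    exact_mod_cast this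
  have hr1 : r ≠ 1 := by
    rw [hrdef]
    intro h
    rw [div_eq_one_iff_eq (by exact_mod_cast hv)] at h
    exact huv (by exact_mod_cast h)
  have hnum : r.num ∣ u := by rw [hrdef, ← Rat.divInt_eq_div]; exact Rat.num_dvd u hv
  have hden : (r.den : ℤ) ∣ v := by rw [hrdef, ← Rat.divInt_eq_div]; exact Rat.den_dvd u v
  have hnumpos : 0 < r.num := Rat.num_pos.2 hr0
  have hnumr : (0:ℝ) < (r.num : ℝ) := by exact_mod_cast hnumpos
  have hdenr : (0:ℝ) < (r.den : ℝ) := by exact_mod_cast r.den_pos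
  have hnumM : |(r.num : ℝ)| ≤ M := by
    refine le_trans ?_ huM
    have h1 : |r.num| ≤ |u| := Int.le_of_dvd (abs_pos.2 hu) ((abs_dvd_abs _ _).2 hnum)
    exact_mod_cast h1
  have hdenM : (r.den : ℝ) ≤ M := by
    refine le_trans ?_ hvM
    have h1 : |(r.den : ℤ)| ≤ |v| := Int.le_of_dvd (abs_pos.2 hv) ((abs_dvd_abs _ _).2 hden)
    have h2 : (|((r.den : ℤ) : ℝ)| : ℝ) ≤ |(v:ℝ)| := by exact_mod_cast h1
    rwa [Int.cast_natCast, abs_of_nonneg (Nat.cast_nonneg _)] at h2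
  have hlogr : Real.log |(r.num : ℝ)| - Real.log (r.den : ℝ) = Real.log (1 + w) := by
    rw [← hr, ← hrr, abs_of_pos hnumr, ← Real.log_div hnumr.ne' hdenr.ne']
    congr 1
    exact_mod_cast Rat.num_div_den r
  have hpow : M ^ (-δ) = Real.exp (-(δ * Real.log M)) := by
    rw [Real.rpow_def_of_pos hMpos]
    congr 1
    ring
  have hfin := hN n hn r hr0 hr1 hAP (Real.log M) (Real.log_nonneg hM1)
    (Real.log_le_log (abs_pos.2 hnumr.ne') hnumM) (Real.log_le_log hdenr hdenM) (by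
      rw [hlogr, ← hpow]
      linarith)
  rw [Real.log_le_iff_le_exp hMpos] at hfin
  linarith

end Pool.Agent.U964.ML
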