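import Mathlib
import Pool.Agent.TH930.GH.Rid
import Pool.Agent.U964.ML.Pow

/-!
Two coprime integers whose quotient is near a rational number and whose prime factors outside a finite set
have all nearly the same exponent are bounded by a power of their radical (helper964)
-/

set_option autoImplicit false

namespace Pool.Agent.U964.ML

open Finset

/-- the part of `w` composed of the primes of `S` -/
def spart (S : Finset ℕ) (w : ℕ) : ℕ := ∏ q ∈ S.filter Nat.Prime, q ^ w.factorization q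

/-- the product of the primes dividing `w` -/
def rad (w : ℕ) : ℕ := ∏ q ∈ w.primeFactors, q

theorem rad_pos (w : ℕ) : 0 < rad w :=
  Finset.prod_pos fun _ hq => (Nat.prime_of_mem_primeFactors hq).pos

theorem spart_pos (S : Finset ℕ) (w : ℕ) : 0 < spart S w :=
  Finset.prod_pos fun _ hq => pow_pos (Finset.mem_filter.1 hq).2.pos _

theorem spart_mul (S : Finset ℕ) {u v : ℕ} (hu : u ≠ 0) (hv : v ≠ 0) :
    spart S (u * v) = spart S u * spart S v := by
  rw [spart, spart, spart, ← Finset.prod_mul_distrib]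
  refine Finset.prod_congr rfl fun q _ => ?_
  rw [Nat.factorization_mul hu hv, Finsupp.add_apply, pow_add]

theorem spart_eq (S : Finset ℕ) (w : ℕ) :
    spart S w = ∏ q ∈ w.primeFactors with q ∈ S, q ^ w.factorization q := by
  classical
  rw [spart]
  symm
  apply Finset.prod_subset
  · intro q hq
    rw [Finset.mem_filter] at hq ⊢
    exact ⟨hq.2, Nat.prime_of_mem_primeFactors hq.1⟩
  · intro q hq hq'
    rw [Finset.mem_filter] at hq hq'
    have h1 : q ∉ w.primeFactors := fun h => hq' ⟨h, hq.1⟩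
    rw [← Nat.support_factorization, Finsupp.notMem_support_iff] at h1
    rw [h1, pow_zero]

theorem prod_eq {w : ℕ} (hw : w ≠ 0) : ∏ q ∈ w.primeFactors, q ^ w.factorization q = w := by
  have h4 : w.factorization.prod (fun p k => p ^ k) = w := Nat.prod_factorization_pow_eq_self hw
  rw [Finsupp.prod, Nat.support_factorization] at h4
  exact h4

theorem spart_dvd (S : Finset ℕ) {w : ℕ} (hw : w ≠ 0) : spart S w ∣ w := by
  rw [spart_eq]
  conv_rhs => rw [← prod_eq hw]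
  exact Finset.prod_dvd_prod_of_subset _ _ _ (Finset.filter_subset _ _)

/-- `w` is at most its `S`-part times a power of its radical -/
theorem le_spart (S : Finset ℕ) {w : ℕ} (hw : w ≠ 0) (E : ℕ)
    (hE : ∀ q : ℕ, q.Prime → q ∉ S → w.factorization q ≤ E) : w ≤ spart S w * rad w ^ E := by
  classical
  have h1 : w = spart S w * ∏ q ∈ w.primeFactors with q ∉ S, q ^ w.factorization q := by
    rw [spart_eq, Finset.prod_filter_mul_prod_filter_not]
    exact (prod_eq hw).symm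
  conv_lhs => rw [h1]
  refine Nat.mul_le_mul_left _ ?_
  have h2 : (∏ q ∈ w.primeFactors with q ∉ S, q ^ w.factorization q) ∣
      ∏ q ∈ w.primeFactors with q ∉ S, q ^ E :=
    Finset.prod_dvd_prod_of_dvd _ _ fun q hq => by
      rw [Finset.mem_filter] at hq
      exact pow_dvd_pow _ (hE q (Nat.prime_of_mem_primeFactors hq.1) hq.2)
  have h3 : (∏ q ∈ w.primeFactors with q ∉ S, q ^ E) ∣ rad w ^ E := by
    rw [rad, ← Finset.prod_pow]
    exact Finset.prod_dvd_prod_of_subset _ _ _ (Finset.filter_subset _ _)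
  exact Nat.le_of_dvd (pow_pos (rad_pos w) _) (h2.trans h3)

/-- Ridout's theorem for a pair of coprime numbers -/
theorem rid_pair (S : Finset ℕ) {ε : ℝ} (hε : 0 < ε) : ∃ C : ℝ, 1 ≤ C ∧
    ∀ α β u v : ℕ, 1 ≤ α → 1 ≤ β → 1 ≤ u → 1 ≤ v → Nat.Coprime u v → ∀ D : ℤ, D ≠ 0 →
      (β : ℤ) * v = α * u + D → |D| < (α : ℤ) * u →
      (spart S (u * v) : ℝ) ≤ C * |(D : ℝ)| * ((α : ℝ) * u) ^ (1 + ε) := by
  classical
  have key : ∀ T : Finset ℕ, ∃ C : ℝ, 0 < C ∧ (T ⊆ S.filter Nat.Prime → ∀ A B : ℤ, A ≠ 0 → B ≠ 0 →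
      (∀ ℓ : ℕ, ℓ.Prime → (ℓ : ℤ) ∣ A → ℓ ∈ T) →
      (∀ ℓ : ℕ, ℓ.Prime → (ℓ : ℤ) ∣ B → ℓ ∈ S.filter Nat.Prime \ T) → ∀ X D : ℤ, X ≠ 0 → D ≠ 0 →
      |D| < |X| → A ∣ X → B ∣ X + D →
        |(A : ℝ)| * |(B : ℝ)| ≤ C * |(D : ℝ)| * |(X : ℝ)| ^ (1 + ε)) := by
    intro T
    by_cases hT : T ⊆ S.filter Nat.Prime
    · obtain ⟨C, hC, h⟩ := Pool.Agent.TH930.GH.ridout_S T (S.filter Nat.Prime \ T)
        (fun ℓ hℓ => (Finset.mem_filter.1 (hT hℓ)).2)
        (fun ℓ hℓ => (Finset.mem_filter.1 (Finset.mem_sdiff.1 hℓ).1).2) disjoint_sdiff hε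
      exact ⟨C, hC, fun _ => h⟩
    · exact ⟨1, one_pos, fun h => absurd h hT⟩
  choose C hC hkey using key
  have hsum : 0 ≤ ∑ T ∈ (S.filter Nat.Prime).powerset, C T :=
    Finset.sum_nonneg fun T _ => (hC T).le
  refine ⟨1 + ∑ T ∈ (S.filter Nat.Prime).powerset, C T, by linarith, ?_⟩
  intro α β u v hα hβ hu hv hcop D hD heq hlt
  obtain ⟨T, hT⟩ : ∃ T, T = (S.filter Nat.Prime).filter fun ℓ => ℓ ∣ u := ⟨_, rfl⟩
  have hTS : T ⊆ S.filter Nat.Prime := by rw [hT]; exact Finset.filter_subset _ _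
  have hu0 : u ≠ 0 := by omega
  have hv0 : v ≠ 0 := by omega
  have hpm : ∀ w ℓ : ℕ, ℓ.Prime → ℓ ∣ spart S w → ℓ ∈ S.filter Nat.Prime := by
    intro w ℓ hℓ hd
    rw [spart, hℓ.prime.dvd_finsetProd_iff] at hd
    obtain ⟨q, hq, hq2⟩ := hd
    have h1 := hℓ.dvd_of_dvd_pow hq2
    rw [(Nat.prime_dvd_prime_iff_eq hℓ (Finset.mem_filter.1 hq).2).1 h1]
    exact hq
  have hXpos : (0:ℤ) < (α : ℤ) * u := by
    have : 0 < α * u := Nat.mul_pos hα hu
    exact_mod_cast this
  have h := hkey T hTS (spart S u : ℤ) (spart S v : ℤ)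
    (by exact_mod_cast (spart_pos S u).ne') (by exact_mod_cast (spart_pos S v).ne')
    (by
      intro ℓ hℓ hd
      have hd' : ℓ ∣ spart S u := by exact_mod_cast hd
      rw [hT, Finset.mem_filter]
      exact ⟨hpm u ℓ hℓ hd', hd'.trans (spart_dvd S hu0)⟩)
    (by
      intro ℓ hℓ hd
      have hd' : ℓ ∣ spart S v := by exact_mod_cast hd
      rw [Finset.mem_sdiff]
      refine ⟨hpm v ℓ hℓ hd', fun hc => ?_⟩
      rw [hT, Finset.mem_filter] at hc
      have h1 : ℓ ∣ Nat.gcd u v := Nat.dvd_gcd hc.2 (hd'.trans (spart_dvd S hv0))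
      rw [hcop] at h1
      exact hℓ.one_lt.ne' (Nat.dvd_one.1 h1))
    ((α : ℤ) * u) D hXpos.ne' hD (by rw [abs_of_pos hXpos]; exact hlt)
    (by
      have h1 : (spart S u : ℤ) ∣ (u : ℤ) := by exact_mod_cast spart_dvd S hu0
      exact h1.mul_left _)
    (by
      have h1 : (spart S v : ℤ) ∣ (v : ℤ) := by exact_mod_cast spart_dvd S hv0
      rw [← heq]
      exact h1.mul_left _)
  have hX : |(((α : ℤ) * u : ℤ) : ℝ)| = (α : ℝ) * u := by
    push_cast
    exact abs_of_nonneg (by positivity)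
  rw [hX] at h
  have e1 : (spart S (u * v) : ℝ) = |((spart S u : ℤ) : ℝ)| * |((spart S v : ℤ) : ℝ)| := by
    rw [spart_mul S hu0 hv0]
    push_cast
    rw [abs_of_nonneg (by positivity), abs_of_nonneg (by positivity)]
  rw [e1]
  refine h.trans ?_
  have hle : C T ≤ 1 + ∑ T ∈ (S.filter Nat.Prime).powerset, C T := by
    have h1 := Finset.single_le_sum (f := C) (fun T _ => (hC T).le) (Finset.mem_powerset.2 hTS)
    linarith
  gcongr

/-- **Main theorem of this file.** -/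
theorem oes (S : Finset ℕ) (m : ℕ) (δ : ℝ) (hδ : 0 < δ) (hδ1 : δ < 1) (α β : ℕ) (hα : 1 ≤ α)
    (hβ : 1 ≤ β) : ∃ (K : ℝ) (M N : ℕ), 1 ≤ K ∧ ∀ u v : ℕ, 1 ≤ u → 1 ≤ v → Nat.Coprime u v →
      ∀ W : ℝ, (u : ℝ) ≤ W → (v : ℝ) ≤ W → ((u : ℝ) = W ∨ (v : ℝ) = W) →
      |(α : ℝ) * u - β * v| ≤ 2 * W ^ (1 - δ) → ∀ n : ℕ, 1 ≤ n →
      (∀ q : ℕ, q.Prime → q ∉ S → ∃ k ≤ m, (u * v).factorization q = k * n) →
      (N ≤ n → W ≤ K) ∧ W ≤ K * (rad (u * v) : ℝ) ^ M := by
  classical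
  obtain ⟨N, B, hB1, hN⟩ := pow_gap (S ∪ (α * β).primeFactors) (δ / 2) (by linarith)
  obtain ⟨C, hC1, hC⟩ := rid_pair S (ε := δ / 2) (by linarith)
  obtain ⟨K1, hK1⟩ : ∃ K1 : ℝ, K1 = 4 * (α * β) * C * (α : ℝ) ^ (1 + δ / 2) := ⟨_, rfl⟩
  have hαr : (1:ℝ) ≤ α := by exact_mod_cast hα
  have hβr : (1:ℝ) ≤ β := by exact_mod_cast hβ
  have hBr : (1:ℝ) ≤ B := by exact_mod_cast hB1
  have hαp : (0:ℝ) < (α : ℝ) ^ (1 + δ / 2) := Real.rpow_pos_of_pos (by linarith) _
  have hK10 : 0 < K1 := by rw [hK1]; positivity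
  obtain ⟨E, hE⟩ : ∃ E : ℕ, E = m * N := ⟨_, rfl⟩
  obtain ⟨M, hM⟩ : ∃ M : ℕ, 2 * (E : ℝ) / δ ≤ M := exists_nat_ge _
  obtain ⟨K, hK⟩ : ∃ K : ℝ, K = α * β + B + (4:ℝ) ^ (1 / δ) + K1 ^ (2 / δ) + 1 := ⟨_, rfl⟩
  have p1 : 0 < (4:ℝ) ^ (1 / δ) := Real.rpow_pos_of_pos (by norm_num) _
  have p2 : 0 < K1 ^ (2 / δ) := Real.rpow_pos_of_pos hK10 _
  have p3 : (1:ℝ) ≤ (α : ℝ) * β := by nlinarith
  have hK0 : 1 ≤ K := by rw [hK]; linarith
  refine ⟨K, M, N, hK0, ?_⟩
  intro u v hu hv hcop W huW hvW hor hclose n hn hexp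
  have hrad : (1:ℝ) ≤ (rad (u * v) : ℝ) := by exact_mod_cast rad_pos (u * v)
  have hradM : (1:ℝ) ≤ (rad (u * v) : ℝ) ^ M := one_le_pow₀ hrad
  have hur : (1:ℝ) ≤ u := by exact_mod_cast hu
  have hvr : (1:ℝ) ≤ v := by exact_mod_cast hv
  have hu0 : u ≠ 0 := by omega
  have hv0 : v ≠ 0 := by omega
  have small : ∀ k : ℝ, k ≤ K → W ≤ k → (N ≤ n → W ≤ K) ∧
      W ≤ K * (rad (u * v) : ℝ) ^ M := by
    intro k hk hWk
    have h1 : K ≤ K * (rad (u * v) : ℝ) ^ M := le_mul_of_one_le_right (by linarith) hradM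
    exact ⟨fun _ => by linarith, by linarith⟩
  have hW1 : 1 ≤ W := hur.trans huW
  have hW0 : 0 < W := by linarith
  by_cases heq : α * u = β * v
  · -- equality
    have h1 : u ∣ β := by
      have h2 : u ∣ β * v := ⟨α, by rw [← heq, mul_comm]⟩
      exact hcop.dvd_of_dvd_mul_right h2
    have h2 : v ∣ α := by
      have h3 : v ∣ α * u := ⟨β, by rw [heq, mul_comm]⟩
      exact hcop.symm.dvd_of_dvd_mul_right h3
    have h3 : (u:ℝ) ≤ β := by exact_mod_cast Nat.le_of_dvd (by omega) h1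
    have h4 : (v:ℝ) ≤ α := by exact_mod_cast Nat.le_of_dvd (by omega) h2
    apply small (α * β) (by rw [hK]; linarith)
    rcases hor with h | h
    · rw [← h]; nlinarith
    · rw [← h]; nlinarith
  by_cases hW4 : W ≤ (4:ℝ) ^ (1 / δ)
  · exact small _ (by rw [hK]; linarith) hW4
  rw [not_le] at hW4
  have hWd : 4 < W ^ δ := by
    have h1 := Real.rpow_lt_rpow p1.le hW4 hδ
    rwa [← Real.rpow_mul (by norm_num), one_div, inv_mul_cancel₀ hδ.ne', Real.rpow_one] at h1
  have hWd2 : W ^ δ = (W ^ (δ / 2)) ^ 2 := by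
    rw [← Real.rpow_natCast, ← Real.rpow_mul hW0.le]
    congr 1
    push_cast
    ring
  have hWh0 : 0 < W ^ (δ / 2) := Real.rpow_pos_of_pos hW0 _
  have hWh : 2 < W ^ (δ / 2) := by nlinarith
  have hsplit : W ^ (1 - δ) * W ^ δ = W := by
    rw [← Real.rpow_add hW0]
    simp
  have hWm0 : 0 < W ^ (1 - δ) := Real.rpow_pos_of_pos hW0 _
  have hhalf : 2 * W ^ (1 - δ) < W / 2 := by nlinarith
  have hd := abs_lt.1 (lt_of_le_of_lt hclose hhalf)
  have hαu1 : (u:ℝ) ≤ α * u := by nlinarith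
  have hβv1 : (v:ℝ) ≤ β * v := by nlinarith
  have hαu : W / 2 < (α:ℝ) * u := by
    rcases hor with h | h
    · linarith
    · linarith [hd.1]
  have hβv : W / 2 < (β:ℝ) * v := by
    rcases hor with h | h
    · linarith [hd.2]
    · linarith
  by_cases hnN : N ≤ n
  · -- large exponents
    obtain ⟨W', hW'⟩ : ∃ W' : ℝ, W' = max ((α:ℝ) * u) (β * v) := ⟨_, rfl⟩
    have h1 : (α:ℝ) * u ≤ W' := by rw [hW']; exact le_max_left _ _
    have h2 : (β:ℝ) * v ≤ W' := by rw [hW']; exact le_max_right _ _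
    have hWW' : W ≤ W' := by
      rcases hor with h | h
      · linarith
      · linarith
    have hcast1 : |(((α * u : ℕ) : ℤ) : ℝ)| = (α:ℝ) * u := by
      push_cast; exact abs_of_nonneg (by positivity)
    have hcast2 : |(((β * v : ℕ) : ℤ) : ℝ)| = (β:ℝ) * v := by
      push_cast; exact abs_of_nonneg (by positivity)
    have hfin := hN n hnN ((α * u : ℕ) : ℤ) ((β * v : ℕ) : ℤ)
      (by exact_mod_cast Nat.mul_ne_zero (by omega) hu0)
      (by exact_mod_cast Nat.mul_ne_zero (by omega) hv0) (by exact_mod_cast heq) (by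
        intro q hq hqS
        have : Fact q.Prime := ⟨hq⟩
        rw [Finset.mem_union, not_or] at hqS
        have hqα : ¬ q ∣ α * β := fun hc =>
          hqS.2 (Nat.mem_primeFactors.2 ⟨hq, hc, Nat.mul_ne_zero (by omega) (by omega)⟩)
        obtain ⟨k, -, hk⟩ := hexp q hq hqS.1
        have hα0 : (α : ℚ) ≠ 0 := by exact_mod_cast (by omega : α ≠ 0)
        have hβ0 : (β : ℚ) ≠ 0 := by exact_mod_cast (by omega : β ≠ 0)
        have huq : (u : ℚ) ≠ 0 := by exact_mod_cast hu0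
        have hvq : (v : ℚ) ≠ 0 := by exact_mod_cast hv0
        push_cast
        rw [padicValRat.div (mul_ne_zero hα0 huq) (mul_ne_zero hβ0 hvq), padicValRat.mul hα0 huq,
          padicValRat.mul hβ0 hvq]
        have v1 : padicValRat q (α : ℚ) = 0 := by
          rw [padicValRat.of_nat, padicValNat.eq_zero_of_not_dvd
            (fun h => hqα (h.mul_right _))]
          rfl
        have v2 : padicValRat q (β : ℚ) = 0 := by
          rw [padicValRat.of_nat, padicValNat.eq_zero_of_not_dvd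
            (fun h => hqα (h.mul_left _))]
          rfl
        rw [v1, v2, padicValRat.of_nat, padicValRat.of_nat, zero_add, zero_add]
        rw [Nat.factorization_mul hu0 hv0, Finsupp.add_apply, Nat.factorization_def _ hq,
          Nat.factorization_def _ hq] at hk
        by_cases hqu : q ∣ u
        · have h3 : ¬ q ∣ v := fun hc => by
            have := Nat.dvd_gcd hqu hc
            rw [hcop] at this
            exact hq.one_lt.ne' (Nat.dvd_one.1 this)
          have h4 : padicValNat q v = 0 := padicValNat.eq_zero_of_not_dvd h3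
          rw [h4, add_zero] at hk
          rw [h4, hk]
          exact ⟨k, by push_cast; ring⟩
        · have h4 : padicValNat q u = 0 := padicValNat.eq_zero_of_not_dvd hqu
          rw [h4, zero_add] at hk
          rw [h4, hk]
          exact ⟨-k, by push_cast; ring⟩) W' (by rw [hcast1]; exact h1) (by rw [hcast2]; exact h2)
      (by
        rw [hcast1, hcast2, hW']
        rcases le_total ((α:ℝ) * u) (β * v) with h | h
        · exact Or.inr (max_eq_right h).symm
        · exact Or.inl (max_eq_left h).symm) (by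
        have e1 : |(((α * u : ℕ) : ℤ) : ℝ) - (((β * v : ℕ) : ℤ) : ℝ)| =
            |(α : ℝ) * u - β * v| := by push_cast; rfl
        rw [e1]
        calc |(α : ℝ) * u - β * v| ≤ 2 * W ^ (1 - δ) := hclose
          _ ≤ W ^ (δ / 2) * W ^ (1 - δ) := by gcongr
          _ = W ^ (1 - δ / 2) := by rw [← Real.rpow_add hW0]; congr 1; ring
          _ ≤ W' ^ (1 - δ / 2) := Real.rpow_le_rpow hW0.le hWW' (by linarith))
    exact small B (by rw [hK]; linarith) (hWW'.trans hfin)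
  · -- small exponents
    rw [not_le] at hnN
    obtain ⟨D, hD⟩ : ∃ D : ℤ, D = (β:ℤ) * v - α * u := ⟨_, rfl⟩
    have hD0 : D ≠ 0 := by
      intro h
      apply heq
      have h1 : (α:ℤ) * u = β * v := by rw [hD] at h; linarith
      exact_mod_cast h1
    have hDr : |(D:ℝ)| = |(α : ℝ) * u - β * v| := by
      rw [hD, abs_sub_comm]
      push_cast
      rfl
    have hDlt : |D| < (α:ℤ) * u := by
      have h1 : |(D:ℝ)| < (α:ℝ) * u := by rw [hDr]; linarith
      exact_mod_cast h1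
    have hrid := hC α β u v hα hβ hu hv hcop D hD0 (by rw [hD]; ring) hDlt
    have huv0 : u * v ≠ 0 := Nat.mul_ne_zero hu0 hv0
    have hle := le_spart S huv0 E (by
      intro q hq hqS
      obtain ⟨k, hk, h1⟩ := hexp q hq hqS
      rw [h1, hE]
      exact Nat.mul_le_mul hk hnN.le)
    have hler : (u:ℝ) * v ≤ (spart S (u * v) : ℝ) * (rad (u * v) : ℝ) ^ E := by
      exact_mod_cast hle
    obtain ⟨R, hR⟩ : ∃ R : ℝ, R = (rad (u * v) : ℝ) := ⟨_, rfl⟩
    rw [← hR] at hler hrad hradM ⊢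
    have hRE : (1:ℝ) ≤ R ^ E := one_le_pow₀ hrad
    have hsp : (spart S (u * v) : ℝ) ≤ 2 * C * (α:ℝ) ^ (1 + δ / 2) * W ^ (2 - δ / 2) := by
      calc (spart S (u * v) : ℝ) ≤ C * |(D : ℝ)| * ((α : ℝ) * u) ^ (1 + δ / 2) := hrid
        _ ≤ C * (2 * W ^ (1 - δ)) * ((α : ℝ) * W) ^ (1 + δ / 2) := by
            have h1 : |(D:ℝ)| ≤ 2 * W ^ (1 - δ) := by rw [hDr]; exact hclose
            have h2 : ((α : ℝ) * u) ^ (1 + δ / 2) ≤ ((α : ℝ) * W) ^ (1 + δ / 2) :=
              Real.rpow_le_rpow (by positivity) (by gcongr) (by linarith)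
            gcongr
        _ = 2 * C * (α:ℝ) ^ (1 + δ / 2) * (W ^ (1 - δ) * W ^ (1 + δ / 2)) := by
            rw [Real.mul_rpow (by linarith) hW0.le]
            ring
        _ = 2 * C * (α:ℝ) ^ (1 + δ / 2) * W ^ (2 - δ / 2) := by
            rw [← Real.rpow_add hW0]
            congr 2
            ring
    have hprod : W ^ 2 / 2 ≤ (α * β) * ((u:ℝ) * v) := by
      have h1 : (α * β) * ((u:ℝ) * v) = (α * u) * (β * v) := by ring
      rw [h1]
      rcases hor with h | h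
      · have h2 : W ≤ (α:ℝ) * u := by linarith
        nlinarith
      · have h2 : W ≤ (β:ℝ) * v := by linarith
        nlinarith
    have hW2 : W ^ 2 = W ^ (2 - δ / 2) * W ^ (δ / 2) := by
      rw [← Real.rpow_add hW0, ← Real.rpow_natCast]
      congr 1
      push_cast
      ring
    have hWp0 : 0 < W ^ (2 - δ / 2) := Real.rpow_pos_of_pos hW0 _
    have hkey : W ^ (δ / 2) ≤ K1 * R ^ E := by
      have h1 : W ^ (2 - δ / 2) * W ^ (δ / 2) ≤ W ^ (2 - δ / 2) * (K1 * R ^ E) := by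
        rw [← hW2]
        have h2 : (α * β) * ((u:ℝ) * v) ≤ (α * β) *
            ((2 * C * (α:ℝ) ^ (1 + δ / 2) * W ^ (2 - δ / 2)) * R ^ E) := by
          refine mul_le_mul_of_nonneg_left (hler.trans ?_) (by positivity)
          exact mul_le_mul_of_nonneg_right hsp (by positivity)
        rw [hK1]
        nlinarith
      exact le_of_mul_le_mul_left h1 hWp0
    have hfin : W ≤ K1 ^ (2 / δ) * R ^ M := by
      calc W = (W ^ (δ / 2)) ^ (2 / δ) := by
            rw [← Real.rpow_mul hW0.le]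
            have : δ / 2 * (2 / δ) = 1 := by field_simp
            rw [this, Real.rpow_one]
        _ ≤ (K1 * R ^ E) ^ (2 / δ) := Real.rpow_le_rpow hWh0.le hkey (by positivity)
        _ = K1 ^ (2 / δ) * (R ^ E) ^ (2 / δ) := Real.mul_rpow hK10.le (by linarith)
        _ = K1 ^ (2 / δ) * R ^ (2 * (E:ℝ) / δ) := by
            rw [← Real.rpow_natCast R E, ← Real.rpow_mul (by linarith)]
            congr 2
            ring
        _ ≤ K1 ^ (2 / δ) * R ^ (M : ℝ) := by
            refine mul_le_mul_of_nonneg_left ?_ p2.le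
            exact Real.rpow_le_rpow_of_exponent_le hrad hM
        _ = K1 ^ (2 / δ) * R ^ M := by rw [Real.rpow_natCast]
    have hRM0 : 0 < R ^ M := by positivity
    have : K1 ^ (2 / δ) ≤ K := by rw [hK]; linarith
    exact ⟨fun h => absurd h (by omega), by nlinarith⟩

end Pool.Agent.U964.ML
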