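import Mathlib
import Pool.Agent.W180.RR.Plc

set_option autoImplicit false

/-!
Ridout's theorem for fractions `m / D` near a number `ξ`, rational or not, whose numerator and denominator
are divisible by large numbers composed of given primes (after `Pool.Agent.U9.RI.Rid`).
-/

namespace Pool.Agent.U964.ML.Rdt

open Finset NumberField IsDedekindDomain
open Pool.Agent.W180.RR Pool.Agent.W180.OP Pool.Agent.W180.TP

lemma prod_nat (S : Finset ℕ) (hS : ∀ ℓ ∈ S, ℓ.Prime) (n : ℕ) (hn : n ≠ 0)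
    (hnS : n.primeFactors ⊆ S) : (n : ℝ) * ∏ ℓ ∈ S, (padicNorm ℓ (n : ℚ) : ℝ) = 1 := by
  have h2 : ∀ ℓ ∈ S, (padicNorm ℓ (n : ℚ) : ℝ) = ((ℓ : ℝ) ^ n.factorization ℓ)⁻¹ := by
    intro ℓ hℓ
    have hp := hS ℓ hℓ
    have : Fact ℓ.Prime := ⟨hp⟩
    rw [padicNorm.eq_zpow_of_nonzero (by exact_mod_cast hn), padicValRat.of_nat,
      Nat.factorization_def n hp, Rat.cast_zpow, Rat.cast_natCast, zpow_neg, zpow_natCast]
  rw [Finset.prod_congr rfl h2, Finset.prod_inv_distrib]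
  have h3 : ∏ ℓ ∈ S, (ℓ : ℝ) ^ n.factorization ℓ = n := by
    have h4 : ∏ ℓ ∈ S, ℓ ^ n.factorization ℓ = n := by
      have h5 := Nat.prod_factorization_pow_eq_self hn
      rw [Finsupp.prod_of_support_subset (s := S) _ (by rwa [Nat.support_factorization]) _
        (fun i _ => pow_zero i)] at h5
      exact h5
    calc ∏ ℓ ∈ S, (ℓ : ℝ) ^ n.factorization ℓ = ((∏ ℓ ∈ S, ℓ ^ n.factorization ℓ : ℕ) : ℝ) := by
          push_cast; rfl
      _ = n := by rw [h4]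
  rw [h3]
  exact mul_inv_cancel₀ (by exact_mod_cast hn)

/-- the product formula for an integer composed of the primes in `S` -/
lemma prod_int (S : Finset ℕ) (hS : ∀ ℓ ∈ S, ℓ.Prime) (n : ℤ) (hn : n ≠ 0)
    (hnS : n.natAbs.primeFactors ⊆ S) : |(n : ℝ)| * ∏ ℓ ∈ S, (padicNorm ℓ (n : ℚ) : ℝ) = 1 := by
  have h1 := prod_nat S hS n.natAbs (Int.natAbs_ne_zero.2 hn) hnS
  have h2 : ((n.natAbs : ℕ) : ℝ) = |(n : ℝ)| := by
    rw [Nat.cast_natAbs]; push_cast; rfl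
  rw [h2] at h1
  rw [← h1]
  congr 1
  refine Finset.prod_congr rfl fun ℓ _ => ?_
  rcases Int.natAbs_eq n with h | h
  · have h3 : (n : ℚ) = ((n.natAbs : ℕ) : ℚ) := by
      have := congrArg (fun z : ℤ => (z : ℚ)) h
      simpa only [Int.cast_natCast] using this
    rw [h3]
  · have h3 : (n : ℚ) = -((n.natAbs : ℕ) : ℚ) := by
      have := congrArg (fun z : ℤ => (z : ℚ)) h
      simpa only [Int.cast_neg, Int.cast_natCast] using this
    rw [h3, padicNorm.neg]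

/-- **Ridout's theorem** for numerators and denominators composed of the primes in `S`. -/
theorem ridout_div (S : Finset ℕ) (hS : ∀ ℓ ∈ S, ℓ.Prime) (ξ : ℝ) (halg : IsAlgebraic ℚ ξ)
    (hξ1 : 1 - ξ ≠ 0) (η : ℝ) (hη : 0 < η) :
    ∃ κ : ℝ, 0 < κ ∧ ∀ D m d e : ℤ, D ≠ 0 → m ≠ 0 → d ∣ D → e ∣ m → d.natAbs.primeFactors ⊆ S →
      e.natAbs.primeFactors ⊆ S → (D : ℝ) * ξ - m ≠ 0 →
      κ * (|(d : ℝ)| * |(e : ℝ)|) ≤
        (|(D : ℝ)| + |(m : ℝ)|) ^ (1 + η) * |(D : ℝ) * ξ - m| := by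
  classical
  -- the field
  let K := IntermediateField.adjoin ℚ {ξ}
  have hfin : FiniteDimensional ℚ K := IntermediateField.adjoin.finiteDimensional halg.isIntegral
  have hNF : NumberField K := ⟨⟩
  let ξK : K := IntermediateField.AdjoinSimple.gen ℚ ξ
  have hξK : (algebraMap K ℝ) ξK = ξ := IntermediateField.AdjoinSimple.algebraMap_gen ℚ ξ
  -- the places
  have hv : ∀ i : S, ∃ v : HeightOneSpectrum (𝓞 K), fv v (i.1 : K) < 1 := fun i =>
    exists_v i.1 (hS i.1 i.2)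
  choose v hv using hv
  have hk : ∀ i : S, ∃ κ : ℝ, 0 < κ ∧ ∀ n : ℤ,
      fv (v i) (n : K) ^ κ = (padicNorm i.1 (n : ℚ) : ℝ) := fun i =>
    exists_kappa (v i) i.1 (hS i.1 i.2) (hv i)
  choose κ hκ hκ2 using hk
  let fs : S → AbsoluteValue K ℝ := fun i => powAV (fv (v i)) (fv_na (v i)) (κ i) (hκ i)
  have hfs : ∀ (i : S) (n : ℤ), fs i (n : K) = (padicNorm i.1 (n : ℚ) : ℝ) := fun i n => hκ2 i n
  let f0 : AbsoluteValue K ℝ := (AbsoluteValue.abs : AbsoluteValue ℝ ℝ).comp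
    (algebraMap K ℝ).injective
  have hf0 : ∀ x : K, f0 x = |algebraMap K ℝ x| := fun x => rfl
  have hf0i : ∀ n : ℤ, f0 (n : K) = |(n : ℝ)| := by
    intro n; rw [hf0, map_intCast]
  -- the integral multiple of the inverse of `1 - ξ`
  obtain ⟨k, hk0, hkint⟩ : ∃ k : ℤ, k ≠ 0 ∧ IsIntegral ℤ ((k : ℝ) * (1 - ξ)⁻¹) := by
    have hal : IsAlgebraic ℚ (1 - ξ) := isAlgebraic_one.sub halg
    have hz : IsAlgebraic ℤ (1 - ξ)⁻¹ := (IsFractionRing.isAlgebraic_iff ℤ ℚ ℝ).mpr hal.inv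
    obtain ⟨k, hk0, hk⟩ := hz.exists_integral_multiple
    refine ⟨k, hk0, ?_⟩
    have : (k : ℝ) * (1 - ξ)⁻¹ = k • (1 - ξ)⁻¹ := by simp
    rw [this]; exact hk
  let θ : K := (k : K) * (1 - ξK)⁻¹
  have hθ : algebraMap K ℝ θ = (k : ℝ) * (1 - ξ)⁻¹ := by
    simp only [θ, map_mul, map_intCast, map_inv₀, map_sub, map_one, hξK]
  have hθint : IsIntegral ℤ θ := by
    rw [← hθ] at hkint
    exact (isIntegral_algebraMap_iff (algebraMap K ℝ).injective).1 hkint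
  obtain ⟨h, hmon, heval⟩ := hθint
  have heval' : Polynomial.aeval θ h = 0 := by rw [Polynomial.aeval_def]; exact heval
  have hmap : ∀ i n, fs i ((n : ℤ) : K) ≤ 1 := by
    intro i n
    rw [hfs]
    have : Fact (i.1).Prime := ⟨hS i.1 i.2⟩
    exact_mod_cast padicNorm.of_int n
  set G : Polynomial ℤ := Polynomial.X * ((Polynomial.X - Polynomial.C k) * h) with hG
  have hGmon : G.Monic :=
    Polynomial.monic_X.mul ((Polynomial.monic_X_sub_C k).mul hmon)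
  have hGdeg : 0 < G.natDegree := by
    rw [hG, Polynomial.monic_X.natDegree_mul ((Polynomial.monic_X_sub_C k).mul hmon),
      Polynomial.natDegree_X]
    omega
  have hR := fun T : Finset ℕ => ridout f0 fs (fun i => powAV_na _ _ _ _) hmap
    (fun n hn => by
      rw [hf0i]
      simp_rw [hfs]
      rw [Finset.prod_coe_sort S (fun ℓ => (padicNorm ℓ (n : ℚ) : ℝ))]
      exact prod_ge S hS n hn)
    G hGmon hGdeg θ (fun i => if i.1 ∈ T then (k : K) else 0)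
    (by rw [hG, map_mul, map_mul, heval', mul_zero, mul_zero])
    (by
      intro i
      rw [hG]
      split_ifs
      · simp
      · simp) η hη
  choose C hC0 hC using hR
  set Ct : ℝ := ∑ T ∈ S.powerset, C T with hCt
  have hCle : ∀ T ∈ S.powerset, C T ≤ Ct := fun T hT =>
    Finset.single_le_sum (f := C) (fun T _ => hC0 T) hT
  have hkR : (k : ℝ) ≠ 0 := by exact_mod_cast hk0
  have hkθ : 0 < |(k : ℝ)| / |1 - ξ| := div_pos (abs_pos.2 hkR) (abs_pos.2 hξ1)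
  have hk1 : 0 < |(k : ℝ)| + 1 := by positivity
  set C1 : ℝ := (1 + η) * Real.log (|(k : ℝ)| + 1) + Real.log (|(k : ℝ)| / |1 - ξ|) + Ct with hC1
  refine ⟨Real.exp (-C1), Real.exp_pos _, fun D m d e hD0 hm0 hdD hem hDS hmS hne' => ?_⟩
  have hd0 : d ≠ 0 := by
    rintro rfl
    exact hD0 (zero_dvd_iff.1 hdD)
  have he0 : e ≠ 0 := by
    rintro rfl
    exact hm0 (zero_dvd_iff.1 hem)
  have hDR : (D : ℝ) ≠ 0 := by exact_mod_cast hD0
  have hmR0 : (m : ℝ) ≠ 0 := by exact_mod_cast hm0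
  have hDa : 0 < |(D : ℝ)| := abs_pos.2 hDR
  have hma : 0 < |(m : ℝ)| := abs_pos.2 hmR0
  set H : ℝ := |(D : ℝ)| + |(m : ℝ)| with hH
  have hH0 : 0 < H := by positivity
  have hdist : 0 < |(D : ℝ) * ξ - m| := abs_pos.2 hne'
  -- coprime
  set P : ℤ := k * D with hP
  set Q : ℤ := D - m with hQ
  have hP0 : P ≠ 0 := mul_ne_zero hk0 hD0
  set g0 : ℤ := (Int.gcd P Q : ℤ) with hg0
  have hg0n : Int.gcd P Q ≠ 0 := by
    rw [Ne, Int.gcd_eq_zero_iff]; exact fun h => hP0 h.1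
  have hg0p : 0 < g0 := by rw [hg0]; exact_mod_cast Nat.pos_of_ne_zero hg0n
  obtain ⟨p, hp⟩ : g0 ∣ P := Int.gcd_dvd_left _ _
  obtain ⟨q, hq⟩ : g0 ∣ Q := Int.gcd_dvd_right _ _
  have hcop : IsCoprime p q := by
    rw [Int.isCoprime_iff_gcd_eq_one]
    have h1 : Int.gcd P Q = Int.gcd (g0 * p) (g0 * q) := by rw [← hp, ← hq]
    rw [Int.gcd_mul_left] at h1
    have h2 : g0.natAbs = Int.gcd P Q := by rw [hg0]; simp
    rw [h2] at h1
    exact (Nat.eq_of_mul_eq_mul_left (Nat.pos_of_ne_zero hg0n) (by rw [← h1, mul_one])).symm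
  have hp0 : p ≠ 0 := by
    rintro rfl
    rw [mul_zero] at hp
    exact hP0 hp
  have hgR : (0 : ℝ) < g0 := by exact_mod_cast hg0p
  have hg1 : (1 : ℝ) ≤ g0 := by exact_mod_cast hg0p
  have hPR : (g0 : ℝ) * p = k * D := by
    have : ((g0 * p : ℤ) : ℝ) = ((k * D : ℤ) : ℝ) := by rw [← hp, hP]
    push_cast at this
    exact this
  have hQR : (g0 : ℝ) * q = D - m := by
    have : ((g0 * q : ℤ) : ℝ) = ((D - m : ℤ) : ℝ) := by rw [← hq, hQ]
    push_cast at this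
    exact this
  have hkm : g0 * (p - k * q) = k * m := by
    calc g0 * (p - k * q) = g0 * p - k * (g0 * q) := by ring
      _ = k * D - k * (D - m) := by rw [← hp, ← hq, hP, hQ]
      _ = k * m := by ring
  have hpk : p - k * q ≠ 0 := by
    intro h0
    rw [h0, mul_zero] at hkm
    exact mul_ne_zero hk0 hm0 hkm.symm
  have hval : algebraMap K ℝ ((p : K) - θ * q) = (p : ℝ) - (k : ℝ) * (1 - ξ)⁻¹ * q := by
    rw [map_sub, map_mul, hθ, map_intCast, map_intCast]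
  have hval2 : (g0 : ℝ) * ((p : ℝ) - (k : ℝ) * (1 - ξ)⁻¹ * q) =
      -((k : ℝ) / (1 - ξ) * ((D : ℝ) * ξ - m)) := by
    have e1 : (g0 : ℝ) * ((p : ℝ) - (k : ℝ) * (1 - ξ)⁻¹ * q) =
        g0 * p - k * (1 - ξ)⁻¹ * (g0 * q) := by ring
    rw [e1, hPR, hQR]
    field_simp
    ring
  have hne0 : (k : ℝ) / (1 - ξ) * ((D : ℝ) * ξ - m) ≠ 0 :=
    mul_ne_zero (div_ne_zero hkR hξ1) hne'
  have hne : (p : K) - θ * q ≠ 0 := by
    intro h0
    rw [h0, map_zero] at hval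
    rw [← hval, mul_zero] at hval2
    exact hne0 (by linarith)
  -- the forms
  set T : Finset ℕ := S.filter fun ℓ => padicNorm ℓ (m : ℚ) < padicNorm ℓ (D : ℚ) with hT
  have hTS : T ∈ S.powerset := Finset.mem_powerset.2 (Finset.filter_subset _ _)
  set Fm : ℕ → ℤ := fun ℓ => if ℓ ∈ T then p - k * q else p with hFm
  have hFm0 : ∀ ℓ, Fm ℓ ≠ 0 := by
    intro ℓ
    simp only [hFm]
    split_ifs
    · exact hpk
    · exact hp0
  have hform : ∀ i : S, (p : K) - (if i.1 ∈ T then (k : K) else 0) * q = ((Fm i.1 : ℤ) : K) := by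
    intro i
    simp only [hFm]
    split_ifs
    · push_cast; ring
    · rw [zero_mul, sub_zero]
  have hR1 := hC T p q hcop hne (fun i => by
    rw [hform i]
    exact_mod_cast hFm0 i.1)
  -- the archimedean part
  have hf0v : f0 ((p : K) - θ * q) = |(k : ℝ)| / |1 - ξ| * |(D : ℝ) * ξ - m| / g0 := by
    rw [hf0, hval]
    have : (p : ℝ) - (k : ℝ) * (1 - ξ)⁻¹ * q = -((k : ℝ) / (1 - ξ) * ((D : ℝ) * ξ - m)) / g0 := by
      rw [← hval2]; field_simp
    rw [this, abs_div, abs_neg, abs_mul, abs_div, abs_of_pos hgR]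
  have hHH1 : 1 ≤ HH p q := HH_ge_one (Or.inl hp0)
  have hHH0 : 0 < HH p q := by linarith
  have hHH : HH p q ≤ (|(k : ℝ)| + 1) * H / g0 := by
    unfold HH
    rw [le_div_iff₀ hgR]
    have e1 : |(p : ℝ)| * g0 = |(k : ℝ)| * |(D : ℝ)| := by
      rw [← abs_of_pos hgR, ← abs_mul, mul_comm (p : ℝ), hPR, abs_mul]
    have e2 : |(q : ℝ)| * g0 = |(D : ℝ) - m| := by
      rw [← abs_of_pos hgR, ← abs_mul, mul_comm (q : ℝ), hQR]
    have e3 : |(D : ℝ) - m| ≤ H := abs_sub _ _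
    have e4 : |(D : ℝ)| ≤ H := by rw [hH]; linarith
    rw [max_mul_of_nonneg _ _ hgR.le, e1, e2]
    have e5 := abs_nonneg (k : ℝ)
    refine max_le ?_ ?_
    · nlinarith
    · nlinarith
  have hlogHH : Real.log (HH p q) ≤ Real.log (|(k : ℝ)| + 1) + Real.log H - Real.log g0 := by
    have h1 := Real.log_le_log hHH0 hHH
    rwa [Real.log_div (by positivity) hgR.ne', Real.log_mul hk1.ne' hH0.ne'] at h1
  -- the finite part
  have hloc : ∀ ℓ ∈ S, - Real.log (padicNorm ℓ (D : ℚ) : ℝ) - Real.log (padicNorm ℓ (m : ℚ) : ℝ) +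
      2 * Real.log (padicNorm ℓ (g0 : ℚ) : ℝ) ≤ - Real.log (padicNorm ℓ (Fm ℓ : ℚ) : ℝ) := by
    intro ℓ hℓ
    have hF : Fact ℓ.Prime := ⟨hS ℓ hℓ⟩
    have hpos : ∀ n : ℤ, n ≠ 0 → 0 < padicNorm ℓ (n : ℚ) := fun n hn =>
      lt_of_le_of_ne (padicNorm.nonneg _) (padicNorm.nonzero (by exact_mod_cast hn)).symm
    have ha := hpos D hD0
    have hb := hpos m hm0
    have hg := hpos g0 hg0p.ne'
    have hF0 := hpos (Fm ℓ) (hFm0 ℓ)
    have hkle : padicNorm ℓ (k : ℚ) ≤ 1 := padicNorm.of_int k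
    -- the norm of the greatest common divisor
    have hgle : padicNorm ℓ (g0 : ℚ) ≤ max (padicNorm ℓ (D : ℚ)) (padicNorm ℓ (m : ℚ)) := by
      have e1 : (g0 : ℚ) = (P : ℚ) * (Int.gcdA P Q : ℤ) + (Q : ℚ) * (Int.gcdB P Q : ℤ) := by
        have := Int.gcd_eq_gcd_ab P Q
        rw [hg0, this]
        push_cast
        ring
      rw [e1]
      refine padicNorm.nonarchimedean.trans (max_le ?_ ?_)
      · rw [padicNorm.mul, hP]
        push_cast
        rw [padicNorm.mul]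
        have h3 : padicNorm ℓ ((Int.gcdA P Q : ℤ) : ℚ) ≤ 1 := padicNorm.of_int _
        have h4 : padicNorm ℓ (k : ℚ) * padicNorm ℓ (D : ℚ) ≤ 1 * padicNorm ℓ (D : ℚ) :=
          mul_le_mul_of_nonneg_right hkle ha.le
        calc padicNorm ℓ (k : ℚ) * padicNorm ℓ (D : ℚ) * padicNorm ℓ ((Int.gcdA P Q : ℤ) : ℚ)
            ≤ (1 * padicNorm ℓ (D : ℚ)) * 1 :=
              mul_le_mul h4 h3 (padicNorm.nonneg _) (by positivity)
          _ = padicNorm ℓ (D : ℚ) := by ring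
          _ ≤ _ := le_max_left _ _
      · rw [padicNorm.mul]
        have h3 : padicNorm ℓ ((Int.gcdB P Q : ℤ) : ℚ) ≤ 1 := padicNorm.of_int _
        have h4 : padicNorm ℓ (Q : ℚ) ≤ max (padicNorm ℓ (D : ℚ)) (padicNorm ℓ (m : ℚ)) := by
          rw [hQ]
          push_cast
          exact padicNorm.sub
        calc padicNorm ℓ (Q : ℚ) * padicNorm ℓ ((Int.gcdB P Q : ℤ) : ℚ)
            ≤ max (padicNorm ℓ (D : ℚ)) (padicNorm ℓ (m : ℚ)) * 1 :=
              mul_le_mul h4 h3 (padicNorm.nonneg _) (le_trans ha.le (le_max_left _ _))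
          _ = _ := mul_one _
    have hmain : padicNorm ℓ (Fm ℓ : ℚ) * padicNorm ℓ (g0 : ℚ) ^ 2 ≤
        padicNorm ℓ (D : ℚ) * padicNorm ℓ (m : ℚ) := by
      by_cases hℓT : ℓ ∈ T
      · have hlt : padicNorm ℓ (m : ℚ) < padicNorm ℓ (D : ℚ) := (Finset.mem_filter.1 hℓT).2
        rw [max_eq_left hlt.le] at hgle
        have e1 : padicNorm ℓ (Fm ℓ : ℚ) * padicNorm ℓ (g0 : ℚ) =
            padicNorm ℓ (k : ℚ) * padicNorm ℓ (m : ℚ) := by
          simp only [hFm]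
          rw [if_pos hℓT, ← padicNorm.mul, ← padicNorm.mul]
          congr 1
          have : ((g0 * (p - k * q) : ℤ) : ℚ) = ((k * m : ℤ) : ℚ) := by rw [hkm]
          push_cast at this ⊢
          linarith
        calc padicNorm ℓ (Fm ℓ : ℚ) * padicNorm ℓ (g0 : ℚ) ^ 2 =
            (padicNorm ℓ (Fm ℓ : ℚ) * padicNorm ℓ (g0 : ℚ)) * padicNorm ℓ (g0 : ℚ) := by ring
          _ = (padicNorm ℓ (k : ℚ) * padicNorm ℓ (m : ℚ)) * padicNorm ℓ (g0 : ℚ) := by rw [e1]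
          _ ≤ (1 * padicNorm ℓ (m : ℚ)) * padicNorm ℓ (D : ℚ) :=
              mul_le_mul (mul_le_mul_of_nonneg_right hkle hb.le) hgle hg.le (by positivity)
          _ = _ := by ring
      · have hle : padicNorm ℓ (D : ℚ) ≤ padicNorm ℓ (m : ℚ) := by
          by_contra hcon
          exact hℓT (Finset.mem_filter.2 ⟨hℓ, not_le.1 hcon⟩)
        rw [max_eq_right hle] at hgle
        have e1 : padicNorm ℓ (Fm ℓ : ℚ) * padicNorm ℓ (g0 : ℚ) =
            padicNorm ℓ (k : ℚ) * padicNorm ℓ (D : ℚ) := by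
          simp only [hFm]
          rw [if_neg hℓT, ← padicNorm.mul, ← padicNorm.mul]
          congr 1
          have : ((g0 * p : ℤ) : ℚ) = ((k * D : ℤ) : ℚ) := by rw [← hp, hP]
          push_cast at this ⊢
          linarith
        calc padicNorm ℓ (Fm ℓ : ℚ) * padicNorm ℓ (g0 : ℚ) ^ 2 =
            (padicNorm ℓ (Fm ℓ : ℚ) * padicNorm ℓ (g0 : ℚ)) * padicNorm ℓ (g0 : ℚ) := by ring
          _ = (padicNorm ℓ (k : ℚ) * padicNorm ℓ (D : ℚ)) * padicNorm ℓ (g0 : ℚ) := by rw [e1]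
          _ ≤ (1 * padicNorm ℓ (D : ℚ)) * padicNorm ℓ (m : ℚ) :=
              mul_le_mul (mul_le_mul_of_nonneg_right hkle ha.le) hgle hg.le (by positivity)
          _ = _ := by ring
    have haR : (0 : ℝ) < (padicNorm ℓ (D : ℚ) : ℝ) := by exact_mod_cast ha
    have hbR : (0 : ℝ) < (padicNorm ℓ (m : ℚ) : ℝ) := by exact_mod_cast hb
    have hgR' : (0 : ℝ) < (padicNorm ℓ (g0 : ℚ) : ℝ) := by exact_mod_cast hg
    have hFR : (0 : ℝ) < (padicNorm ℓ (Fm ℓ : ℚ) : ℝ) := by exact_mod_cast hF0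
    have hmainR : (padicNorm ℓ (Fm ℓ : ℚ) : ℝ) * (padicNorm ℓ (g0 : ℚ) : ℝ) ^ 2 ≤
        (padicNorm ℓ (D : ℚ) : ℝ) * (padicNorm ℓ (m : ℚ) : ℝ) := by exact_mod_cast hmain
    have h5 := Real.log_le_log (by positivity) hmainR
    rw [Real.log_mul hFR.ne' (by positivity), Real.log_mul haR.ne' hbR.ne', Real.log_pow] at h5
    push_cast at h5
    linarith
  have hlogprod : ∀ n : ℤ, n ≠ 0 → ∑ ℓ ∈ S, Real.log (padicNorm ℓ (n : ℚ) : ℝ) =
      Real.log (∏ ℓ ∈ S, (padicNorm ℓ (n : ℚ) : ℝ)) := by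
    intro n hn
    rw [Real.log_prod]
    intro ℓ hℓ
    have : Fact ℓ.Prime := ⟨hS ℓ hℓ⟩
    have h2 : padicNorm ℓ (n : ℚ) ≠ 0 := padicNorm.nonzero (by exact_mod_cast hn)
    exact_mod_cast h2
  have hprodpos : ∀ n : ℤ, n ≠ 0 → 0 < ∏ ℓ ∈ S, (padicNorm ℓ (n : ℚ) : ℝ) := by
    intro n hn
    refine Finset.prod_pos fun ℓ hℓ => ?_
    have : Fact ℓ.Prime := ⟨hS ℓ hℓ⟩
    have h1 : 0 ≤ padicNorm ℓ (n : ℚ) := padicNorm.nonneg _
    have h2 : padicNorm ℓ (n : ℚ) ≠ 0 := padicNorm.nonzero (by exact_mod_cast hn)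
    exact_mod_cast lt_of_le_of_ne h1 h2.symm
  have hlogunit : ∀ n : ℤ, n ≠ 0 → n.natAbs.primeFactors ⊆ S →
      ∑ ℓ ∈ S, Real.log (padicNorm ℓ (n : ℚ) : ℝ) = - Real.log |(n : ℝ)| := by
    intro n hn hnS
    have h1 := prod_int S hS n hn hnS
    have h2 := congrArg Real.log h1
    have hn' : |(n : ℝ)| ≠ 0 := abs_ne_zero.2 (by exact_mod_cast hn)
    rw [Real.log_mul hn' (hprodpos n hn).ne', Real.log_one] at h2
    rw [hlogprod n hn]
    linarith
  have hlogg : - Real.log (g0 : ℝ) ≤ ∑ ℓ ∈ S, Real.log (padicNorm ℓ (g0 : ℚ) : ℝ) := by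
    have h1 := prod_ge S hS g0 hg0p.ne'
    rw [abs_of_pos hgR] at h1
    have h2 := Real.log_le_log one_pos h1
    rw [Real.log_one, Real.log_mul hgR.ne' (hprodpos g0 hg0p.ne').ne'] at h2
    rw [hlogprod g0 hg0p.ne']
    linarith
  have hmono : ∀ n t : ℤ, n ≠ 0 → t ∣ n → ∑ ℓ ∈ S, Real.log (padicNorm ℓ (n : ℚ) : ℝ) ≤
      ∑ ℓ ∈ S, Real.log (padicNorm ℓ (t : ℚ) : ℝ) := by
    intro n t hn htn
    refine Finset.sum_le_sum fun ℓ hℓ => ?_
    have : Fact ℓ.Prime := ⟨hS ℓ hℓ⟩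
    have h1 : 0 ≤ padicNorm ℓ (n : ℚ) := padicNorm.nonneg _
    have h2 : padicNorm ℓ (n : ℚ) ≠ 0 := padicNorm.nonzero (by exact_mod_cast hn)
    have h3 : (0 : ℝ) < (padicNorm ℓ (n : ℚ) : ℝ) := by exact_mod_cast lt_of_le_of_ne h1 h2.symm
    refine Real.log_le_log h3 ?_
    obtain ⟨r, hr⟩ := htn
    have h4 : padicNorm ℓ (n : ℚ) ≤ padicNorm ℓ (t : ℚ) := by
      rw [hr]
      push_cast
      rw [padicNorm.mul]
      exact mul_le_of_le_one_right (padicNorm.nonneg _) (padicNorm.of_int r)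
    exact_mod_cast h4
  have hprodS : Real.log |(d : ℝ)| + Real.log |(e : ℝ)| - 2 * Real.log g0 ≤
      ∑ i : S, -Real.log (fs i ((p : K) - (if i.1 ∈ T then (k : K) else 0) * q)) := by
    have e1 : ∀ i : S, fs i ((p : K) - (if i.1 ∈ T then (k : K) else 0) * q) =
        (padicNorm i.1 (Fm i.1 : ℚ) : ℝ) := by
      intro i; rw [hform i, hfs]
    simp_rw [e1]
    rw [Finset.sum_coe_sort S (fun ℓ => -Real.log (padicNorm ℓ (Fm ℓ : ℚ) : ℝ))]
    refine le_trans ?_ (Finset.sum_le_sum hloc)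
    rw [Finset.sum_add_distrib, Finset.sum_sub_distrib, Finset.sum_neg_distrib,
      ← Finset.mul_sum]
    have m1 := hmono D d hD0 hdD
    have m2 := hmono m e hm0 hem
    rw [hlogunit d hd0 hDS] at m1
    rw [hlogunit e he0 hmS] at m2
    linarith
  -- conclusion
  have hlogf : Real.log (f0 ((p : K) - θ * q) / HH p q) =
      Real.log (|(k : ℝ)| / |1 - ξ|) + Real.log |(D : ℝ) * ξ - m| - Real.log g0 -
        Real.log (HH p q) := by
    rw [hf0v, Real.log_div (by positivity) hHH0.ne', Real.log_div (by positivity) hgR.ne',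
      Real.log_mul hkθ.ne' hdist.ne']
  rw [hlogf] at hR1
  have hg0log : 0 ≤ Real.log (g0 : ℝ) := Real.log_nonneg hg1
  have hCT := hCle T hTS
  have hfinal : Real.log |(d : ℝ)| + Real.log |(e : ℝ)| - C1 ≤
      (1 + η) * Real.log H + Real.log |(D : ℝ) * ξ - m| := by
    have h2 : (1 + η) * Real.log (HH p q) ≤
        (1 + η) * (Real.log (|(k : ℝ)| + 1) + Real.log H - Real.log g0) :=
      mul_le_mul_of_nonneg_left hlogHH (by linarith)
    have h3 : (1 + η) * (Real.log (|(k : ℝ)| + 1) + Real.log H - Real.log g0) =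
        (1 + η) * Real.log (|(k : ℝ)| + 1) + (1 + η) * Real.log H -
          Real.log g0 - η * Real.log g0 := by ring
    have h4 : 0 ≤ η * Real.log g0 := mul_nonneg hη.le hg0log
    have h5 : (2 + η) * Real.log (HH p q) = (1 + η) * Real.log (HH p q) + Real.log (HH p q) := by
      ring
    rw [hC1]
    linarith
  have hrhs : (1 + η) * Real.log H + Real.log |(D : ℝ) * ξ - m| =
      Real.log (H ^ (1 + η) * |(D : ℝ) * ξ - m|) := by
    rw [Real.log_mul (Real.rpow_pos_of_pos hH0 _).ne' hdist.ne', Real.log_rpow hH0]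
  have hda : 0 < |(d : ℝ)| := abs_pos.2 (by exact_mod_cast hd0)
  have hea : 0 < |(e : ℝ)| := abs_pos.2 (by exact_mod_cast he0)
  have hlhs : Real.log |(d : ℝ)| + Real.log |(e : ℝ)| - C1 =
      Real.log (Real.exp (-C1) * (|(d : ℝ)| * |(e : ℝ)|)) := by
    rw [Real.log_mul (Real.exp_pos _).ne' (by positivity), Real.log_exp,
      Real.log_mul hda.ne' hea.ne']
    ring
  rw [hrhs, hlhs] at hfinal
  exact (Real.log_le_log_iff (by positivity)
    (mul_pos (Real.rpow_pos_of_pos hH0 _) hdist)).1 hfinal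

/-- the same with natural numbers and a positive number `ξ` -/
theorem ridout_pos (S : Finset ℕ) (hS : ∀ ℓ ∈ S, ℓ.Prime) (ξ : ℝ) (halg : IsAlgebraic ℚ ξ)
    (hξ : 0 < ξ) (η : ℝ) (hη : 0 < η) :
    ∃ κ : ℝ, 0 < κ ∧ ∀ D m d e : ℕ, 1 ≤ D → 1 ≤ m → d ∣ D → e ∣ m → d.primeFactors ⊆ S →
      e.primeFactors ⊆ S → (D : ℝ) * ξ ≠ m →
      κ * ((d : ℝ) * (e : ℝ)) ≤ ((D : ℝ) + (m : ℝ)) ^ (1 + η) * |(D : ℝ) * ξ - m| := by
  obtain ⟨κ, hκ, h⟩ := ridout_div S hS (-ξ) halg.neg (by linarith) η hη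
  refine ⟨κ, hκ, fun D m d e hD hm hdD hem hdS heS hne => ?_⟩
  have h1 := h D (-m) d e (by omega) (by omega) (by exact_mod_cast hdD)
    ((Int.natCast_dvd_natCast.2 hem).trans (dvd_neg.2 dvd_rfl)) (by simpa using hdS)
    (by simpa using heS)
    (by
      push_cast
      intro h0
      apply hne
      linarith)
  push_cast at h1
  rw [abs_neg] at h1
  simp only [Nat.abs_cast] at h1
  refine h1.trans (le_of_eq ?_)
  congr 1
  rw [← abs_neg]
  congr 1
  ring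

end Pool.Agent.U964.ML.Rdt
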