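import Mathlib
import Pool.Agent.U964.ML.Oes
import Pool.Agent.U964.ML.Rdt

/-!
# A lower bound for `|α x - β y|`, uniform in `n`, for numbers `x`, `y` which are `n`-th powers up to `S`

For natural numbers `x`, `y` all exponents of which outside the finite set `S` of primes are divisible by
`n`, let `u`, `v` be the roots of order `n` of their parts prime to `S`. Then
`|α x - β y| u v ≥ κ max (x, y) ^ (1 - η)` with `κ` depending on `S`, `α`, `β`, `η` only, not on `n`.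
-/

set_option autoImplicit false

namespace Pool.Agent.U964.ML

open Finset

/-- the root of order `n` of the part of `w` prime to `S` -/
def root (S : Finset ℕ) (n w : ℕ) : ℕ :=
  ∏ q ∈ w.primeFactors with q ∉ S, q ^ (w.factorization q / n)

theorem root_pos (S : Finset ℕ) (n w : ℕ) : 0 < root S n w :=
  Finset.prod_pos fun _ hq => pow_pos (Nat.prime_of_mem_primeFactors (Finset.mem_filter.1 hq).1).pos _

/-- `w` is a bounded number composed of the primes of `S` times the `n`-th power of a multiple of its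
root -/
theorem root_dec (S : Finset ℕ) (n w : ℕ) (hn : 1 ≤ n) (hw : w ≠ 0)
    (hout : ∀ q : ℕ, q.Prime → q ∉ S → n ∣ w.factorization q) :
    ∃ s d : ℕ, 1 ≤ s ∧ 1 ≤ d ∧ s ≤ (∏ q ∈ S.filter Nat.Prime, q) ^ n ∧
      d.primeFactors ⊆ S.filter Nat.Prime ∧ w = s * (d * root S n w) ^ n := by
  classical
  have hp : ∀ q ∈ S.filter Nat.Prime, q.Prime := fun q hq => (Finset.mem_filter.1 hq).2
  refine ⟨∏ q ∈ S.filter Nat.Prime, q ^ (w.factorization q % n),
    ∏ q ∈ S.filter Nat.Prime, q ^ (w.factorization q / n), ?_, ?_, ?_, ?_, ?_⟩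
  · exact Finset.prod_pos fun q hq => pow_pos (hp q hq).pos _
  · exact Finset.prod_pos fun q hq => pow_pos (hp q hq).pos _
  · rw [← Finset.prod_pow]
    refine Finset.prod_le_prod' fun q hq => ?_
    exact Nat.pow_le_pow_right (hp q hq).pos (Nat.mod_lt _ hn).le
  · intro ℓ hℓ
    have h1 := Nat.prime_of_mem_primeFactors hℓ
    have h2 := Nat.dvd_of_mem_primeFactors hℓ
    obtain ⟨q, hq, h3⟩ := (Prime.dvd_finsetProd_iff h1.prime _).1 h2
    have h4 := h1.dvd_of_dvd_pow h3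
    rw [(Nat.prime_dvd_prime_iff_eq h1 (hp q hq)).1 h4]
    exact hq
  · have h1 : w = spart S w * ∏ q ∈ w.primeFactors with q ∉ S, q ^ w.factorization q := by
      rw [spart_eq, Finset.prod_filter_mul_prod_filter_not]
      exact (prod_eq hw).symm
    have h2 : (∏ q ∈ w.primeFactors with q ∉ S, q ^ w.factorization q) = root S n w ^ n := by
      rw [root, ← Finset.prod_pow]
      refine Finset.prod_congr rfl fun q hq => ?_
      rw [Finset.mem_filter] at hq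
      rw [← pow_mul, Nat.div_mul_cancel (hout q (Nat.prime_of_mem_primeFactors hq.1) hq.2)]
    have h3 : spart S w = (∏ q ∈ S.filter Nat.Prime, q ^ (w.factorization q % n)) *
        (∏ q ∈ S.filter Nat.Prime, q ^ (w.factorization q / n)) ^ n := by
      rw [spart, ← Finset.prod_pow, ← Finset.prod_mul_distrib]
      refine Finset.prod_congr rfl fun q _ => ?_
      rw [← pow_mul, ← pow_add, Nat.mod_add_div']
    rw [mul_pow, ← mul_assoc, ← h3, ← h2]
    exact h1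

theorem pow_diff (X Z : ℝ) (hX : 0 ≤ X) (hZ : 0 ≤ Z) (n : ℕ) (hn : 1 ≤ n) :
    |X - Z| * X ^ (n - 1) ≤ |X ^ n - Z ^ n| := by
  obtain ⟨k, rfl⟩ : ∃ k, n = k + 1 := ⟨n - 1, by omega⟩
  rw [Nat.add_sub_cancel, pow_succ, pow_succ]
  rcases le_total Z X with h | h
  · have h1 : Z ^ k ≤ X ^ k := pow_le_pow_left₀ hZ h k
    have h2 : Z ^ k * Z ≤ X ^ k * Z := mul_le_mul_of_nonneg_right h1 hZ
    rw [abs_of_nonneg (by linarith)]
    refine le_trans ?_ (le_abs_self _)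
    nlinarith
  · have h1 : X ^ k ≤ Z ^ k := pow_le_pow_left₀ hX h k
    have h2 : X ^ k * Z ≤ Z ^ k * Z := mul_le_mul_of_nonneg_right h1 hZ
    rw [abs_of_nonpos (by linarith)]
    refine le_trans ?_ (neg_le_abs _)
    nlinarith

theorem exists_lb {ι : Type} (F : Finset ι) (f : ι → ℝ) (hf : ∀ i, 0 < f i) :
    ∃ κ : ℝ, 0 < κ ∧ ∀ i ∈ F, κ ≤ f i := by
  classical
  induction F using Finset.induction_on with
  | empty => exact ⟨1, one_pos, by simp⟩
  | insert a F _ ih =>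
    obtain ⟨κ, hκ, h⟩ := ih
    refine ⟨min κ (f a), lt_min hκ (hf a), fun i hi => ?_⟩
    rcases Finset.mem_insert.1 hi with rfl | hi
    · exact min_le_right _ _
    · exact (min_le_left _ _).trans (h i hi)

/-- the bound for a fixed `n` -/
theorem uni_fix (S : Finset ℕ) (α β : ℕ) (hα : 1 ≤ α) (hβ : 1 ≤ β) (n : ℕ) (hn : 1 ≤ n) (η : ℝ)
    (hη : 0 < η) : ∃ κ : ℝ, 0 < κ ∧ ∀ x y : ℕ, 1 ≤ x → 1 ≤ y → α * x ≠ β * y →
      (∀ q : ℕ, q.Prime → q ∉ S → n ∣ x.factorization q) →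
      (∀ q : ℕ, q.Prime → q ∉ S → n ∣ y.factorization q) →
      ∀ W : ℝ, (x : ℝ) ≤ W → (y : ℝ) ≤ W → ((x : ℝ) = W ∨ (y : ℝ) = W) →
      κ * W ^ (1 - η) ≤ |(α : ℝ) * x - β * y| * ((root S n x : ℝ) * root S n y) := by
  classical
  obtain ⟨P, hP⟩ : ∃ P : ℕ, P = (∏ q ∈ S.filter Nat.Prime, q) ^ n := ⟨_, rfl⟩
  have hP1 : 1 ≤ P := by
    rw [hP]
    exact pow_pos (Finset.prod_pos fun q hq => Nat.Prime.pos (Finset.mem_filter.1 hq).2) _
  have hn0 : n ≠ 0 := by omega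
  have hnr : (0:ℝ) < n := by exact_mod_cast hn
  have hαr : (1:ℝ) ≤ α := by exact_mod_cast hα
  have hβr : (1:ℝ) ≤ β := by exact_mod_cast hβ
  obtain ⟨γ, hγ⟩ : ∃ γ : ℕ × ℕ → ℝ, γ = fun i =>
    (((β : ℝ) * i.2) / (α * i.1)) ^ (1 / (n : ℝ)) := ⟨_, rfl⟩
  have key : ∀ i : ℕ × ℕ, ∃ κ : ℝ, 0 < κ ∧ (1 ≤ i.1 → 1 ≤ i.2 → ∀ D m d e : ℕ, 1 ≤ D → 1 ≤ m →
      d ∣ D → e ∣ m → d.primeFactors ⊆ S.filter Nat.Prime → e.primeFactors ⊆ S.filter Nat.Prime →
      (D : ℝ) * γ i ≠ m →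
      κ * ((d : ℝ) * (e : ℝ)) ≤ ((D : ℝ) + (m : ℝ)) ^ (1 + η) * |(D : ℝ) * γ i - m|) := by
    intro i
    by_cases hi : 1 ≤ i.1 ∧ 1 ≤ i.2
    · have h1 : (0:ℝ) < i.1 := by exact_mod_cast hi.1
      have h2 : (0:ℝ) < i.2 := by exact_mod_cast hi.2
      have h3 : (0:ℝ) < ((β : ℝ) * i.2) / (α * i.1) := by positivity
      have h4 : γ i ^ n = ((β : ℝ) * i.2) / (α * i.1) := by
        rw [hγ, ← Real.rpow_natCast, ← Real.rpow_mul h3.le, one_div, inv_mul_cancel₀ hnr.ne',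
          Real.rpow_one]
      have h5 : IsAlgebraic ℚ (γ i) := by
        refine IsAlgebraic.of_pow (n := n) (by omega) ?_
        rw [h4]
        have h6 : ((β : ℝ) * i.2) / (α * i.1) =
            algebraMap ℚ ℝ (((β : ℚ) * i.2) / (α * i.1)) := by
          rw [eq_ratCast]
          push_cast
          rfl
        rw [h6]
        exact isAlgebraic_algebraMap _
      have h7 : 0 < γ i := by rw [hγ]; exact Real.rpow_pos_of_pos h3 _
      obtain ⟨κ, hκ, h8⟩ := Rdt.ridout_pos (S.filter Nat.Prime)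
        (fun ℓ hℓ => (Finset.mem_filter.1 hℓ).2) (γ i) h5 h7 η hη
      exact ⟨κ, hκ, fun _ _ => h8⟩
    · exact ⟨1, one_pos, fun h1 h2 => absurd ⟨h1, h2⟩ hi⟩
  choose κf hκf hkey using key
  obtain ⟨κ1, hκ1, hκ1f⟩ := exists_lb (Finset.range (P + 1) ×ˢ Finset.range (P + 1)) κf hκf
  obtain ⟨c3, hc3⟩ : ∃ c3 : ℝ, c3 = 2 * α * β * P := ⟨_, rfl⟩
  have hPr : (1:ℝ) ≤ P := by exact_mod_cast hP1
  have hαβ : (1:ℝ) ≤ (α:ℝ) * β := by nlinarith
  have hc31 : 1 ≤ c3 := by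
    rw [hc3]
    have : (1:ℝ) ≤ (α:ℝ) * β * P := by nlinarith
    nlinarith
  have hc30 : 0 < c3 := by linarith
  have h20 : (0:ℝ) < 2 ^ (1 + η) := Real.rpow_pos_of_pos (by norm_num) _
  obtain ⟨κ2, hκ2⟩ : ∃ κ2 : ℝ, κ2 = κ1 / (c3 ^ (n + 1) * 2 ^ (1 + η)) := ⟨_, rfl⟩
  have hκ20 : 0 < κ2 := by rw [hκ2]; positivity
  refine ⟨min (1 / 2) κ2, lt_min (by norm_num) hκ20, ?_⟩
  intro x y hx hy hne hxo hyo W hxW hyW hor
  have hx1 : (1:ℝ) ≤ x := by exact_mod_cast hx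
  have hy1 : (1:ℝ) ≤ y := by exact_mod_cast hy
  have hW1 : 1 ≤ W := hx1.trans hxW
  have hW0 : 0 < W := by linarith
  have hWη0 : 0 < W ^ (1 - η) := Real.rpow_pos_of_pos hW0 _
  have hWη : W ^ (1 - η) ≤ W := by
    calc W ^ (1 - η) ≤ W ^ (1:ℝ) := Real.rpow_le_rpow_of_exponent_le hW1 (by linarith)
      _ = W := Real.rpow_one _
  have hrx : (1:ℝ) ≤ root S n x := by exact_mod_cast root_pos S n x
  have hry : (1:ℝ) ≤ root S n y := by exact_mod_cast root_pos S n y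
  have hrr : (1:ℝ) ≤ (root S n x : ℝ) * root S n y := by nlinarith
  by_cases hbig : W / 2 ≤ |(α : ℝ) * x - β * y|
  · calc min (1 / 2) κ2 * W ^ (1 - η) ≤ (1 / 2) * W :=
          mul_le_mul (min_le_left _ _) hWη hWη0.le (by norm_num)
      _ = W / 2 := by ring
      _ ≤ |(α : ℝ) * x - β * y| * 1 := by linarith
      _ ≤ _ := mul_le_mul_of_nonneg_left hrr (abs_nonneg _)
  rw [not_le] at hbig
  have hd := abs_lt.1 hbig
  have hαx : W / 2 ≤ (α:ℝ) * x := by
    rcases hor with h | h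
    · nlinarith
    · nlinarith [hd.1]
  have hβy : W / 2 ≤ (β:ℝ) * y := by
    rcases hor with h | h
    · nlinarith [hd.2]
    · nlinarith
  obtain ⟨s, d, hs, hdp, hsP, hdS, hxd⟩ := root_dec S n x hn (by omega) hxo
  obtain ⟨t, e, ht, hep, htP, heS, hyd⟩ := root_dec S n y hn (by omega) hyo
  rw [← hP] at hsP htP
  obtain ⟨X, hX⟩ : ∃ X : ℕ, X = d * root S n x := ⟨_, rfl⟩
  obtain ⟨Y, hY⟩ : ∃ Y : ℕ, Y = e * root S n y := ⟨_, rfl⟩
  rw [← hX] at hxd
  rw [← hY] at hyd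
  have hX1 : 1 ≤ X := by rw [hX]; exact Nat.mul_pos hdp (root_pos S n x)
  have hY1 : 1 ≤ Y := by rw [hY]; exact Nat.mul_pos hep (root_pos S n y)
  have hXr : (1:ℝ) ≤ X := by exact_mod_cast hX1
  have hYr : (1:ℝ) ≤ Y := by exact_mod_cast hY1
  have hsr : (1:ℝ) ≤ s := by exact_mod_cast hs
  have htr : (1:ℝ) ≤ t := by exact_mod_cast ht
  have hsPr : (s:ℝ) ≤ P := by exact_mod_cast hsP
  have htPr : (t:ℝ) ≤ P := by exact_mod_cast htP
  have hxr : (x:ℝ) = s * (X:ℝ) ^ n := by exact_mod_cast hxd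
  have hyr : (y:ℝ) = t * (Y:ℝ) ^ n := by exact_mod_cast hyd
  obtain ⟨T, hT⟩ : ∃ T : ℝ, T = W ^ (1 / (n:ℝ)) := ⟨_, rfl⟩
  have hT1 : 1 ≤ T := by rw [hT]; exact Real.one_le_rpow hW1 (by positivity)
  have hT0 : 0 < T := by linarith
  have hTn : T ^ n = W := by
    rw [hT, ← Real.rpow_natCast, ← Real.rpow_mul hW0.le, one_div, inv_mul_cancel₀ hnr.ne',
      Real.rpow_one]
  have hXn0 : (0:ℝ) < (X:ℝ) ^ n := by positivity
  have hYn0 : (0:ℝ) < (Y:ℝ) ^ n := by positivity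
  have hXT : (X:ℝ) ≤ T := by
    refine le_of_pow_le_pow_left₀ hn0 hT0.le ?_
    rw [hTn]
    nlinarith
  have hYT : (Y:ℝ) ≤ T := by
    refine le_of_pow_le_pow_left₀ hn0 hT0.le ?_
    rw [hTn]
    nlinarith
  have hc3n : c3 ≤ c3 ^ n := le_self_pow₀ hc31 hn0
  have hTX : T / c3 ≤ X := by
    refine le_of_pow_le_pow_left₀ hn0 (by linarith) ?_
    rw [div_pow, hTn]
    have h1 : W / c3 ^ n ≤ W / c3 := div_le_div_of_nonneg_left hW0.le hc30 hc3n
    refine h1.trans ?_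
    rw [div_le_iff₀ hc30, hc3]
    have h2 : (α:ℝ) * x ≤ α * (P * (X:ℝ) ^ n) := by
      rw [hxr]
      gcongr
    have h3 : (0:ℝ) ≤ α * (P * (X:ℝ) ^ n) := by positivity
    have h4 : (α:ℝ) * (P * (X:ℝ) ^ n) ≤ α * (P * (X:ℝ) ^ n) * β := le_mul_of_one_le_right h3 hβr
    nlinarith
  have hTY : T / c3 ≤ Y := by
    refine le_of_pow_le_pow_left₀ hn0 (by linarith) ?_
    rw [div_pow, hTn]
    have h1 : W / c3 ^ n ≤ W / c3 := div_le_div_of_nonneg_left hW0.le hc30 hc3n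
    refine h1.trans ?_
    rw [div_le_iff₀ hc30, hc3]
    have h2 : (β:ℝ) * y ≤ β * (P * (Y:ℝ) ^ n) := by
      rw [hyr]
      gcongr
    have h3 : (0:ℝ) ≤ β * (P * (Y:ℝ) ^ n) := by positivity
    have h4 : (β:ℝ) * (P * (Y:ℝ) ^ n) ≤ β * (P * (Y:ℝ) ^ n) * α := le_mul_of_one_le_right h3 hαr
    nlinarith
  -- the number `γ`
  obtain ⟨g, hg⟩ : ∃ g : ℝ, g = γ (s, t) := ⟨_, rfl⟩
  have hq0 : (0:ℝ) < ((β : ℝ) * t) / (α * s) := by positivity
  have hg0 : 0 < g := by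
    rw [hg, hγ]
    exact Real.rpow_pos_of_pos hq0 _
  have hgn : g ^ n = ((β : ℝ) * t) / (α * s) := by
    rw [hg, hγ, ← Real.rpow_natCast, ← Real.rpow_mul hq0.le, one_div, inv_mul_cancel₀ hnr.ne',
      Real.rpow_one]
  have hαs : (1:ℝ) ≤ (α:ℝ) * s := by nlinarith
  have hdiff : (α:ℝ) * x - β * y = α * s * ((X:ℝ) ^ n - ((Y:ℝ) * g) ^ n) := by
    rw [mul_pow, hgn, hxr, hyr]
    field_simp
  have hYg : (Y:ℝ) * g ≠ X := by
    intro h
    apply hne
    rw [h, sub_self, mul_zero] at hdiff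
    have h1 : (α:ℝ) * x = β * y := by linarith
    exact_mod_cast h1
  have hrid := hkey (s, t) hs ht Y X e d hY1 hX1 ⟨root S n y, hY⟩ ⟨root S n x, hX⟩ heS hdS
    (by rw [← hg]; exact hYg)
  rw [← hg] at hrid
  have hκle : κ1 ≤ κf (s, t) := hκ1f (s, t) (by
    rw [Finset.mem_product, Finset.mem_range, Finset.mem_range]
    exact ⟨by simpa using Nat.lt_succ_of_le hsP, by simpa using Nat.lt_succ_of_le htP⟩)
  obtain ⟨Δ, hΔ⟩ : ∃ Δ : ℝ, Δ = |(α : ℝ) * x - β * y| := ⟨_, rfl⟩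
  have hlow : |(Y:ℝ) * g - X| * (X:ℝ) ^ (n - 1) ≤ Δ := by
    rw [hΔ, hdiff, abs_mul, abs_of_pos (by positivity : (0:ℝ) < α * s)]
    have h1 := pow_diff (X:ℝ) ((Y:ℝ) * g) (by linarith) (by positivity) n hn
    rw [abs_sub_comm (X:ℝ) ((Y:ℝ) * g)] at h1
    refine h1.trans ?_
    exact le_mul_of_one_le_left (abs_nonneg _) hαs
  have hd0 : (0:ℝ) < d := by exact_mod_cast hdp
  have he0 : (0:ℝ) < e := by exact_mod_cast hep
  have hrid2 : κ1 * ((e:ℝ) * d) ≤ (2 ^ (1 + η) * T ^ (1 + η)) * |(Y:ℝ) * g - X| := by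
    calc κ1 * ((e:ℝ) * d) ≤ κf (s, t) * ((e:ℝ) * d) := by gcongr
      _ ≤ ((Y:ℝ) + X) ^ (1 + η) * |(Y:ℝ) * g - X| := hrid
      _ ≤ (2 * T) ^ (1 + η) * |(Y:ℝ) * g - X| := by
          gcongr
          linarith
      _ = _ := by rw [Real.mul_rpow (by norm_num) hT0.le]
  obtain ⟨A, hA⟩ : ∃ A : ℝ, A = (2:ℝ) ^ (1 + η) * T ^ (1 + η) := ⟨_, rfl⟩
  have hTη0 : 0 < T ^ (1 + η) := Real.rpow_pos_of_pos hT0 _
  have hA0 : 0 < A := by rw [hA]; positivity
  rw [← hA] at hrid2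
  have hprod : κ1 * (T / c3) ^ (n + 1) ≤ A * (Δ * ((root S n x : ℝ) * root S n y)) := by
    have e1 : (X:ℝ) = d * root S n x := by exact_mod_cast hX
    have e2 : (Y:ℝ) = e * root S n y := by exact_mod_cast hY
    have e3 : (T / c3) ^ (n + 1) ≤ (X:ℝ) ^ (n - 1) * (X * Y) := by
      have h1 : (T / c3) ^ (n + 1) = (T / c3) ^ (n - 1) * ((T / c3) * (T / c3)) := by
        rw [← sq, ← pow_add]
        congr 1
        omega
      rw [h1]
      gcongr
    calc κ1 * (T / c3) ^ (n + 1) ≤ κ1 * ((X:ℝ) ^ (n - 1) * (X * Y)) := by gcongr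
      _ = (κ1 * ((e:ℝ) * d)) * ((X:ℝ) ^ (n - 1) * ((root S n x : ℝ) * root S n y)) := by
          rw [e1, e2]; ring
      _ ≤ (A * |(Y:ℝ) * g - X|) * ((X:ℝ) ^ (n - 1) * ((root S n x : ℝ) * root S n y)) := by
          gcongr
      _ = A * ((|(Y:ℝ) * g - X| * (X:ℝ) ^ (n - 1)) * ((root S n x : ℝ) * root S n y)) := by ring
      _ ≤ _ := by gcongr
  rw [← hΔ]
  have hpw : W ^ (1 - η) * T ^ (1 + η) ≤ T ^ (n + 1) := by
    have h1 : T ^ (1 + η) = W ^ ((1 + η) / n) := by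
      rw [hT, ← Real.rpow_mul hW0.le]
      congr 1
      ring
    have h2 : T ^ (n + 1) = W ^ (1 + 1 / (n:ℝ)) := by
      rw [pow_succ, hTn, hT, Real.rpow_add hW0, Real.rpow_one]
    rw [h1, h2, ← Real.rpow_add hW0]
    apply Real.rpow_le_rpow_of_exponent_le hW1
    have h3 : (1 + η) / (n:ℝ) = 1 / n + η / n := by ring
    have h4 : η / (n:ℝ) ≤ η := div_le_self hη.le (by exact_mod_cast hn)
    rw [h3]
    linarith
  have hfin : A * (κ2 * W ^ (1 - η)) ≤ A * (Δ * ((root S n x : ℝ) * root S n y)) := by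
    refine le_trans ?_ hprod
    have h1 : A * (κ2 * W ^ (1 - η)) = κ1 / c3 ^ (n + 1) * (W ^ (1 - η) * T ^ (1 + η)) := by
      rw [hA, hκ2]
      field_simp
    rw [h1, div_pow]
    calc κ1 / c3 ^ (n + 1) * (W ^ (1 - η) * T ^ (1 + η)) ≤ κ1 / c3 ^ (n + 1) * T ^ (n + 1) := by
          gcongr
      _ = _ := by ring
  have h1 := le_of_mul_le_mul_left hfin hA0
  exact (mul_le_mul_of_nonneg_right (min_le_right _ _) hWη0.le).trans h1

/-- **Main theorem of this file.** -/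
theorem uni (S : Finset ℕ) (α β : ℕ) (hα : 1 ≤ α) (hβ : 1 ≤ β) (η : ℝ) (hη : 0 < η) :
    ∃ (κ : ℝ) (N : ℕ), 0 < κ ∧ ∀ n : ℕ, 1 ≤ n → ∀ x y : ℕ, 1 ≤ x → 1 ≤ y → α * x ≠ β * y →
      (∀ q : ℕ, q.Prime → q ∉ S → n ∣ x.factorization q) →
      (∀ q : ℕ, q.Prime → q ∉ S → n ∣ y.factorization q) →
      ∀ W : ℝ, (x : ℝ) ≤ W → (y : ℝ) ≤ W → ((x : ℝ) = W ∨ (y : ℝ) = W) →
      (N ≤ n → κ * W ^ (1 - η) ≤ |(α : ℝ) * x - β * y|) ∧
      κ * W ^ (1 - η) ≤ |(α : ℝ) * x - β * y| * ((root S n x : ℝ) * root S n y) := by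
  classical
  obtain ⟨N, B, hB1, hN⟩ := pow_gap (S ∪ (α * β).primeFactors) η hη
  choose κf hκf hκ using fun n : {n : ℕ // 1 ≤ n} => uni_fix S α β hα hβ n.1 n.2 η hη
  obtain ⟨κ1, hκ1, hκ1f⟩ := exists_lb (Finset.range (N + 1))
    (fun n => if h : 1 ≤ n then κf ⟨n, h⟩ else 1) (by
      intro n

      split_ifs with h
      · exact hκf _
      · exact one_pos)
  have hBr : (1:ℝ) ≤ B := by exact_mod_cast hB1
  have hB0 : (0:ℝ) < B := by linarith
  have hαr : (1:ℝ) ≤ α := by exact_mod_cast hα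
  have hβr : (1:ℝ) ≤ β := by exact_mod_cast hβ
  refine ⟨min κ1 (1 / B), N, lt_min hκ1 (by positivity), ?_⟩
  intro n hn x y hx hy hne hxo hyo W hxW hyW hor
  have hx1 : (1:ℝ) ≤ x := by exact_mod_cast hx
  have hy1 : (1:ℝ) ≤ y := by exact_mod_cast hy
  have hW1 : 1 ≤ W := hx1.trans hxW
  have hW0 : 0 < W := by linarith
  have hWη0 : 0 < W ^ (1 - η) := Real.rpow_pos_of_pos hW0 _
  have hWη : W ^ (1 - η) ≤ W := by
    calc W ^ (1 - η) ≤ W ^ (1:ℝ) := Real.rpow_le_rpow_of_exponent_le hW1 (by linarith)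
      _ = W := Real.rpow_one _
  have hrx : (1:ℝ) ≤ root S n x := by exact_mod_cast root_pos S n x
  have hry : (1:ℝ) ≤ root S n y := by exact_mod_cast root_pos S n y
  have hrr : (1:ℝ) ≤ (root S n x : ℝ) * root S n y := by nlinarith
  have hbig : N ≤ n → min κ1 (1 / B) * W ^ (1 - η) ≤ |(α : ℝ) * x - β * y| := by
    intro hnN
    obtain ⟨W', hW'⟩ : ∃ W' : ℝ, W' = max ((α:ℝ) * x) (β * y) := ⟨_, rfl⟩
    have h1 : (α:ℝ) * x ≤ W' := by rw [hW']; exact le_max_left _ _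
    have h2 : (β:ℝ) * y ≤ W' := by rw [hW']; exact le_max_right _ _
    have hWW' : W ≤ W' := by
      rcases hor with h | h
      · nlinarith
      · nlinarith
    have hcast1 : |(((α * x : ℕ) : ℤ) : ℝ)| = (α:ℝ) * x := by
      push_cast; exact abs_of_nonneg (by positivity)
    have hcast2 : |(((β * y : ℕ) : ℤ) : ℝ)| = (β:ℝ) * y := by
      push_cast; exact abs_of_nonneg (by positivity)
    have hmin0 : 0 < min κ1 (1 / (B:ℝ)) := lt_min hκ1 (by positivity)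
    by_cases hclose : |(α : ℝ) * x - β * y| ≤ W' ^ (1 - η)
    · have hfin := hN n hnN ((α * x : ℕ) : ℤ) ((β * y : ℕ) : ℤ)
        (by exact_mod_cast Nat.mul_ne_zero (by omega) (by omega))
        (by exact_mod_cast Nat.mul_ne_zero (by omega) (by omega)) (by exact_mod_cast hne) (by
          intro q hq hqS
          have : Fact q.Prime := ⟨hq⟩
          rw [Finset.mem_union, not_or] at hqS
          have hqα : ¬ q ∣ α * β := fun hc =>
            hqS.2 (Nat.mem_primeFactors.2 ⟨hq, hc, Nat.mul_ne_zero (by omega) (by omega)⟩)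
          have hkx := hxo q hq hqS.1
          have hky := hyo q hq hqS.1
          have hα0 : (α : ℚ) ≠ 0 := by exact_mod_cast (by omega : α ≠ 0)
          have hβ0 : (β : ℚ) ≠ 0 := by exact_mod_cast (by omega : β ≠ 0)
          have huq : (x : ℚ) ≠ 0 := by exact_mod_cast (by omega : x ≠ 0)
          have hvq : (y : ℚ) ≠ 0 := by exact_mod_cast (by omega : y ≠ 0)
          push_cast
          rw [padicValRat.div (mul_ne_zero hα0 huq) (mul_ne_zero hβ0 hvq),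
            padicValRat.mul hα0 huq, padicValRat.mul hβ0 hvq]
          have v1 : padicValRat q (α : ℚ) = 0 := by
            rw [padicValRat.of_nat, padicValNat.eq_zero_of_not_dvd
              (fun h => hqα (h.mul_right _))]
            rfl
          have v2 : padicValRat q (β : ℚ) = 0 := by
            rw [padicValRat.of_nat, padicValNat.eq_zero_of_not_dvd
              (fun h => hqα (h.mul_left _))]
            rfl
          rw [v1, v2, padicValRat.of_nat, padicValRat.of_nat, zero_add, zero_add]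
          rw [Nat.factorization_def _ hq] at hkx hky
          exact dvd_sub (Int.natCast_dvd_natCast.2 hkx) (Int.natCast_dvd_natCast.2 hky)) W'
        (by rw [hcast1]; exact h1) (by rw [hcast2]; exact h2)
        (by
          rw [hcast1, hcast2, hW']
          rcases le_total ((α:ℝ) * x) (β * y) with h | h
          · exact Or.inr (max_eq_right h).symm
          · exact Or.inl (max_eq_left h).symm) (by
          have e1 : |(((α * x : ℕ) : ℤ) : ℝ) - (((β * y : ℕ) : ℤ) : ℝ)| =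
              |(α : ℝ) * x - β * y| := by push_cast; rfl
          rw [e1]
          exact hclose)
      have h3 : (1:ℝ) ≤ |(α : ℝ) * x - β * y| := by
        have h4 : ((α * x : ℕ) : ℤ) - ((β * y : ℕ) : ℤ) ≠ 0 := by
          rw [sub_ne_zero]
          exact_mod_cast hne
        have h5 := Int.one_le_abs h4
        have h6 : (1:ℝ) ≤ |(((((α * x : ℕ) : ℤ) - ((β * y : ℕ) : ℤ) : ℤ)) : ℝ)| := by
          exact_mod_cast h5
        push_cast at h6
        exact h6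
      calc min κ1 (1 / (B:ℝ)) * W ^ (1 - η) ≤ 1 / B * B :=
            mul_le_mul (min_le_right _ _) (hWη.trans (hWW'.trans hfin)) hWη0.le (by positivity)
        _ = 1 := by field_simp
        _ ≤ _ := h3
    · rw [not_le] at hclose
      have hmin1 : min κ1 (1 / (B:ℝ)) ≤ 1 := by
        refine (min_le_right _ _).trans ?_
        rw [div_le_one hB0]
        exact hBr
      rcases le_or_gt η 1 with h | h
      · calc min κ1 (1 / (B:ℝ)) * W ^ (1 - η) ≤ 1 * W' ^ (1 - η) :=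
              mul_le_mul hmin1 (Real.rpow_le_rpow hW0.le hWW' (by linarith)) hWη0.le zero_le_one
          _ = W' ^ (1 - η) := one_mul _
          _ ≤ _ := hclose.le
      · have h3 : (1:ℝ) ≤ |(α : ℝ) * x - β * y| := by
          have h4 : ((α * x : ℕ) : ℤ) - ((β * y : ℕ) : ℤ) ≠ 0 := by
            rw [sub_ne_zero]
            exact_mod_cast hne
          have h5 := Int.one_le_abs h4
          have h6 : (1:ℝ) ≤ |(((((α * x : ℕ) : ℤ) - ((β * y : ℕ) : ℤ) : ℤ)) : ℝ)| := by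
            exact_mod_cast h5
          push_cast at h6
          exact h6
        calc min κ1 (1 / (B:ℝ)) * W ^ (1 - η) ≤ 1 * 1 :=
              mul_le_mul hmin1 (Real.rpow_le_one_of_one_le_of_nonpos hW1 (by linarith)) hWη0.le
                zero_le_one
          _ = 1 := one_mul _
          _ ≤ _ := h3
  refine ⟨hbig, ?_⟩
  by_cases hnN : N ≤ n
  · refine (hbig hnN).trans ?_
    exact le_mul_of_one_le_right (abs_nonneg _) hrr
  · have h1 := hκ ⟨n, hn⟩ x y hx hy hne hxo hyo W hxW hyW hor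
    refine le_trans ?_ h1
    refine mul_le_mul_of_nonneg_right ?_ hWη0.le
    refine (min_le_left _ _).trans ?_
    have h2 := hκ1f n (Finset.mem_range.2 (by omega))
    rw [dif_pos hn] at h2
    exact h2

end Pool.Agent.U964.ML
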