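import Mathlib
import Pool.Agent.U964.ML.Uni

/-!
# The abc inequality for triples with one exponent
-/

set_option autoImplicit false

namespace Pool.Agent.U964.ML

open Finset

theorem rad_mul {x y : ℕ} (h : Nat.Coprime x y) : rad (x * y) = rad x * rad y := by
  rw [rad, rad, rad, h.primeFactors_mul, Finset.prod_union h.disjoint_primeFactors]

/-- the root is at most a power of the radical -/
theorem root_le (S : Finset ℕ) (n k w : ℕ) (hn : 1 ≤ n)
    (hk : ∀ q : ℕ, q.Prime → q ∉ S → w.factorization q ≤ k * n) : root S n w ≤ rad w ^ k := by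
  classical
  have h1 : root S n w ≤ ∏ q ∈ w.primeFactors with q ∉ S, q ^ k := by
    refine Finset.prod_le_prod' fun q hq => ?_
    rw [Finset.mem_filter] at hq
    have hp := Nat.prime_of_mem_primeFactors hq.1
    refine Nat.pow_le_pow_right hp.pos ?_
    exact Nat.div_le_of_le_mul (by rw [mul_comm]; exact hk q hp hq.2)
  have h3 : (∏ q ∈ w.primeFactors with q ∉ S, q ^ k) ∣ rad w ^ k := by
    rw [rad, ← Finset.prod_pow]
    exact Finset.prod_dvd_prod_of_subset _ _ _ (Finset.filter_subset _ _)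
  exact h1.trans (Nat.le_of_dvd (pow_pos (rad_pos w) _) h3)

/-- **The inequality near a rational number.** -/
theorem trip (S : Finset ℕ) (α β k : ℕ) (hα : 1 ≤ α) (hβ : 1 ≤ β) (ε : ℝ) (hε : 0 < ε)
    (hε1 : ε < 1) : ∃ (K : ℝ) (N : ℕ), 1 ≤ K ∧ ∀ n : ℕ, 1 ≤ n → ∀ x y : ℕ, 1 ≤ x → 1 ≤ y →
      Nat.Coprime x y → α * x ≠ β * y →
      (∀ q : ℕ, q.Prime → q ∉ S → n ∣ (x * y).factorization q) →
      (N ≤ n ∨ ∀ q : ℕ, q.Prime → q ∉ S → (x * y).factorization q ≤ k * n) →
      ∀ W : ℝ, (x : ℝ) ≤ W → (y : ℝ) ≤ W → ((x : ℝ) = W ∨ (y : ℝ) = W) →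
      W ^ (1 - ε) ≤ K * (|(α : ℝ) * x - β * y| * (rad (x * y) : ℝ) ^ k) := by
  obtain ⟨κ, N, hκ, h⟩ := uni S α β hα hβ ε hε
  refine ⟨max 1 (1 / κ), N, le_max_left _ _, ?_⟩
  intro n hn x y hx hy hcop hne hexp hor2 W hxW hyW hor
  have hx0 : x ≠ 0 := by omega
  have hy0 : y ≠ 0 := by omega
  have hfac : ∀ q : ℕ, q.Prime → x.factorization q = 0 ∨ y.factorization q = 0 := by
    intro q hq
    by_cases hqx : q ∣ x
    · right
      exact Nat.factorization_eq_zero_of_not_dvd fun hc => by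
        have := Nat.dvd_gcd hqx hc
        rw [hcop] at this
        exact hq.one_lt.ne' (Nat.dvd_one.1 this)
    · left
      exact Nat.factorization_eq_zero_of_not_dvd hqx
  have hmul : ∀ q : ℕ, (x * y).factorization q = x.factorization q + y.factorization q := by
    intro q
    rw [Nat.factorization_mul hx0 hy0, Finsupp.add_apply]
  have hxo : ∀ q : ℕ, q.Prime → q ∉ S → n ∣ x.factorization q := by
    intro q hq hqS
    have h1 := hexp q hq hqS
    rw [hmul] at h1
    rcases hfac q hq with h2 | h2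
    · rw [h2]; exact dvd_zero _
    · rwa [h2, add_zero] at h1
  have hyo : ∀ q : ℕ, q.Prime → q ∉ S → n ∣ y.factorization q := by
    intro q hq hqS
    have h1 := hexp q hq hqS
    rw [hmul] at h1
    rcases hfac q hq with h2 | h2
    · rwa [h2, zero_add] at h1
    · rw [h2]; exact dvd_zero _
  obtain ⟨h1, h2⟩ := h n hn x y hx hy hne hxo hyo W hxW hyW hor
  have hr1 : (1:ℝ) ≤ (rad (x * y) : ℝ) ^ k := one_le_pow₀ (by exact_mod_cast rad_pos (x * y))
  have hΔ0 := abs_nonneg ((α : ℝ) * x - β * y)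
  have key : κ * W ^ (1 - ε) ≤ |(α : ℝ) * x - β * y| * (rad (x * y) : ℝ) ^ k := by
    rcases hor2 with h3 | h3
    · exact (h1 h3).trans (le_mul_of_one_le_right hΔ0 hr1)
    · refine h2.trans (mul_le_mul_of_nonneg_left ?_ hΔ0)
      have e1 : root S n x ≤ rad x ^ k := root_le S n k x hn fun q hq hqS => by
        have := h3 q hq hqS
        rw [hmul] at this
        omega
      have e2 : root S n y ≤ rad y ^ k := root_le S n k y hn fun q hq hqS => by
        have := h3 q hq hqS
        rw [hmul] at this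
        omega
      have e3 : root S n x * root S n y ≤ rad (x * y) ^ k := by
        rw [rad_mul hcop, mul_pow]
        exact Nat.mul_le_mul e1 e2
      exact_mod_cast e3
  have h4 : W ^ (1 - ε) ≤ 1 / κ * (|(α : ℝ) * x - β * y| * (rad (x * y) : ℝ) ^ k) := by
    rw [one_div, ← div_eq_inv_mul, le_div_iff₀ hκ]
    linarith
  refine h4.trans (mul_le_mul_of_nonneg_right (le_max_right _ _) ?_)
  positivity

end Pool.Agent.U964.ML
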