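import Mathlib
import Pool.Agent.U964.ML.Pow

/-!
Integer points on plane curves whose top weighted form is a power of a binomial (helper964)
-/

set_option autoImplicit false

namespace Pool.Agent.U964.ML

open Finset

/-- the sum of the absolute values of the coefficients -/
def len (R : MvPolynomial (Fin 2) ℤ) : ℕ := ∑ m ∈ R.support, (R.coeff m).natAbs

theorem eval_le (R : MvPolynomial (Fin 2) ℤ) (x y : ℤ) (T : ℝ) (hT : 1 ≤ T) (p q K : ℕ)
    (hx : |(x : ℝ)| ≤ T ^ p) (hy : |(y : ℝ)| ≤ T ^ q)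
    (hR : ∀ m ∈ R.support, p * m 0 + q * m 1 ≤ K) :
    |((MvPolynomial.eval ![x, y] R : ℤ) : ℝ)| ≤ len R * T ^ K := by
  have hT0 : 0 < T := by linarith
  rw [MvPolynomial.eval_eq']
  push_cast
  refine (Finset.abs_sum_le_sum_abs _ _).trans ?_
  rw [len, Nat.cast_sum, Finset.sum_mul]
  refine Finset.sum_le_sum fun m hm => ?_
  rw [Fin.prod_univ_two, abs_mul]
  simp only [Matrix.cons_val_zero, Matrix.cons_val_one]
  rw [abs_mul, abs_pow, abs_pow, Nat.cast_natAbs, Int.cast_abs]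
  refine mul_le_mul_of_nonneg_left ?_ (abs_nonneg _)
  calc |(x:ℝ)| ^ m 0 * |(y:ℝ)| ^ m 1 ≤ (T ^ p) ^ m 0 * (T ^ q) ^ m 1 := by gcongr
    _ = T ^ (p * m 0 + q * m 1) := by rw [pow_add, pow_mul, pow_mul]
    _ ≤ T ^ K := pow_le_pow_right₀ hT (hR m hm)

theorem curve (S : Finset ℕ) (p q k g : ℕ) (hp : 1 ≤ p) (hq : 1 ≤ q) (hk : 1 ≤ k) (hg : 1 ≤ g)
    (κ : ℝ) (hκ : 1 < κ) : ∃ N B : ℕ, 1 ≤ B ∧ ∀ a b c : ℤ, a ≠ 0 → b ≠ 0 → c ≠ 0 →
      ∀ R : MvPolynomial (Fin 2) ℤ, (∀ m ∈ R.support, p * m 0 + q * m 1 + g ≤ k * (p * q)) →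
      ∀ x y : ℤ, x ≠ 0 → y ≠ 0 →
      c * (a * y ^ p - b * x ^ q) ^ k + MvPolynomial.eval ![x, y] R = 0 → a * y ^ p ≠ b * x ^ q →
      ∀ n : ℕ, N ≤ n → AP S n (((a * y ^ p : ℤ) : ℚ) / ((b * x ^ q : ℤ) : ℚ)) →
        |(x : ℝ)| ^ g ≤ (B * (len R : ℝ) ^ κ) ^ p ∧ |(y : ℝ)| ^ g ≤ (B * (len R : ℝ) ^ κ) ^ q := by
  have hκ0 : 0 < κ := by linarith
  have hκ1 : 1 / κ < 1 := by rw [div_lt_one hκ0]; exact hκ
  have hκ2 : 0 < 1 / κ := by positivity
  have hpq : 1 ≤ p * q := Nat.mul_pos hp hq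
  have hpr : (1:ℝ) ≤ p := by exact_mod_cast hp
  have hqr : (1:ℝ) ≤ q := by exact_mod_cast hq
  have hkr : (1:ℝ) ≤ k := by exact_mod_cast hk
  have hgr : (1:ℝ) ≤ g := by exact_mod_cast hg
  have hpq0 : (0:ℝ) < (p:ℝ) * q := by positivity
  obtain ⟨δ, hδ⟩ : ∃ δ : ℝ, δ = g * (1 - 1 / κ) / (k * (p * q)) := ⟨_, rfl⟩
  have hδ0 : 0 < δ := by
    rw [hδ]
    have : 0 < 1 - 1 / κ := by linarith
    positivity
  obtain ⟨N, B0, hB1, hN⟩ := pow_gap S δ hδ0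
  have hBr : (1:ℝ) ≤ B0 := by exact_mod_cast hB1
  refine ⟨N, B0 ^ g, Nat.one_le_pow _ _ hB1, ?_⟩
  intro a b c ha hb hc R hR x y hx hy hF hne n hn hAP
  have hu : a * y ^ p ≠ 0 := mul_ne_zero ha (pow_ne_zero _ hy)
  have hv : b * x ^ q ≠ 0 := mul_ne_zero hb (pow_ne_zero _ hx)
  obtain ⟨W, hW⟩ : ∃ W : ℝ, W = max |((a * y ^ p : ℤ) : ℝ)| |((b * x ^ q : ℤ) : ℝ)| := ⟨_, rfl⟩
  have hWu : |((a * y ^ p : ℤ) : ℝ)| ≤ W := by rw [hW]; exact le_max_left _ _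
  have hWv : |((b * x ^ q : ℤ) : ℝ)| ≤ W := by rw [hW]; exact le_max_right _ _
  have hW1 : 1 ≤ W := by
    refine le_trans ?_ hWu
    have := Int.one_le_abs hu
    exact_mod_cast this
  have hW0 : 0 < W := by linarith
  obtain ⟨T, hT⟩ : ∃ T : ℝ, T = W ^ (1 / ((p:ℝ) * q)) := ⟨_, rfl⟩
  have hT1 : 1 ≤ T := by rw [hT]; exact Real.one_le_rpow hW1 (by positivity)
  have hT0 : 0 < T := by linarith
  have hTW : T ^ (p * q) = W := by
    rw [hT, ← Real.rpow_natCast, ← Real.rpow_mul hW0.le]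
    push_cast
    rw [one_div, inv_mul_cancel₀ hpq0.ne', Real.rpow_one]
  have hyT : |(y:ℝ)| ≤ T ^ q := by
    have h1 : |(y:ℝ)| ^ p ≤ (T ^ q) ^ p := by
      rw [← pow_mul, mul_comm q p, hTW]
      refine le_trans ?_ hWu
      push_cast
      rw [abs_mul, abs_pow]
      have h2 : (1:ℝ) ≤ |(a:ℝ)| := by
        have := Int.one_le_abs ha
        exact_mod_cast this
      have h3 : 0 ≤ |(y:ℝ)| ^ p := by positivity
      nlinarith
    exact le_of_pow_le_pow_left₀ (by omega) (by positivity) h1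
  have hxT : |(x:ℝ)| ≤ T ^ p := by
    have h1 : |(x:ℝ)| ^ q ≤ (T ^ p) ^ q := by
      rw [← pow_mul, hTW]
      refine le_trans ?_ hWv
      push_cast
      rw [abs_mul, abs_pow]
      have h2 : (1:ℝ) ≤ |(b:ℝ)| := by
        have := Int.one_le_abs hb
        exact_mod_cast this
      have h3 : 0 ≤ |(x:ℝ)| ^ q := by positivity
      nlinarith
    exact le_of_pow_le_pow_left₀ (by omega) (by positivity) h1
  have heval := eval_le R x y T hT1 p q (k * (p * q) - g) hxT hyT (fun m hm => by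
    have := hR m hm
    omega)
  have hdiff0 : (1:ℝ) ≤ |((a * y ^ p : ℤ) : ℝ) - ((b * x ^ q : ℤ) : ℝ)| := by
    have h1 : a * y ^ p - b * x ^ q ≠ 0 := sub_ne_zero.2 hne
    have := Int.one_le_abs h1
    have h2 : (1:ℝ) ≤ |((a * y ^ p - b * x ^ q : ℤ) : ℝ)| := by exact_mod_cast this
    rwa [Int.cast_sub] at h2
  have hpowk : |((a * y ^ p : ℤ) : ℝ) - ((b * x ^ q : ℤ) : ℝ)| ^ k ≤
      len R * T ^ (k * (p * q) - g) := by
    refine le_trans ?_ heval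
    have h1 : ((MvPolynomial.eval ![x, y] R : ℤ) : ℝ) =
        -((c : ℝ) * (((a * y ^ p : ℤ) : ℝ) - ((b * x ^ q : ℤ) : ℝ)) ^ k) := by
      have h2 : MvPolynomial.eval ![x, y] R = -(c * (a * y ^ p - b * x ^ q) ^ k) := by linarith
      rw [h2]
      push_cast
      ring
    rw [h1, abs_neg, abs_mul, abs_pow]
    have h2 : (1:ℝ) ≤ |(c:ℝ)| := by
      have := Int.one_le_abs hc
      exact_mod_cast this
    have h3 : 0 ≤ |((a * y ^ p : ℤ) : ℝ) - ((b * x ^ q : ℤ) : ℝ)| ^ k := by positivity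
    nlinarith
  have hlen : 1 ≤ len R := by
    by_contra hc0
    have h0 : len R = 0 := by omega
    rw [h0] at hpowk
    have h1 : (1:ℝ) ≤ |((a * y ^ p : ℤ) : ℝ) - ((b * x ^ q : ℤ) : ℝ)| ^ k := one_le_pow₀ hdiff0
    rw [Nat.cast_zero, zero_mul] at hpowk
    linarith
  have hgle : g ≤ k * (p * q) := by
    have hne0 : R.support.Nonempty := by
      rw [Finset.nonempty_iff_ne_empty]
      intro h0
      rw [len, h0, Finset.sum_empty] at hlen
      omega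
    obtain ⟨m, hm⟩ := hne0
    have := hR m hm
    omega
  obtain ⟨L, hL⟩ : ∃ L : ℝ, L = (len R : ℝ) := ⟨_, rfl⟩
  have hL1 : 1 ≤ L := by rw [hL]; exact_mod_cast hlen
  have hL0 : 0 < L := by linarith
  rw [← hL] at hpowk ⊢
  have hLκ0 : 0 < L ^ κ := Real.rpow_pos_of_pos hL0 _
  have hLκ1 : 1 ≤ L ^ κ := Real.one_le_rpow hL1 hκ0.le
  have hcastB : (((B0 ^ g : ℕ)) : ℝ) = (B0 : ℝ) ^ g := by push_cast; rfl
  rw [hcastB]
  have hBg : (1:ℝ) ≤ (B0 : ℝ) ^ g := one_le_pow₀ hBr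
  have hTg : T ^ g ≤ (B0:ℝ) ^ g * L ^ κ := by
    by_contra hcon
    rw [not_le] at hcon
    have hLT : L ^ κ ≤ T ^ g := by
      refine le_trans ?_ hcon.le
      nlinarith
    have hLT2 : L ≤ T ^ ((g:ℝ) * (1 / κ)) := by
      have h1 := Real.rpow_le_rpow hLκ0.le hLT hκ2.le
      rw [← Real.rpow_mul hL0.le, mul_one_div_cancel hκ0.ne', Real.rpow_one,
        ← Real.rpow_natCast, ← Real.rpow_mul hT0.le] at h1
      exact h1
    have hmain : |((a * y ^ p : ℤ) : ℝ) - ((b * x ^ q : ℤ) : ℝ)| ≤ W ^ (1 - δ) := by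
      have h1 : |((a * y ^ p : ℤ) : ℝ) - ((b * x ^ q : ℤ) : ℝ)| ^ k ≤ (W ^ (1 - δ)) ^ k := by
        calc |((a * y ^ p : ℤ) : ℝ) - ((b * x ^ q : ℤ) : ℝ)| ^ k
            ≤ L * T ^ (k * (p * q) - g) := hpowk
          _ ≤ T ^ ((g:ℝ) * (1 / κ)) * T ^ (k * (p * q) - g) := by gcongr
          _ = T ^ ((g:ℝ) * (1 / κ) + ((k * (p * q) - g : ℕ) : ℝ)) := by
              rw [Real.rpow_add hT0, Real.rpow_natCast]
          _ = (W ^ (1 - δ)) ^ k := by
              rw [← hTW, ← Real.rpow_natCast T (p * q), ← Real.rpow_mul hT0.le,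
                ← Real.rpow_natCast _ k, ← Real.rpow_mul hT0.le]
              congr 1
              rw [hδ, Nat.cast_sub hgle]
              push_cast
              field_simp
              ring
      exact le_of_pow_le_pow_left₀ (by omega) (Real.rpow_nonneg hW0.le _) h1
    have hfin := hN n hn (a * y ^ p) (b * x ^ q) hu hv hne hAP W hWu hWv (by
      rw [hW]
      rcases le_total |((a * y ^ p : ℤ) : ℝ)| |((b * x ^ q : ℤ) : ℝ)| with h | h
      · exact Or.inr (max_eq_right h).symm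
      · exact Or.inl (max_eq_left h).symm) hmain
    have hTle : T ≤ B0 := by
      calc T = T ^ 1 := (pow_one T).symm
        _ ≤ T ^ (p * q) := pow_le_pow_right₀ hT1 hpq
        _ = W := hTW
        _ ≤ B0 := hfin
    have h2 : T ^ g ≤ (B0:ℝ) ^ g := pow_le_pow_left₀ hT0.le hTle g
    nlinarith
  constructor
  · calc |(x:ℝ)| ^ g ≤ (T ^ p) ^ g := pow_le_pow_left₀ (abs_nonneg _) hxT g
      _ = (T ^ g) ^ p := by rw [← pow_mul, ← pow_mul, mul_comm]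
      _ ≤ ((B0:ℝ) ^ g * L ^ κ) ^ p := pow_le_pow_left₀ (by positivity) hTg p
  · calc |(y:ℝ)| ^ g ≤ (T ^ q) ^ g := pow_le_pow_left₀ (abs_nonneg _) hyT g
      _ = (T ^ g) ^ q := by rw [← pow_mul, ← pow_mul, mul_comm]
      _ ≤ ((B0:ℝ) ^ g * L ^ κ) ^ q := pow_le_pow_left₀ (by positivity) hTg q

end Pool.Agent.U964.ML
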