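import Mathlib
import Pool.Agent.U964.LF.Core

/-!
A lower bound for linear forms in two logarithms of rational numbers which is linear in the
logarithmic heights of both numbers.
-/

set_option autoImplicit false

namespace Pool.Agent.U964.ML

open Finset Pool.Agent.U964.LF
open scoped Nat

/-- Core estimate. -/
theorem two_core (u1 v1 u2 v2 a b Y H L : ℕ) (D : ℝ) (hv1 : 1 ≤ v1) (hu1 : v1 < u1)
    (hu2 : 1 ≤ u2) (hv2 : 1 ≤ v2) (hab : Nat.Coprime a b)
    (hY : 1 ≤ Y) (hH : 1 ≤ H) (hL1 : 1 ≤ L)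
    (hu1H : Real.log u1 ≤ H) (hv1H : Real.log v1 ≤ H)
    (hu2Y : Real.log u2 ≤ Y) (hv2Y : Real.log v2 ≤ Y)
    (hb : 157 * H * L ≤ b) (hD1 : 1 ≤ D) (hbD : (b : ℝ) ≤ D * H) (haD : (a : ℝ) ≤ D * Y)
    (hL : 8 * (2 + Real.log D) ≤ L) :
    Real.exp (-(24492 * (H:ℝ) * Y * (L:ℝ) ^ 2)) <
      |b * Real.log ((u2 : ℝ) / v2) - a * Real.log ((u1 : ℝ) / v1)| := by
  classical
  by_contra hcon
  rw [not_lt] at hcon
  obtain ⟨α, hαdef⟩ : ∃ α : ℝ, α = (u1 : ℝ) / v1 := ⟨_, rfl⟩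
  obtain ⟨β, hβdef⟩ : ∃ β : ℝ, β = (u2 : ℝ) / v2 := ⟨_, rfl⟩
  rw [← hαdef, ← hβdef] at hcon
  have hv1r : (0:ℝ) < v1 := by exact_mod_cast hv1
  have hv2r : (0:ℝ) < v2 := by exact_mod_cast hv2
  have hu2r : (0:ℝ) < u2 := by exact_mod_cast hu2
  have hu1r : (0:ℝ) < u1 := by exact_mod_cast (by omega : 0 < u1)
  have hα1 : 1 < α := by
    rw [hαdef, one_lt_div hv1r]
    exact_mod_cast hu1
  have hα0 : 0 < α := by linarith
  have hβ0 : 0 < β := by rw [hβdef]; positivity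
  have hlogα : 0 < Real.log α := Real.log_pos hα1
  have hlogα' : Real.log α ≤ H := by
    rw [hαdef, Real.log_div hu1r.ne' hv1r.ne']
    have : 0 ≤ Real.log v1 := Real.log_nonneg (by exact_mod_cast hv1)
    linarith
  set Λ : ℝ := b * Real.log β - a * Real.log α with hΛ
  obtain ⟨M, hM⟩ : ∃ M : ℕ, M = 157 * H * L := ⟨_, rfl⟩
  obtain ⟨R, hR⟩ : ∃ R : ℕ, R = 157 * Y * L := ⟨_, rfl⟩
  obtain ⟨K, hK⟩ : ∃ K : ℕ, K = 24492 * H * Y * L := ⟨_, rfl⟩
  have hYr : (1:ℝ) ≤ Y := by exact_mod_cast hY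
  have hHr : (1:ℝ) ≤ H := by exact_mod_cast hH
  have hLr : (1:ℝ) ≤ L := by exact_mod_cast hL1
  have hMr : (M:ℝ) = 157 * H * L := by rw [hM]; push_cast; ring
  have hRr : (R:ℝ) = 157 * Y * L := by rw [hR]; push_cast; ring
  have hKr : (K:ℝ) = 24492 * H * Y * L := by rw [hK]; push_cast; ring
  have hHL : (1:ℝ) ≤ H * L := one_le_mul_of_one_le_of_one_le hHr hLr
  have hMpos : 1 ≤ M := by
    rw [hM]
    exact Nat.mul_pos (Nat.mul_pos (by norm_num) hH) hL1
  have hM1 : (1:ℝ) ≤ M := by exact_mod_cast hMpos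
  have hbM : (M:ℝ) ≤ b := by rw [hM]; exact_mod_cast hb
  have hb1 : 1 ≤ b := by
    rw [← hM] at hb
    omega
  have hbr : (1:ℝ) ≤ b := by exact_mod_cast hb1
  have har : (0:ℝ) ≤ a := Nat.cast_nonneg a
  have hLM : (L:ℝ) ≤ M := by
    rw [hMr]
    have : (L:ℝ) ≤ H * L := le_mul_of_one_le_left (by linarith) hHr
    nlinarith
  have hYL : (1:ℝ) ≤ Y * L := one_le_mul_of_one_le_of_one_le hYr hLr
  obtain ⟨T, hT⟩ : ∃ T : ℝ, T = H * Y * L := ⟨_, rfl⟩
  have hT1 : 1 ≤ T := by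
    rw [hT]
    exact one_le_mul_of_one_le_of_one_le (one_le_mul_of_one_le_of_one_le hHr hYr) hLr
  have hYLT : (Y:ℝ) * L ≤ T := by
    rw [hT, mul_assoc]
    exact le_mul_of_one_le_left (by linarith) hHr
  have hHLT : (H:ℝ) * L ≤ T := by
    have e : (H:ℝ) * Y * L = (H * L) * Y := by ring
    rw [hT, e]
    exact le_mul_of_one_le_right (by linarith) hYr
  have hK1 : 1 ≤ K := by
    rw [hK]
    exact Nat.mul_pos (Nat.mul_pos (Nat.mul_pos (by norm_num) hH) hY) hL1
  have hK1r : (1:ℝ) ≤ K := by exact_mod_cast hK1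
  -- the zero estimate
  have hzeroM : L * (K - 1) < R * M := by
    have h1 : L * K < R * M := by
      have e1 : L * K = (H * Y * (L * L)) * 24492 := by rw [hK]; ring
      have e2 : R * M = (H * Y * (L * L)) * 24649 := by rw [hR, hM]; ring
      rw [e1, e2]
      exact Nat.mul_lt_mul_of_pos_left (by norm_num)
        (Nat.mul_pos (Nat.mul_pos hH hY) (Nat.mul_pos hL1 hL1))
    exact lt_of_le_of_lt (Nat.mul_le_mul_left _ (Nat.sub_le _ _)) h1
  obtain ⟨j, hjT, hdet⟩ := exists_det_ne_zero (ι := Fin K × Fin L) (T := ℕ × ℕ)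
    (fun τ i => ((τ.1 * b + τ.2 * a : ℕ) : ℝ) ^ (i.1 : ℕ) * (α ^ τ.1 * β ^ τ.2) ^ (i.2 : ℕ))
    {τ | τ.1 < R + L ∧ τ.2 < M} (by
      intro c hc
      have := zero_estimate K L R M a b α β hα1 hβ0 hab (by rw [← hM] at hb; exact hb) hb1 hzeroM
        (fun k l => c (k, l)) (by
          intro r s hr hs
          have := hc (r, s) ⟨hr, hs⟩
          rw [← this, Fintype.sum_prod_type])
      ext ⟨k, l⟩
      exact congrFun (congrFun this k) l)
  obtain ⟨x, hx⟩ : ∃ x : Fin K × Fin L → ℕ, x = fun i' => (j i').1 * b + (j i').2 * a := ⟨_, rfl⟩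
  obtain ⟨w, hw⟩ : ∃ w : Fin K × Fin L → ℝ, w = fun i' => α ^ (j i').1 * β ^ (j i').2 := ⟨_, rfl⟩
  obtain ⟨E, hE⟩ : ∃ E : Matrix (Fin K × Fin L) (Fin K × Fin L) ℝ,
    E = Matrix.of fun i i' => (x i' : ℝ) ^ (i.1 : ℕ) * w i' ^ (i.2 : ℕ) := ⟨_, rfl⟩
  have hE' : (Matrix.of fun i i' : Fin K × Fin L => (((j i').1 * b + (j i').2 * a : ℕ) : ℝ) ^
      (i.1 : ℕ) * (α ^ (j i').1 * β ^ (j i').2) ^ (i.2 : ℕ)) = E := by
    rw [hE, hx, hw]
  rw [hE'] at hdet
  obtain ⟨N, hNdef⟩ : ∃ N : ℕ, N = K * L := ⟨_, rfl⟩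
  have hcard : Fintype.card (Fin K × Fin L) = N := by simp [hNdef]
  -- integrality
  obtain ⟨V, hV⟩ : ∃ V : ℝ, V = (v1 : ℝ) ^ (R + L) * (v2 : ℝ) ^ M := ⟨_, rfl⟩
  have hV1 : 1 ≤ V := by
    rw [hV]
    exact one_le_mul_of_one_le_of_one_le (one_le_pow₀ (by exact_mod_cast hv1))
      (one_le_pow₀ (by exact_mod_cast hv2))
  have hV0 : 0 < V := by linarith
  obtain ⟨Bn, hBn⟩ : ∃ Bn : Matrix (Fin K × Fin L) (Fin K × Fin L) ℝ,
    Bn = Matrix.of fun i i' => ((x i').choose (i.1 : ℕ) : ℝ) * w i' ^ (i.2 : ℕ) := ⟨_, rfl⟩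
  have hBE : Bn.det * ∏ i : Fin K × Fin L, (((i.1 : ℕ)! : ℝ)) = E.det := by
    rw [hBn, hE]
    exact det_choose K L x w
  have hBdet : Bn.det ≠ 0 := by
    intro h0
    rw [h0, zero_mul] at hBE
    exact hdet hBE.symm
  have hint : 1 ≤ |Bn.det| * (V ^ (L - 1)) ^ N := by
    obtain ⟨Z, hZ⟩ : ∃ Z : Matrix (Fin K × Fin L) (Fin K × Fin L) ℤ,
      Z = Matrix.of fun i i' => ((x i').choose (i.1 : ℕ) : ℤ) *
        ((u1 : ℤ) ^ (j i').1 * (v1 : ℤ) ^ (R + L - (j i').1) * ((u2 : ℤ) ^ (j i').2 *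
          (v2 : ℤ) ^ (M - (j i').2))) ^ (i.2 : ℕ) *
          ((v1 : ℤ) ^ (R + L) * (v2 : ℤ) ^ M) ^ (L - 1 - (i.2 : ℕ)) := ⟨_, rfl⟩
    have h1 : Z.map (Int.castRingHom ℝ) = (V ^ (L - 1)) • Bn := by
      ext i i'
      simp only [hZ, hBn, Matrix.map_apply, Matrix.of_apply, Matrix.smul_apply, smul_eq_mul]
      have hj1 : (j i').1 < R + L := (hjT i').1
      have hj2 : (j i').2 < M := (hjT i').2
      have hi2 : (i.2 : ℕ) < L := i.2.2
      have e1 : (v1 : ℝ) ^ (R + L - (j i').1) * (v1 : ℝ) ^ (j i').1 = (v1 : ℝ) ^ (R + L) := by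
        rw [← pow_add]
        congr 1
        omega
      have e2 : (v2 : ℝ) ^ (M - (j i').2) * (v2 : ℝ) ^ (j i').2 = (v2 : ℝ) ^ M := by
        rw [← pow_add]
        congr 1
        omega
      have e3 : (u1 : ℝ) ^ (j i').1 * (v1 : ℝ) ^ (R + L - (j i').1) * ((u2 : ℝ) ^ (j i').2 *
          (v2 : ℝ) ^ (M - (j i').2)) = V * w i' := by
        rw [hV, hw, hαdef, hβdef, ← e1, ← e2]
        simp only [div_pow]
        field_simp
      have e4 : V ^ (L - 1) = V ^ (i.2 : ℕ) * V ^ (L - 1 - (i.2 : ℕ)) := by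
        rw [← pow_add]
        congr 1
        omega
      simp only [map_mul, map_pow, eq_intCast, Int.cast_natCast]
      rw [e3, ← hV, mul_pow, e4]
      ring
    have h2 : ((Z.det : ℤ) : ℝ) = (V ^ (L - 1)) ^ N * Bn.det := by
      have h3 := RingHom.map_det (Int.castRingHom ℝ) Z
      rw [RingHom.mapMatrix_apply, h1, Matrix.det_smul, hcard] at h3
      simpa using h3
    have h3 : Z.det ≠ 0 := by
      intro h0
      rw [h0, Int.cast_zero] at h2
      rcases mul_eq_zero.1 h2.symm with h4 | h4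
      · exact absurd h4 (by positivity)
      · exact hBdet h4
    have h4 : (1:ℝ) ≤ |((Z.det : ℤ) : ℝ)| := by
      rw [← Int.cast_abs]
      exact_mod_cast Int.one_le_abs h3
    rw [h2, abs_mul, abs_of_pos (by positivity : 0 < (V ^ (L - 1)) ^ N)] at h4
    linarith [mul_comm ((V ^ (L - 1)) ^ N) |Bn.det|]
  -- analytic estimate
  obtain ⟨X, hX⟩ : ∃ X : ℝ, X = ((R:ℝ) + L) * b + M * a := ⟨_, rfl⟩
  have hXR : 157 * (Y:ℝ) * L * b ≤ X := by
    rw [hX, hRr]
    have h1 : 0 ≤ (L:ℝ) * b := by positivity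
    have h2 : 0 ≤ (M:ℝ) * a := by positivity
    nlinarith
  have hXK : (K:ℝ) ≤ X := by
    refine le_trans ?_ hXR
    rw [hKr]
    have h1 : 156 * (H:ℝ) ≤ b := by
      refine le_trans ?_ hbM
      rw [hMr]
      nlinarith
    calc 24492 * (H:ℝ) * Y * L = 157 * Y * L * (156 * H) := by ring
      _ ≤ 157 * Y * L * b := by gcongr
  have hX1 : 1 ≤ X := hK1r.trans hXK
  have hX0 : 0 < X := by linarith
  obtain ⟨c, hc⟩ : ∃ c : ℝ, c = Real.log α / b := ⟨_, rfl⟩
  have hb0 : (0:ℝ) < b := by linarith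
  have hc0 : 0 ≤ c := by rw [hc]; positivity
  have hEeq : E = Matrix.of fun i i' : Fin K × Fin L =>
      (fun i' => (x i' : ℝ)) i' ^ ((fun i : Fin K × Fin L => (i.1 : ℕ)) i) *
      Real.exp (((fun i : Fin K × Fin L => (i.2 : ℕ)) i : ℕ) *
        (c * (fun i' => (x i' : ℝ)) i' + (fun i' => ((j i').2 : ℝ) * Λ / b) i')) := by
    ext i i'
    simp only [hE, Matrix.of_apply]
    congr 1
    have h1 : c * (x i' : ℝ) + ((j i').2 : ℝ) * Λ / b
        = (j i').1 * Real.log α + (j i').2 * Real.log β := by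
      rw [hc, hΛ, hx]
      push_cast
      field_simp
      ring
    rw [h1, hw]
    rw [Real.exp_nat_mul, Real.exp_add, Real.exp_nat_mul, Real.exp_nat_mul, Real.exp_log hα0,
      Real.exp_log hβ0]
  have hschw := Pool.Agent.H440R2.schwarz_exp (ι := Fin K × Fin L) (fun i => (i.1 : ℕ))
    (fun i => (i.2 : ℕ)) (fun i' => (x i' : ℝ))
    (fun i' => ((j i').2 : ℝ) * Λ / b) c X (M * |Λ| / b) (Real.exp 1) hc0 (by linarith)
    (by positivity) (by rw [← Real.exp_zero]; exact Real.exp_le_exp.mpr (by norm_num))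
    (by
      intro i'
      have h1 : (j i').1 < R + L := (hjT i').1
      have h2 : (j i').2 < M := (hjT i').2
      rw [abs_of_nonneg (by positivity), hX, hx]
      push_cast
      have h1' : ((j i').1 : ℝ) ≤ R + L := by exact_mod_cast h1.le
      have h2' : ((j i').2 : ℝ) ≤ M := by exact_mod_cast h2.le
      exact add_le_add (mul_le_mul_of_nonneg_right h1' (by linarith))
        (mul_le_mul_of_nonneg_right h2' (by linarith)))
    (by
      intro i'
      have h2 : (j i').2 < M := (hjT i').2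
      have h2' : ((j i').2 : ℝ) ≤ M := by exact_mod_cast h2.le
      rw [abs_div, abs_mul, Nat.abs_cast, Nat.abs_cast]
      gcongr)
  rw [← hEeq, hcard] at hschw
  have hKL : (K:ℝ) * L = 24492 * (H:ℝ) * Y * (L:ℝ) ^ 2 := by rw [hKr]; ring
  have hNr : (N:ℝ) = 24492 * (H:ℝ) * Y * (L:ℝ) ^ 2 := by rw [hNdef]; push_cast; exact hKL
  have hNbig : (24492:ℝ) ≤ N := by
    rw [hNr]
    have : (1:ℝ) ≤ (H:ℝ) * Y * (L:ℝ) ^ 2 :=
      one_le_mul_of_one_le_of_one_le (one_le_mul_of_one_le_of_one_le hHr hYr)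
        (one_le_pow₀ hLr)
    nlinarith
  -- bound of W
  obtain ⟨W, hW⟩ : ∃ W : ℝ, W = c * (Real.exp 1 * X) + Real.exp 1 ^ N * (M * |Λ| / b) := ⟨_, rfl⟩
  have he1 : Real.exp 1 < 2.7182818286 := Real.exp_one_lt_d9
  have he0 : 0 < Real.exp 1 := Real.exp_pos 1
  have hexpN : Real.exp 1 ^ N * |Λ| ≤ 1 := by
    rw [← Real.exp_nat_mul, mul_one]
    calc Real.exp N * |Λ| ≤ Real.exp N *
          Real.exp (-(24492 * (H:ℝ) * Y * (L:ℝ) ^ 2)) := by gcongr
      _ = 1 := by rw [← Real.exp_add, hNr]; simp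
  have hcX : c * X ≤ 472 * T := by
    have h1 : c * X = (R + L) * Real.log α + M * (a / b * Real.log α) := by
      rw [hc, hX]
      field_simp
    have hβY : Real.log β ≤ Y := by
      rw [hβdef, Real.log_div hu2r.ne' hv2r.ne']
      have : 0 ≤ Real.log v2 := Real.log_nonneg (by exact_mod_cast hv2)
      linarith
    have hΛ1 : |Λ| ≤ 1 := by
      refine le_trans ?_ hexpN
      refine le_mul_of_one_le_left (abs_nonneg _) ?_
      rw [← Real.exp_nat_mul, mul_one]
      exact Real.one_le_exp (Nat.cast_nonneg _)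
    have h2 : (a:ℝ) / b * Real.log α ≤ 2 * Y := by
      have h3 : a * Real.log α ≤ b * (2 * Y) := by
        have h4 := (abs_le.1 hΛ1).1
        rw [hΛ] at h4
        have h5 : b * Real.log β ≤ b * Y := by gcongr
        have h6 : (1:ℝ) ≤ b * Y := one_le_mul_of_one_le_of_one_le hbr hYr
        linarith
      rw [div_mul_eq_mul_div, div_le_iff₀ hb0]
      linarith
    have h4 : ((R:ℝ) + L) * Real.log α ≤ (157 * Y * L + Y * L) * H := by
      rw [hRr]
      have h7 : (L:ℝ) ≤ Y * L := le_mul_of_one_le_left (by linarith) hYr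
      gcongr
    have h5 : (M:ℝ) * (a / b * Real.log α) ≤ M * (2 * Y) := by gcongr
    rw [h1]
    have e1 : (157 * (Y:ℝ) * L + Y * L) * H = 158 * T := by rw [hT]; ring
    have e2 : (M:ℝ) * (2 * Y) = 314 * T := by rw [hMr, hT]; ring
    rw [e1] at h4
    rw [e2] at h5
    linarith
  have hW12 : W ≤ 1285 * T := by
    have h1 : c * (Real.exp 1 * X) = Real.exp 1 * (c * X) := by ring
    have h2 : Real.exp 1 ^ N * (M * |Λ| / b) ≤ 1 := by
      have h3 : Real.exp 1 ^ N * (M * |Λ| / b) = (Real.exp 1 ^ N * |Λ|) * (M / b) := by ring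
      rw [h3]
      calc (Real.exp 1 ^ N * |Λ|) * (M / b) ≤ 1 * (M / b) := by gcongr
        _ ≤ 1 := by
          rw [one_mul, div_le_one hb0]
          exact hbM
    have h4 : Real.exp 1 * (c * X) ≤ 2.7182818286 * (472 * T) := by
      apply mul_le_mul he1.le hcX (by positivity) (by norm_num)
    rw [hW, h1]
    linarith
  have hW0 : 0 ≤ W := by rw [hW]; positivity
  have hlogV : Real.log V ≤ 315 * T := by
    rw [hV, Real.log_mul (by positivity) (by positivity), Real.log_pow, Real.log_pow]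
    push_cast
    have h1 : ((R:ℝ) + L) * Real.log v1 ≤ (157 * Y * L + Y * L) * H := by
      have h2 : 0 ≤ Real.log v1 := Real.log_nonneg (by exact_mod_cast hv1)
      rw [hRr]
      have h7 : (L:ℝ) ≤ Y * L := le_mul_of_one_le_left (by linarith) hYr
      exact mul_le_mul (by linarith) hv1H h2 (by positivity)
    have h2 : (M:ℝ) * Real.log v2 ≤ M * Y := by gcongr
    have e1 : (157 * (Y:ℝ) * L + Y * L) * H = 158 * T := by rw [hT]; ring
    have e2 : (M:ℝ) * Y = 157 * T := by rw [hMr, hT]; ring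
    rw [e1] at h1
    rw [e2] at h2
    linarith
  have hlogV0 : 0 ≤ Real.log V := Real.log_nonneg hV1
  -- each factor
  obtain ⟨G, hG⟩ : ∃ G : ℝ, G = Real.exp 1 * (Real.exp 1 * X) / K := ⟨_, rfl⟩
  have hK0 : (0:ℝ) < K := by linarith
  have hG0 : 0 < G := by rw [hG]; positivity
  have he1' : 1 ≤ Real.exp 1 := by
    rw [← Real.exp_zero]; exact Real.exp_le_exp.mpr (by norm_num)
  have hKX : (K:ℝ) ≤ Real.exp 1 * X := by nlinarith
  obtain ⟨F, hF⟩ : ∃ F : ℝ, F = G ^ K * Real.exp (L * W) := ⟨_, rfl⟩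
  have hF0 : 0 < F := by rw [hF]; positivity
  have hprod : ∏ i : Fin K × Fin L, ((Real.exp 1 * X) ^ (i.1 : ℕ) *
      Real.exp ((i.2 : ℕ) * (c * (Real.exp 1 * X) + Real.exp 1 ^ N * (M * |Λ| / b)))) ≤
      F ^ N * ∏ i : Fin K × Fin L, (((i.1 : ℕ)! : ℝ)) := by
    have h1 : F ^ N = ∏ _i : Fin K × Fin L, F := by
      rw [Finset.prod_const, Finset.card_univ, hcard]
    rw [h1, ← Finset.prod_mul_distrib]
    apply prod_le_prod
    · intro i _
      positivity
    · intro i _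
      have h2 := pow_div_factorial_le K (i.1 : ℕ) i.1.2.le hK1 (Real.exp 1 * X) hKX
      rw [div_le_iff₀ (by positivity), ← hG] at h2
      rw [← hW, hF]
      have h3 : Real.exp ((i.2 : ℕ) * W) ≤ Real.exp (L * W) := by
        apply Real.exp_le_exp.mpr
        apply mul_le_mul_of_nonneg_right _ hW0
        exact_mod_cast i.2.2.le
      calc (Real.exp 1 * X) ^ (i.1 : ℕ) * Real.exp ((i.2 : ℕ) * W)
          ≤ (G ^ K * ((i.1 : ℕ)! : ℝ)) * Real.exp (L * W) := by gcongr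
        _ = _ := by ring
  have hfac0 : 0 < ∏ i : Fin K × Fin L, (((i.1 : ℕ)! : ℝ)) := by positivity
  have hmain : Real.exp 1 ^ (N * (N - 1) / 2) ≤ (N:ℝ) ^ N * F ^ N * (V ^ L) ^ N := by
    have h1 : ∏ i : Fin K × Fin L, (((i.1 : ℕ)! : ℝ)) ≤ |E.det| * (V ^ (L - 1)) ^ N := by
      rw [← hBE, abs_mul, abs_of_pos hfac0]
      calc ∏ i : Fin K × Fin L, (((i.1 : ℕ)! : ℝ))
          = 1 * ∏ i : Fin K × Fin L, (((i.1 : ℕ)! : ℝ)) := by rw [one_mul]
        _ ≤ (|Bn.det| * (V ^ (L - 1)) ^ N) * ∏ i : Fin K × Fin L, (((i.1 : ℕ)! : ℝ)) := by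
            gcongr
        _ = _ := by ring
    have h2 : (V ^ (L - 1)) ^ N ≤ (V ^ L) ^ N := by
      apply pow_le_pow_left₀ (by positivity)
      exact pow_le_pow_right₀ hV1 (Nat.sub_le _ _)
    have h3 : (∏ i : Fin K × Fin L, (((i.1 : ℕ)! : ℝ))) * Real.exp 1 ^ (N * (N - 1) / 2) ≤
        ((N:ℝ) ^ N * F ^ N * (V ^ L) ^ N) * ∏ i : Fin K × Fin L, (((i.1 : ℕ)! : ℝ)) := by
      calc (∏ i : Fin K × Fin L, (((i.1 : ℕ)! : ℝ))) * Real.exp 1 ^ (N * (N - 1) / 2)
          ≤ (|E.det| * (V ^ L) ^ N) * Real.exp 1 ^ (N * (N - 1) / 2) := by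
            apply mul_le_mul_of_nonneg_right _ (by positivity)
            exact h1.trans (mul_le_mul_of_nonneg_left h2 (abs_nonneg _))
        _ = (|E.det| * Real.exp 1 ^ (N * (N - 1) / 2)) * (V ^ L) ^ N := by ring
        _ ≤ (N.factorial * ∏ i : Fin K × Fin L, ((Real.exp 1 * X) ^ (i.1 : ℕ) *
      Real.exp ((i.2 : ℕ) * (c * (Real.exp 1 * X) + Real.exp 1 ^ N * (M * |Λ| / b))))) *
            (V ^ L) ^ N := by gcongr
        _ ≤ ((N:ℝ) ^ N * (F ^ N * ∏ i : Fin K × Fin L, (((i.1 : ℕ)! : ℝ)))) * (V ^ L) ^ N := by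
            apply mul_le_mul_of_nonneg_right _ (by positivity)
            apply mul_le_mul _ hprod (by positivity) (by positivity)
            exact_mod_cast Nat.factorial_le_pow N
        _ = _ := by ring
    rw [mul_comm] at h3
    exact le_of_mul_le_mul_right h3 hfac0
  -- take logs
  have hNpos : (0:ℝ) < N := by linarith
  have hlogmain : ((N * (N - 1) / 2 : ℕ) : ℝ) ≤
      N * (Real.log N + Real.log F + L * Real.log V) := by
    have h1 := Real.log_le_log (by positivity) hmain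
    rw [Real.log_pow, Real.log_exp, mul_one, Real.log_mul (by positivity) (by positivity),
      Real.log_mul (by positivity) (by positivity),
      Real.log_pow, Real.log_pow, Real.log_pow, Real.log_pow] at h1
    linarith
  have hhalf : ((N * (N - 1) / 2 : ℕ) : ℝ) = N * (N - 1) / 2 := by
    have hN1 : 1 ≤ N := by exact_mod_cast (by linarith : (1:ℝ) ≤ N)
    rw [Nat.cast_div (even_iff_two_dvd.mp (Nat.even_mul_pred_self N)) (by norm_num)]
    push_cast [Nat.cast_sub hN1]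
    ring
  rw [hhalf] at hlogmain
  have hlog2 : (N - 1) / 2 ≤ Real.log N + Real.log F + L * Real.log V := by
    have : N * ((N - 1) / 2) ≤ N * (Real.log N + Real.log F + L * Real.log V) := by linarith
    exact le_of_mul_le_mul_left this hNpos
  have hD0 : (0:ℝ) < D := by linarith
  have hlogG : Real.log G ≤ 2 + Real.log D := by
    have h1 : G ≤ Real.exp 1 * (Real.exp 1 * D) := by
      rw [hG, div_le_iff₀ hK0]
      have h2 : X ≤ D * K := by
        rw [hX, hKr, hRr, hMr]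
        have h7 : (L:ℝ) ≤ Y * L := le_mul_of_one_le_left (by linarith) hYr
        have h3 : (157 * (Y:ℝ) * L + L) * b ≤ (158 * (Y * L)) * (D * H) := by
          apply mul_le_mul _ hbD (by linarith) (by positivity)
          linarith
        have h4 : 157 * (H:ℝ) * L * a ≤ 157 * H * L * (D * Y) := by gcongr
        have h5 : 0 ≤ D * (H * Y * L) := by positivity
        nlinarith
      calc Real.exp 1 * (Real.exp 1 * X) ≤ Real.exp 1 * (Real.exp 1 * (D * K)) := by gcongr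
        _ = _ := by ring
    have h2 := Real.log_le_log hG0 h1
    rw [Real.log_mul (by positivity) (by positivity), Real.log_mul (by positivity) (by positivity),
      Real.log_exp] at h2
    linarith
  have hlogF : Real.log F = K * Real.log G + L * W := by
    rw [hF, Real.log_mul (by positivity) (by positivity), Real.log_pow, Real.log_exp]
  have hA : K * Real.log G ≤ K * L / 8 := by
    have h9 : (0:ℝ) ≤ K := by positivity
    have h10 : K * (8 * Real.log G) ≤ K * (L:ℝ) :=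
      mul_le_mul_of_nonneg_left (by linarith) h9
    linarith
  have hB : L * W + L * Real.log V ≤ K * L / 12 := by
    have h1 : L * (W + Real.log V) ≤ L * (1600 * T) := by
      gcongr
      linarith
    have h2 : (K:ℝ) * L / 12 = L * (2041 * T) := by rw [hKr, hT]; ring
    have h3 : (L:ℝ) * (1600 * T) ≤ L * (2041 * T) := by gcongr; norm_num
    rw [h2]
    linarith
  have hC : Real.log N ≤ N / 100 + 4 := by
    have h1 : Real.log N = Real.log (N / 100) + Real.log 100 := by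
      rw [← Real.log_mul (by positivity) (by norm_num)]
      congr 1
      ring
    have h2 : Real.log (N / 100) ≤ N / 100 - 1 := Real.log_le_sub_one_of_pos (by positivity)
    have h3 : Real.log 100 ≤ 5 := by
      rw [Real.log_le_iff_le_exp (by norm_num)]
      have : (2.7182818283:ℝ) ^ 5 ≤ Real.exp 1 ^ 5 := by
        apply pow_le_pow_left₀ (by norm_num)
        exact Real.exp_one_gt_d9.le
      rw [← Real.exp_nat_mul] at this
      norm_num at this ⊢
      linarith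
    linarith
  have hKLN : (K:ℝ) * L = N := by rw [hNdef]; push_cast; ring
  rw [hlogF] at hlog2
  rw [hKLN] at hA hB
  linarith

end Pool.Agent.U964.ML
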