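import Mathlib
import Pool.Agent.U964.ML.Two
import Pool.Agent.U964.ML.Abs
import Pool.Agent.U964.ML.Curve

/-!
Explicit lower bounds for `|a Y ^ n - b X ^ n|` (helper964)
-/

set_option autoImplicit false

namespace Pool.Agent.U964.ML

open Finset
open Pool.Agent.U964.LF (log_one_add)

/-- the case `a < b` -/
theorem expl_lt (a b X Y n H : ℕ) (M δ E : ℝ) (ha : 1 ≤ a) (hab : a < b) (hH : 1 ≤ H)
    (haH : Real.log a ≤ H) (hbH : Real.log b ≤ H) (hX : 1 ≤ X) (hY : 1 ≤ Y) (hXM : (X : ℝ) ≤ M)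
    (hYM : (Y : ℝ) ≤ M) (hor : (X : ℝ) = M ∨ (Y : ℝ) = M) (hδ : 0 < δ) (hδ1 : δ ≤ 1)
    (hn0 : 1 ≤ n) (hn : 10 ^ 7 * H * (2 + Real.log n) ^ 2 ≤ δ * n) (hE : 1 ≤ E)
    (hclose : |(a : ℝ) * Y ^ n - b * X ^ n| ≤ E * M ^ ((n : ℝ) * (1 - δ))) :
    M ^ n ≤ (3 * E) ^ (4 / δ) := by
  by_contra hcon
  rw [not_le] at hcon
  have hXr : (1:ℝ) ≤ X := by exact_mod_cast hX
  have hYr : (1:ℝ) ≤ Y := by exact_mod_cast hY
  have har : (1:ℝ) ≤ a := by exact_mod_cast ha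
  have hbr : (1:ℝ) ≤ b := by exact_mod_cast (by omega : 1 ≤ b)
  have hHr : (1:ℝ) ≤ H := by exact_mod_cast hH
  have hnr : (1:ℝ) ≤ n := by exact_mod_cast hn0
  have hM1 : 1 ≤ M := hXr.trans hXM
  have hM0 : 0 < M := by linarith
  have hE3 : (3:ℝ) ≤ 3 * E := by linarith
  have h3E0 : (0:ℝ) < 3 * E := by linarith
  have hδn0 : 0 < (n:ℝ) * δ := by positivity
  -- `M ≥ 2`
  have h4δ : (1:ℝ) ≤ 4 / δ := by rw [le_div_iff₀ hδ]; linarith
  have hMn3 : (3:ℝ) < M ^ n := by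
    refine lt_of_le_of_lt ?_ hcon
    calc (3:ℝ) ≤ 3 * E := hE3
      _ = (3 * E) ^ (1:ℝ) := (Real.rpow_one _).symm
      _ ≤ (3 * E) ^ (4 / δ) := Real.rpow_le_rpow_of_exponent_le (by linarith) h4δ
  have hM2 : 2 ≤ M := by
    rcases hor with h | h
    · rw [← h] at hMn3 ⊢
      by_contra hc
      rw [not_le] at hc
      have h1 : X = 1 := by
        have : X < 2 := by exact_mod_cast hc
        omega
      rw [h1, Nat.cast_one, one_pow] at hMn3
      linarith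
    · rw [← h] at hMn3 ⊢
      by_contra hc
      rw [not_le] at hc
      have h1 : Y = 1 := by
        have : Y < 2 := by exact_mod_cast hc
        omega
      rw [h1, Nat.cast_one, one_pow] at hMn3
      linarith
  obtain ⟨lM, hlM⟩ : ∃ lM : ℝ, lM = Real.log M := ⟨_, rfl⟩
  have hlM2 : Real.log 2 ≤ lM := by rw [hlM]; exact Real.log_le_log (by norm_num) hM2
  have hl2 : (0.69:ℝ) < Real.log 2 := by have := Real.log_two_gt_d9; linarith
  have hlM0 : 0 < lM := by linarith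
  -- `3 E < M ^ (n δ / 4)`
  have hMe : ∀ t : ℝ, M ^ t = Real.exp (t * lM) := by
    intro t
    rw [Real.rpow_def_of_pos hM0, hlM, mul_comm]
  have hEM : 3 * E ≤ M ^ ((n:ℝ) * δ / 4) := by
    have h1 := Real.rpow_le_rpow (Real.rpow_nonneg h3E0.le _) hcon.le
      (by positivity : (0:ℝ) ≤ δ / 4)
    rw [← Real.rpow_mul h3E0.le, ← Real.rpow_natCast, ← Real.rpow_mul hM0.le] at h1
    have e1 : 4 / δ * (δ / 4) = 1 := by field_simp
    have e2 : (n:ℝ) * (δ / 4) = (n:ℝ) * δ / 4 := by ring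
    rwa [e1, Real.rpow_one, e2] at h1
  obtain ⟨z, hz⟩ : ∃ z : ℝ, z = M ^ (-(3 * ((n:ℝ) * δ) / 4)) := ⟨_, rfl⟩
  have hz0 : 0 < z := by rw [hz]; exact Real.rpow_pos_of_pos hM0 _
  have hz27 : z ≤ 1 / 27 := by
    have h1 : (27:ℝ) ≤ M ^ (3 * ((n:ℝ) * δ) / 4) := by
      have e1 : M ^ (3 * ((n:ℝ) * δ) / 4) = (M ^ ((n:ℝ) * δ / 4)) ^ 3 := by
        rw [← Real.rpow_natCast, ← Real.rpow_mul hM0.le]
        congr 1
        push_cast
        ring
      rw [e1]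
      have h2 : (3:ℝ) ≤ M ^ ((n:ℝ) * δ / 4) := hE3.trans hEM
      calc (27:ℝ) = 3 ^ 3 := by norm_num
        _ ≤ (M ^ ((n:ℝ) * δ / 4)) ^ 3 := pow_le_pow_left₀ (by norm_num) h2 3
    rw [hz, Real.rpow_neg hM0.le, ← one_div]
    exact one_div_le_one_div_of_le (by norm_num) h1
  have hclose2 : |(a : ℝ) * Y ^ n - b * X ^ n| ≤ M ^ n * z / 3 := by
    refine hclose.trans ?_
    have e1 : M ^ n * z = M ^ ((n:ℝ) * δ / 4) * M ^ ((n : ℝ) * (1 - δ)) := by
      rw [hz, ← Real.rpow_natCast, ← Real.rpow_add hM0, ← Real.rpow_add hM0]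
      congr 1
      ring
    rw [e1]
    have h1 : 0 < M ^ ((n : ℝ) * (1 - δ)) := Real.rpow_pos_of_pos hM0 _
    have h2 := mul_le_mul_of_nonneg_right hEM h1.le
    linarith
  obtain ⟨U, hU⟩ : ∃ U : ℝ, U = (a : ℝ) * Y ^ n := ⟨_, rfl⟩
  obtain ⟨V, hV⟩ : ∃ V : ℝ, V = (b : ℝ) * X ^ n := ⟨_, rfl⟩
  rw [← hU, ← hV] at hclose2
  have hMn0 : 0 < M ^ n := by positivity
  have hmin : 80 / 81 * M ^ n ≤ U ∧ 80 / 81 * M ^ n ≤ V := by
    have h1 : |U - V| ≤ M ^ n / 81 := by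
      refine hclose2.trans ?_
      have h3 := mul_le_mul_of_nonneg_left hz27 hMn0.le
      linarith
    have h2 := abs_le.1 h1
    rcases hor with h | h
    · have h3 : M ^ n ≤ V := by
        rw [hV, ← h]
        exact le_mul_of_one_le_left (by positivity) hbr
      constructor <;> linarith [h2.1, h2.2]
    · have h3 : M ^ n ≤ U := by
        rw [hU, ← h]
        exact le_mul_of_one_le_left (by positivity) har
      constructor <;> linarith [h2.1, h2.2]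
  have hU0 : 0 < U := by linarith [hmin.1]
  have hV0 : 0 < V := by linarith [hmin.2]
  obtain ⟨w, hw⟩ : ∃ w : ℝ, w = (U - V) / V := ⟨_, rfl⟩
  have hwabs : |w| ≤ z / 2 := by
    rw [hw, abs_div, abs_of_pos hV0, div_le_iff₀ hV0]
    calc |U - V| ≤ M ^ n * z / 3 := hclose2
      _ ≤ z / 2 * (80 / 81 * M ^ n) := by
          have h1 : 0 ≤ M ^ n * z := by positivity
          linarith
      _ ≤ z / 2 * V := by
          have := hmin.2
          gcongr
  have hw2 : |w| ≤ 1 / 2 := by linarith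
  have hlogw := log_one_add hw2
  have hUV : 1 + w = U / V := by rw [hw]; field_simp; ring
  rw [hUV] at hlogw
  have hY0 : (0:ℝ) < Y := by linarith
  have hX0 : (0:ℝ) < X := by linarith
  have ha0 : (0:ℝ) < a := by linarith
  have hb0 : (0:ℝ) < b := by linarith
  have hΛ : Real.log (U / V) = (n:ℝ) * Real.log ((Y:ℝ) / X) - (1:ℕ) * Real.log ((b:ℝ) / a) := by
    rw [hU, hV, Real.log_div (by positivity) (by positivity), Real.log_mul ha0.ne' (by positivity),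
      Real.log_mul hb0.ne' (by positivity), Real.log_pow, Real.log_pow,
      Real.log_div hY0.ne' hX0.ne', Real.log_div hb0.ne' ha0.ne', Nat.cast_one]
    ring
  have hup : |(n:ℝ) * Real.log ((Y:ℝ) / X) - (1:ℕ) * Real.log ((b:ℝ) / a)| ≤ z := by
    rw [← hΛ]
    linarith
  -- the lower bound
  obtain ⟨ln, hln⟩ : ∃ ln : ℝ, ln = Real.log n := ⟨_, rfl⟩
  have hln0 : 0 ≤ ln := by rw [hln]; exact Real.log_nonneg hnr
  obtain ⟨L, hL⟩ : ∃ L : ℕ, L = ⌈8 * (2 + ln)⌉₊ := ⟨_, rfl⟩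
  have hLlow : 8 * (2 + ln) ≤ L := by rw [hL]; exact Nat.le_ceil _
  have hLup : (L:ℝ) ≤ 8.5 * (2 + ln) := by
    have h1 : (L:ℝ) < 8 * (2 + ln) + 1 := by
      rw [hL]
      exact Nat.ceil_lt_add_one (by positivity)
    linarith
  have hL1 : 1 ≤ L := by
    have h1 : (1:ℝ) ≤ L := by linarith
    exact_mod_cast h1
  obtain ⟨Z, hZ⟩ : ∃ Z : ℕ, Z = ⌈lM⌉₊ := ⟨_, rfl⟩
  have hZlow : lM ≤ Z := by rw [hZ]; exact Nat.le_ceil _
  have hZup : (Z:ℝ) ≤ 2.45 * lM := by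
    have h1 : (Z:ℝ) < lM + 1 := by
      rw [hZ]
      exact Nat.ceil_lt_add_one hlM0.le
    linarith
  have hZ1 : 1 ≤ Z := by
    have h1 : (0:ℝ) < Z := by linarith
    exact_mod_cast h1
  rw [← hln] at hn
  have hs2 : (2:ℝ) ≤ 2 + ln := by linarith
  have hs3 : 2 + ln ≤ (2 + ln) ^ 2 := by
    rw [pow_two]
    exact le_mul_of_one_le_left (by linarith) (by linarith)
  have hδn : δ * (n:ℝ) ≤ n := mul_le_of_le_one_left (by linarith) hδ1
  have hnH2 : (10:ℝ) ^ 7 * (H * (2 + ln)) ≤ n := by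
    have h1 : (10:ℝ) ^ 7 * (H * (2 + ln)) ≤ 10 ^ 7 * (H * (2 + ln) ^ 2) := by gcongr
    have h2 : (10:ℝ) ^ 7 * (H * (2 + ln) ^ 2) = 10 ^ 7 * H * (2 + ln) ^ 2 := by ring
    linarith
  have hnHH : (H:ℝ) ≤ n := by
    have h1 : (H:ℝ) * 1 ≤ H * (2 + ln) := by
      have : (1:ℝ) ≤ 2 + ln := by linarith
      gcongr
    have h2 : 0 ≤ (H:ℝ) * (2 + ln) := by positivity
    linarith
  have h157 : 157 * H * L ≤ n := by
    have h1 : (157:ℝ) * H * L ≤ n := by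
      have h2 : 0 ≤ (H:ℝ) * (2 + ln) := by positivity
      calc (157:ℝ) * H * L ≤ 157 * H * (8.5 * (2 + ln)) := by gcongr
        _ = 1334.5 * (H * (2 + ln)) := by ring
        _ ≤ 10 ^ 7 * (H * (2 + ln)) := by linarith
        _ ≤ n := hnH2
    exact_mod_cast h1
  have hDle : (n:ℝ) / H ≤ n := div_le_self (by linarith) hHr
  have hD1 : 1 ≤ (n:ℝ) / H := by rw [le_div_iff₀ (by linarith)]; linarith
  have hlow := two_core b a Y X 1 n Z H L ((n:ℝ) / H) ha hab hY hX (Nat.coprime_one_left n) hZ1 hH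
    hL1 hbH haH
    ((Real.log_le_log hY0 hYM).trans (by rw [← hlM]; exact hZlow))
    ((Real.log_le_log hX0 hXM).trans (by rw [← hlM]; exact hZlow)) h157 hD1
    (by rw [div_mul_cancel₀ _ (by linarith : (H:ℝ) ≠ 0)])
    (by
      have h1 : (1:ℝ) ≤ Z := by exact_mod_cast hZ1
      have h2 : (1:ℝ) * 1 ≤ (n:ℝ) / H * Z := by gcongr
      push_cast
      linarith)
    (by
      refine le_trans ?_ hLlow
      have : Real.log ((n:ℝ) / H) ≤ ln := by
        rw [hln]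
        exact Real.log_le_log (by linarith) hDle
      linarith)
  have hlt := lt_of_lt_of_le hlow hup
  rw [hz, hMe, Real.exp_lt_exp] at hlt
  -- contradiction
  obtain ⟨Q, hQ⟩ : ∃ Q : ℝ, Q = (H:ℝ) * (2 + ln) ^ 2 * lM := ⟨_, rfl⟩
  have hpos : 0 < Q := by rw [hQ]; positivity
  have hA : 24492 * (H:ℝ) * Z * (L:ℝ) ^ 2 ≤ 24492 * H * (2.45 * lM) * (8.5 * (2 + ln)) ^ 2 := by
    gcongr
  have hB : 24492 * (H:ℝ) * (2.45 * lM) * (8.5 * (2 + ln)) ^ 2 = 4335390.15 * Q := by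
    rw [hQ]
    ring
  have hC : (7.5 * 10 ^ 6) * Q ≤ 3 * ((n:ℝ) * δ) / 4 * lM := by
    have h1 : (7.5 * 10 ^ 6) * (H * (2 + ln) ^ 2) ≤ 3 * ((n:ℝ) * δ) / 4 := by linarith
    have h2 := mul_le_mul_of_nonneg_right h1 hlM0.le
    rw [hQ]
    linarith
  rw [hB] at hA
  have hD : -(24492 * (H:ℝ) * Z * (L:ℝ) ^ 2) < -(3 * ((n:ℝ) * δ) / 4) * lM := hlt
  linarith

/-- **The explicit gap theorem.** -/
theorem expl (a b X Y n H : ℕ) (M δ E : ℝ) (ha : 1 ≤ a) (hb : 1 ≤ b) (hab : a ≠ b) (hH : 1 ≤ H)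
    (haH : Real.log a ≤ H) (hbH : Real.log b ≤ H) (hXM : (X : ℝ) ≤ M)
    (hYM : (Y : ℝ) ≤ M) (hor : (X : ℝ) = M ∨ (Y : ℝ) = M) (hM : 1 ≤ M) (hδ : 0 < δ) (hδ1 : δ ≤ 1)
    (hn0 : 1 ≤ n) (hn : 10 ^ 7 * H * (2 + Real.log n) ^ 2 ≤ δ * n) (hE : 1 ≤ E)
    (hclose : |(a : ℝ) * Y ^ n - b * X ^ n| ≤ E * M ^ ((n : ℝ) * (1 - δ))) :
    M ^ n ≤ (3 * E) ^ (4 / δ) := by
  have hM0 : 0 < M := by linarith
  have har : (1:ℝ) ≤ a := by exact_mod_cast ha
  have hbr : (1:ℝ) ≤ b := by exact_mod_cast hb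
  -- one coordinate zero
  have zero : M ^ n ≤ E * M ^ ((n : ℝ) * (1 - δ)) → M ^ n ≤ (3 * E) ^ (4 / δ) := by
    intro h
    have h0 : 0 < M ^ ((n : ℝ) * (1 - δ)) := Real.rpow_pos_of_pos hM0 _
    have h1 : M ^ ((n:ℝ) * δ) ≤ E := by
      have e1 : M ^ n = M ^ ((n:ℝ) * δ) * M ^ ((n : ℝ) * (1 - δ)) := by
        rw [← Real.rpow_natCast, ← Real.rpow_add hM0]
        congr 1
        ring
      rw [e1] at h
      exact le_of_mul_le_mul_right h h0
    calc M ^ n = (M ^ ((n:ℝ) * δ)) ^ (1 / δ) := by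
          rw [← Real.rpow_mul hM0.le, ← Real.rpow_natCast]
          congr 1
          field_simp
      _ ≤ E ^ (1 / δ) := Real.rpow_le_rpow (Real.rpow_nonneg hM0.le _) h1 (by positivity)
      _ ≤ (3 * E) ^ (1 / δ) := Real.rpow_le_rpow (by linarith) (by linarith) (by positivity)
      _ ≤ (3 * E) ^ (4 / δ) := by
          refine Real.rpow_le_rpow_of_exponent_le (by linarith) ?_
          gcongr
          norm_num
  rcases Nat.eq_zero_or_pos X with hX | hX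
  · have hYM' : (Y:ℝ) = M := by
      rcases hor with h | h
      · rw [hX, Nat.cast_zero] at h; linarith
      · exact h
    rw [hX, Nat.cast_zero, zero_pow (by omega), mul_zero, sub_zero, hYM'] at hclose
    apply zero
    refine le_trans ?_ hclose
    rw [abs_of_nonneg (by positivity)]
    have : (0:ℝ) ≤ M ^ n := by positivity
    nlinarith
  rcases Nat.eq_zero_or_pos Y with hY | hY
  · have hXM' : (X:ℝ) = M := by
      rcases hor with h | h
      · exact h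
      · rw [hY, Nat.cast_zero] at h; linarith
    rw [hY, Nat.cast_zero, zero_pow (by omega), mul_zero, zero_sub, abs_neg, hXM'] at hclose
    apply zero
    refine le_trans ?_ hclose
    rw [abs_of_nonneg (by positivity)]
    have : (0:ℝ) ≤ M ^ n := by positivity
    nlinarith
  rcases Nat.lt_or_ge a b with h | h
  · exact expl_lt a b X Y n H M δ E ha h hH haH hbH hX hY hXM hYM hor hδ hδ1 hn0 hn hE hclose
  · refine expl_lt b a Y X n H M δ E hb (lt_of_le_of_ne h (Ne.symm hab)) hH hbH haH hY hX hYM hXM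
      hor.symm hδ hδ1 hn0 hn hE ?_
    rw [abs_sub_comm]
    exact hclose

end Pool.Agent.U964.ML
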