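import Mathlib
import Pool.Agent.U964.ML.Trip

/-!
# The truncated inequality for finite sets of rational points of the line, at the points with one exponent
-/

set_option autoImplicit false

namespace Pool.Agent.U964.ML

open Finset

/-- the linear form vanishing at `(α.1 : α.2)` -/
def lf (α : ℤ × ℤ) (u v : ℤ) : ℤ := u * α.2 - v * α.1

/-- the sum of the logarithms of the primes outside `S` which divide `w` -/
noncomputable def cnt (S : Finset ℕ) (w : ℕ) : ℝ := ∑ p ∈ w.primeFactors with p ∉ S, Real.log p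

theorem cnt_nonneg (S : Finset ℕ) (w : ℕ) : 0 ≤ cnt S w :=
  Finset.sum_nonneg fun _ _ => Real.log_natCast_nonneg _

theorem log_root (S : Finset ℕ) (n k w : ℕ)
    (hk : ∀ q : ℕ, q.Prime → q ∉ S → w.factorization q ≤ k * n) :
    Real.log (root S n w) ≤ k * cnt S w := by
  classical
  have h1 : root S n w ≤ ∏ q ∈ w.primeFactors with q ∉ S, q ^ k := by
    refine Finset.prod_le_prod' fun q hq => ?_
    rw [Finset.mem_filter] at hq
    have hp := Nat.prime_of_mem_primeFactors hq.1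
    refine Nat.pow_le_pow_right hp.pos ?_
    exact Nat.div_le_of_le_mul (by rw [mul_comm]; exact hk q hp hq.2)
  have h2 : Real.log ((∏ q ∈ w.primeFactors with q ∉ S, q ^ k : ℕ) : ℝ) = k * cnt S w := by
    rw [Nat.cast_prod, Real.log_prod (fun q hq => by
      rw [Finset.mem_filter] at hq
      have := (Nat.prime_of_mem_primeFactors hq.1).pos
      positivity), cnt, Finset.mul_sum]
    refine Finset.sum_congr rfl fun q _ => ?_
    rw [Nat.cast_pow, Real.log_pow]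
  rw [← h2]
  refine Real.log_le_log (by exact_mod_cast root_pos S n w) ?_
  exact_mod_cast h1

/-- the relation of three linear forms -/
theorem lf_rel (a b c : ℤ × ℤ) (u v : ℤ) :
    (a.1 * b.2 - a.2 * b.1) * lf c u v =
      -((b.1 * c.2 - b.2 * c.1) * lf a u v + (c.1 * a.2 - c.2 * a.1) * lf b u v) := by
  unfold lf
  ring

/-- two different linear forms are not both small -/
theorem lf_two (a b : ℤ × ℤ) (A : ℝ) (hA : |(a.1 : ℝ)| ≤ A) (hA2 : |(a.2 : ℝ)| ≤ A)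
    (hB : |(b.1 : ℝ)| ≤ A) (hB2 : |(b.2 : ℝ)| ≤ A) (hab : a.1 * b.2 - a.2 * b.1 ≠ 0) (u v : ℤ) (M : ℝ)
    (h1 : |(lf a u v : ℝ)| ≤ M) (h2 : |(lf b u v : ℝ)| ≤ M) :
    max |(u : ℝ)| |(v : ℝ)| ≤ 2 * A * M := by
  have hM : 0 ≤ M := (abs_nonneg _).trans h1
  have hA0 : 0 ≤ A := (abs_nonneg _).trans hA
  have hR : (1:ℝ) ≤ |((a.1 * b.2 - a.2 * b.1 : ℤ) : ℝ)| := by
    have := Int.one_le_abs hab
    exact_mod_cast this
  have e1 : ((a.1 * b.2 - a.2 * b.1 : ℤ) : ℝ) * u = -((b.1:ℝ) * lf a u v - a.1 * lf b u v) := by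
    unfold lf
    push_cast
    ring
  have e2 : ((a.1 * b.2 - a.2 * b.1 : ℤ) : ℝ) * v = -((b.2:ℝ) * lf a u v - a.2 * lf b u v) := by
    unfold lf
    push_cast
    ring
  have b1 : ∀ s t : ℝ, |s| ≤ A → |t| ≤ A → |s * lf a u v - t * lf b u v| ≤ 2 * A * M := by
    intro s t hs ht
    calc |s * lf a u v - t * lf b u v| ≤ |s * lf a u v| + |t * lf b u v| := abs_sub _ _
      _ = |s| * |(lf a u v : ℝ)| + |t| * |(lf b u v : ℝ)| := by rw [abs_mul, abs_mul]
      _ ≤ A * M + A * M := by gcongr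
      _ = _ := by ring
  refine max_le ?_ ?_
  · calc |(u:ℝ)| ≤ |((a.1 * b.2 - a.2 * b.1 : ℤ) : ℝ)| * |(u:ℝ)| :=
          le_mul_of_one_le_left (abs_nonneg _) hR
      _ = |(b.1:ℝ) * lf a u v - a.1 * lf b u v| := by rw [← abs_mul, e1, abs_neg]
      _ ≤ _ := b1 _ _ hB hA
  · calc |(v:ℝ)| ≤ |((a.1 * b.2 - a.2 * b.1 : ℤ) : ℝ)| * |(v:ℝ)| :=
          le_mul_of_one_le_left (abs_nonneg _) hR
      _ = |(b.2:ℝ) * lf a u v - a.2 * lf b u v| := by rw [← abs_mul, e2, abs_neg]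
      _ ≤ _ := b1 _ _ hB2 hA2

/-- the bound for one form `c` in terms of two forms `a`, `b` with one exponent -/
theorem one_form (S : Finset ℕ) (a b c : ℤ × ℤ) (hab : a.1 * b.2 - a.2 * b.1 ≠ 0)
    (hbc : b.1 * c.2 - b.2 * c.1 ≠ 0) (hca : c.1 * a.2 - c.2 * a.1 ≠ 0) (η : ℝ) (hη : 0 < η)
    (hη1 : η < 1) : ∃ (C : ℝ) (N : ℕ), ∀ u v : ℤ, lf a u v ≠ 0 → lf b u v ≠ 0 → lf c u v ≠ 0 →
      ∀ H : ℝ, 1 ≤ H → H = max |(u : ℝ)| |(v : ℝ)| → ∀ n : ℕ, 1 ≤ n →
      (∀ q : ℕ, q.Prime → q ∉ S → n ∣ (lf a u v).natAbs.factorization q) →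
      (∀ q : ℕ, q.Prime → q ∉ S → n ∣ (lf b u v).natAbs.factorization q) →
      (N ≤ n → (1 - η) * Real.log H - C ≤ Real.log |(lf c u v : ℝ)|) ∧
      (1 - η) * Real.log H - C ≤ Real.log |(lf c u v : ℝ)| +
        (Real.log (root S n (lf a u v).natAbs) + Real.log (root S n (lf b u v).natAbs)) := by
  obtain ⟨α, hα⟩ : ∃ α : ℕ, α = (b.1 * c.2 - b.2 * c.1).natAbs := ⟨_, rfl⟩
  obtain ⟨β, hβ⟩ : ∃ β : ℕ, β = (c.1 * a.2 - c.2 * a.1).natAbs := ⟨_, rfl⟩
  obtain ⟨δ, hδ⟩ : ∃ δ : ℕ, δ = (a.1 * b.2 - a.2 * b.1).natAbs := ⟨_, rfl⟩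
  have hα1 : 1 ≤ α := by rw [hα]; exact Int.natAbs_pos.2 hbc
  have hβ1 : 1 ≤ β := by rw [hβ]; exact Int.natAbs_pos.2 hca
  have hδ1 : 1 ≤ δ := by rw [hδ]; exact Int.natAbs_pos.2 hab
  obtain ⟨κ, N, hκ, h⟩ := uni S α β hα1 hβ1 η hη
  obtain ⟨A, hA⟩ : ∃ A : ℝ, A = |(a.1:ℝ)| + |(a.2:ℝ)| + |(b.1:ℝ)| + |(b.2:ℝ)| + 1 := ⟨_, rfl⟩
  have ha1 := abs_nonneg (a.1:ℝ)
  have ha2 := abs_nonneg (a.2:ℝ)
  have hb1 := abs_nonneg (b.1:ℝ)
  have hb2 := abs_nonneg (b.2:ℝ)
  have hA1 : 1 ≤ A := by rw [hA]; linarith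
  have hA0 : 0 < A := by linarith
  have hαr : (1:ℝ) ≤ α := by exact_mod_cast hα1
  have hβr : (1:ℝ) ≤ β := by exact_mod_cast hβ1
  have hδr : (1:ℝ) ≤ δ := by exact_mod_cast hδ1
  obtain ⟨m, hm⟩ : ∃ m : ℝ, m = min 1 κ / (δ * (2 * A)) := ⟨_, rfl⟩
  have hm1 : 0 < min 1 κ := lt_min one_pos hκ
  have hm0 : 0 < m := by rw [hm]; positivity
  refine ⟨-Real.log m, N, ?_⟩
  intro u v hau hbu hcu H hH1 hH n hn hxo hyo
  have hH0 : 0 < H := by linarith
  obtain ⟨x, hx⟩ : ∃ x : ℕ, x = (lf a u v).natAbs := ⟨_, rfl⟩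
  obtain ⟨y, hy⟩ : ∃ y : ℕ, y = (lf b u v).natAbs := ⟨_, rfl⟩
  rw [← hx] at hxo ⊢
  rw [← hy] at hyo ⊢
  have hx1 : 1 ≤ x := by rw [hx]; exact Int.natAbs_pos.2 hau
  have hy1 : 1 ≤ y := by rw [hy]; exact Int.natAbs_pos.2 hbu
  have hxr : (x:ℝ) = |(lf a u v : ℝ)| := by rw [hx, Nat.cast_natAbs, Int.cast_abs]
  have hyr : (y:ℝ) = |(lf b u v : ℝ)| := by rw [hy, Nat.cast_natAbs, Int.cast_abs]
  have hαr' : (α:ℝ) = |((b.1 * c.2 - b.2 * c.1 : ℤ) : ℝ)| := by
    rw [hα, Nat.cast_natAbs, Int.cast_abs]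
  have hβr' : (β:ℝ) = |((c.1 * a.2 - c.2 * a.1 : ℤ) : ℝ)| := by
    rw [hβ, Nat.cast_natAbs, Int.cast_abs]
  have hδr' : (δ:ℝ) = |((a.1 * b.2 - a.2 * b.1 : ℤ) : ℝ)| := by
    rw [hδ, Nat.cast_natAbs, Int.cast_abs]
  obtain ⟨F, hF⟩ : ∃ F : ℝ, F = |(lf c u v : ℝ)| := ⟨_, rfl⟩
  have hF1 : 1 ≤ F := by
    rw [hF]
    have := Int.one_le_abs hcu
    exact_mod_cast this
  have hF0 : 0 < F := by linarith
  rw [← hF]
  obtain ⟨W, hW⟩ : ∃ W : ℝ, W = max (x:ℝ) y := ⟨_, rfl⟩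
  have hxW : (x:ℝ) ≤ W := by rw [hW]; exact le_max_left _ _
  have hyW : (y:ℝ) ≤ W := by rw [hW]; exact le_max_right _ _
  have hor : (x:ℝ) = W ∨ (y:ℝ) = W := by
    rw [hW]
    rcases le_total (x:ℝ) y with h1 | h1
    · exact Or.inr (max_eq_right h1).symm
    · exact Or.inl (max_eq_left h1).symm
  have hHW : H ≤ 2 * A * W := by
    rw [hH]
    exact lf_two a b A (by rw [hA]; linarith) (by rw [hA]; linarith) (by rw [hA]; linarith)
      (by rw [hA]; linarith) hab u v W (by rw [← hxr]; exact hxW) (by rw [← hyr]; exact hyW)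
  have hW1 : 1 ≤ W := by
    have : (1:ℝ) ≤ x := by exact_mod_cast hx1
    linarith
  have hW0 : 0 < W := by linarith
  obtain ⟨P, hP⟩ : ∃ P : ℝ, P = ((b.1 * c.2 - b.2 * c.1 : ℤ) : ℝ) * lf a u v := ⟨_, rfl⟩
  obtain ⟨Q, hQ⟩ : ∃ Q : ℝ, Q = ((c.1 * a.2 - c.2 * a.1 : ℤ) : ℝ) * lf b u v := ⟨_, rfl⟩
  have hPa : |P| = α * x := by rw [hP, abs_mul, ← hαr', ← hxr]
  have hQa : |Q| = β * y := by rw [hQ, abs_mul, ← hβr', ← hyr]
  have hrel : (δ:ℝ) * F = |P + Q| := by
    have h1 := congrArg (fun z : ℤ => |(z:ℝ)|) (lf_rel a b c u v)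
    simp only [Int.cast_mul, abs_mul, Int.cast_neg, abs_neg] at h1
    rw [hδr', hF, h1, hP, hQ]
    push_cast
    ring_nf
  have hlow : ∀ r : ℝ, 1 ≤ r → κ * W ^ (1 - η) ≤ |(α : ℝ) * x - β * y| * r ∨ α * x = β * y →
      (1 - η) * Real.log H + Real.log m ≤ Real.log F + Real.log r := by
    intro r hr hcase
    have hr0 : 0 < r := by linarith
    have hWη0 : 0 < W ^ (1 - η) := Real.rpow_pos_of_pos hW0 _
    have key : min 1 κ * W ^ (1 - η) ≤ δ * F * r := by
      rcases hcase with h1 | h1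
      · calc min 1 κ * W ^ (1 - η) ≤ κ * W ^ (1 - η) := by
              gcongr
              exact min_le_right _ _
          _ ≤ |(α : ℝ) * x - β * y| * r := h1
          _ ≤ |P + Q| * r := by
              refine mul_le_mul_of_nonneg_right ?_ hr0.le
              rw [← hPa, ← hQa]
              have h2 := abs_abs_sub_abs_le P (-Q)
              rw [abs_neg, sub_neg_eq_add] at h2
              exact h2
          _ = _ := by rw [hrel]
      · have h2 : |P| = |Q| := by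
          rw [hPa, hQa]
          exact_mod_cast h1
        have h3 : P + Q ≠ 0 := by
          intro h0
          rw [h0, abs_zero] at hrel
          have : 0 < (δ:ℝ) * F := by positivity
          linarith
        have h4 : P = Q := by
          rcases abs_eq_abs.1 h2 with h5 | h5
          · exact h5
          · exact absurd (by rw [h5]; ring) h3
        have h5 : |P + Q| = |P| + |Q| := by rw [h4, ← two_mul, abs_mul]; norm_num; ring
        have h6 : W ≤ |P| + |Q| := by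
          rw [hPa, hQa]
          have hx0 : (0:ℝ) ≤ x := Nat.cast_nonneg _
          have hy0 : (0:ℝ) ≤ y := Nat.cast_nonneg _
          rcases hor with h7 | h7
          · nlinarith
          · nlinarith
        have h7 : W ^ (1 - η) ≤ W := by
          calc W ^ (1 - η) ≤ W ^ (1:ℝ) := Real.rpow_le_rpow_of_exponent_le hW1 (by linarith)
            _ = W := Real.rpow_one _
        calc min 1 κ * W ^ (1 - η) ≤ 1 * W := by
              refine mul_le_mul (min_le_left _ _) h7 hWη0.le zero_le_one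
          _ = W := one_mul _
          _ ≤ δ * F := by rw [hrel, h5]; exact h6
          _ ≤ δ * F * r := le_mul_of_one_le_right (by positivity) hr
    have hHη : H ^ (1 - η) ≤ (2 * A) * W ^ (1 - η) := by
      calc H ^ (1 - η) ≤ (2 * A * W) ^ (1 - η) := Real.rpow_le_rpow hH0.le hHW (by linarith)
        _ = (2 * A) ^ (1 - η) * W ^ (1 - η) := Real.mul_rpow (by positivity) hW0.le
        _ ≤ (2 * A) * W ^ (1 - η) := by
            gcongr
            calc (2 * A) ^ (1 - η) ≤ (2 * A) ^ (1:ℝ) :=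
                  Real.rpow_le_rpow_of_exponent_le (by linarith) (by linarith)
              _ = 2 * A := Real.rpow_one _
    have hfin : m * H ^ (1 - η) ≤ F * r := by
      calc m * H ^ (1 - η) ≤ m * ((2 * A) * W ^ (1 - η)) := by gcongr
        _ = (min 1 κ * W ^ (1 - η)) / δ := by rw [hm]; field_simp
        _ ≤ (δ * F * r) / δ := by gcongr
        _ = F * r := by field_simp
    have h8 := Real.log_le_log (by positivity) hfin
    rw [Real.log_mul hm0.ne' (Real.rpow_pos_of_pos hH0 _).ne', Real.log_rpow hH0,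
      Real.log_mul hF0.ne' hr0.ne'] at h8
    linarith
  have hrx : (1:ℝ) ≤ root S n x := by exact_mod_cast root_pos S n x
  have hry : (1:ℝ) ≤ root S n y := by exact_mod_cast root_pos S n y
  constructor
  · intro hN
    have h1 := hlow 1 le_rfl (by
      by_cases hxy : α * x = β * y
      · exact Or.inr hxy
      · left
        rw [mul_one]
        exact (h n hn x y hx1 hy1 hxy hxo hyo W hxW hyW hor).1 hN)
    rw [Real.log_one] at h1
    linarith
  · have h1 := hlow ((root S n x : ℝ) * root S n y) (by nlinarith) (by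
      by_cases hxy : α * x = β * y
      · exact Or.inr hxy
      · exact Or.inl (h n hn x y hx1 hy1 hxy hxo hyo W hxW hyW hor).2)
    rw [Real.log_mul (by linarith) (by linarith)] at h1
    linarith

end Pool.Agent.U964.ML
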