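import Mathlib
import Pool.Agent.U964.ML.Uni

/-!
# Two numbers whose quotient is an `n`-th power up to `S` are not close, uniformly in `n`
-/

set_option autoImplicit false

namespace Pool.Agent.U964.ML

open Finset

theorem root_rpow (S : Finset ℕ) (n w : ℕ) (hn : 1 ≤ n) (hw : w ≠ 0)
    (hout : ∀ q : ℕ, q.Prime → q ∉ S → n ∣ w.factorization q) :
    (root S n w : ℝ) ≤ (w : ℝ) ^ (1 / (n : ℝ)) := by
  obtain ⟨s, d, hs, hd, -, -, h⟩ := root_dec S n w hn hw hout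
  have hnr : (0:ℝ) < n := by exact_mod_cast hn
  have h1 : root S n w ^ n ≤ w := by
    conv_rhs => rw [h]
    rw [mul_pow, ← mul_assoc]
    exact Nat.le_mul_of_pos_left _ (Nat.mul_pos hs (pow_pos hd n))
  have h2 : (root S n w : ℝ) ^ n ≤ w := by exact_mod_cast h1
  have h3 : (0:ℝ) ≤ root S n w := Nat.cast_nonneg _
  have h4 := Real.rpow_le_rpow (by positivity) h2 (by positivity : (0:ℝ) ≤ 1 / (n:ℝ))
  rwa [← Real.rpow_natCast, ← Real.rpow_mul h3, mul_one_div_cancel hnr.ne', Real.rpow_one] at h4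

/-- **The gap between two numbers with a power quotient, uniformly in the exponent.** -/
theorem gap_all (S : Finset ℕ) (η : ℝ) (hη : 0 < η) : ∃ κ : ℝ, 0 < κ ∧ ∀ n : ℕ, 1 ≤ n →
    ∀ X Y : ℕ, 1 ≤ X → 1 ≤ Y → X ≠ Y →
      (∀ q : ℕ, q.Prime → q ∉ S → (n : ℤ) ∣ (X.factorization q : ℤ) - Y.factorization q) →
      κ * (max (X : ℝ) Y) ^ (1 - 2 / (n : ℝ) - η) ≤ |(X : ℝ) - Y| := by
  obtain ⟨κ, N, hκ, h⟩ := uni S 1 1 le_rfl le_rfl η hη
  refine ⟨κ, hκ, ?_⟩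
  intro n hn X Y hX hY hne hdvd
  have hnr : (0:ℝ) < n := by exact_mod_cast hn
  obtain ⟨g, x, y, hg, hcop, hXg, hYg⟩ := Nat.exists_coprime' (m := X) (n := Y)
    (Nat.gcd_pos_of_pos_left _ hX)
  have hg0 : g ≠ 0 := by omega
  have hx0 : x ≠ 0 := by
    rintro rfl
    omega
  have hy0 : y ≠ 0 := by
    rintro rfl
    omega
  have hxy : x ≠ y := by
    rintro rfl
    exact hne (by rw [hXg, hYg])
  have hfac : ∀ q : ℕ, q.Prime → x.factorization q = 0 ∨ y.factorization q = 0 := by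
    intro q hq
    by_cases hqx : q ∣ x
    · right
      exact Nat.factorization_eq_zero_of_not_dvd fun hc => by
        have := Nat.dvd_gcd hqx hc
        rw [hcop] at this
        exact hq.one_lt.ne' (Nat.dvd_one.1 this)
    · left
      exact Nat.factorization_eq_zero_of_not_dvd hqx
  have hdiff : ∀ q : ℕ, (X.factorization q : ℤ) - Y.factorization q =
      (x.factorization q : ℤ) - y.factorization q := by
    intro q
    rw [hXg, hYg, Nat.factorization_mul hx0 hg0, Nat.factorization_mul hy0 hg0, Finsupp.add_apply,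
      Finsupp.add_apply]
    push_cast
    ring
  have hxo : ∀ q : ℕ, q.Prime → q ∉ S → n ∣ x.factorization q := by
    intro q hq hqS
    have h1 := hdvd q hq hqS
    rw [hdiff] at h1
    rcases hfac q hq with h2 | h2
    · rw [h2]; exact dvd_zero _
    · rw [h2, Nat.cast_zero, sub_zero] at h1
      exact_mod_cast h1
  have hyo : ∀ q : ℕ, q.Prime → q ∉ S → n ∣ y.factorization q := by
    intro q hq hqS
    have h1 := hdvd q hq hqS
    rw [hdiff] at h1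
    rcases hfac q hq with h2 | h2
    · rw [h2, Nat.cast_zero, zero_sub, dvd_neg] at h1
      exact_mod_cast h1
    · rw [h2]; exact dvd_zero _
  obtain ⟨W, hW⟩ : ∃ W : ℝ, W = max (x:ℝ) y := ⟨_, rfl⟩
  have hxW : (x:ℝ) ≤ W := by rw [hW]; exact le_max_left _ _
  have hyW : (y:ℝ) ≤ W := by rw [hW]; exact le_max_right _ _
  have hor : (x:ℝ) = W ∨ (y:ℝ) = W := by
    rw [hW]
    rcases le_total (x:ℝ) y with h1 | h1
    · exact Or.inr (max_eq_right h1).symm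
    · exact Or.inl (max_eq_left h1).symm
  have hx1 : (1:ℝ) ≤ x := by exact_mod_cast Nat.pos_of_ne_zero hx0
  have hW1 : 1 ≤ W := hx1.trans hxW
  have hW0 : 0 < W := by linarith
  have hgr : (1:ℝ) ≤ g := by exact_mod_cast hg
  have hgr0 : (0:ℝ) < g := by linarith
  have h1 := (h n hn x y (Nat.pos_of_ne_zero hx0) (Nat.pos_of_ne_zero hy0) (by omega) hxo hyo W
    hxW hyW hor).2
  have e1 : |((1:ℕ) : ℝ) * x - ((1:ℕ) : ℝ) * y| = |(x:ℝ) - y| := by push_cast; rw [one_mul, one_mul]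
  rw [e1] at h1
  have hr : (root S n x : ℝ) * root S n y ≤ W ^ (2 / (n:ℝ)) := by
    have h2 := root_rpow S n x hn hx0 hxo
    have h3 := root_rpow S n y hn hy0 hyo
    have h4 : (x:ℝ) ^ (1 / (n:ℝ)) ≤ W ^ (1 / (n:ℝ)) :=
      Real.rpow_le_rpow (Nat.cast_nonneg _) hxW (by positivity)
    have h5 : (y:ℝ) ^ (1 / (n:ℝ)) ≤ W ^ (1 / (n:ℝ)) :=
      Real.rpow_le_rpow (Nat.cast_nonneg _) hyW (by positivity)
    calc (root S n x : ℝ) * root S n y ≤ W ^ (1 / (n:ℝ)) * W ^ (1 / (n:ℝ)) :=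
          mul_le_mul (h2.trans h4) (h3.trans h5) (Nat.cast_nonneg _) (Real.rpow_nonneg hW0.le _)
      _ = W ^ (2 / (n:ℝ)) := by rw [← Real.rpow_add hW0]; congr 1; ring
  have hW2 : 0 < W ^ (2 / (n:ℝ)) := Real.rpow_pos_of_pos hW0 _
  have key : κ * W ^ (1 - 2 / (n:ℝ) - η) ≤ |(x:ℝ) - y| := by
    have h2 : κ * W ^ (1 - η) ≤ |(x:ℝ) - y| * W ^ (2 / (n:ℝ)) :=
      h1.trans (mul_le_mul_of_nonneg_left hr (abs_nonneg _))
    have h3 : W ^ (1 - η) = W ^ (1 - 2 / (n:ℝ) - η) * W ^ (2 / (n:ℝ)) := by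
      rw [← Real.rpow_add hW0]
      congr 1
      ring
    rw [h3, ← mul_assoc] at h2
    exact le_of_mul_le_mul_right h2 hW2
  have hmax : max (X:ℝ) Y = g * W := by
    rw [hXg, hYg, hW]
    push_cast
    rw [← max_mul_of_nonneg _ _ hgr0.le, mul_comm]
  have hXY : |(X:ℝ) - Y| = g * |(x:ℝ) - y| := by
    rw [hXg, hYg]
    push_cast
    rw [← sub_mul, abs_mul, abs_of_pos hgr0, mul_comm]
  rw [hmax, hXY, Real.mul_rpow hgr0.le hW0.le]
  have hge : (g:ℝ) ^ (1 - 2 / (n:ℝ) - η) ≤ g := by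
    calc (g:ℝ) ^ (1 - 2 / (n:ℝ) - η) ≤ (g:ℝ) ^ (1:ℝ) := by
          apply Real.rpow_le_rpow_of_exponent_le hgr
          have : 0 < 2 / (n:ℝ) := by positivity
          linarith
      _ = g := Real.rpow_one _
  have hg0' : 0 < (g:ℝ) ^ (1 - 2 / (n:ℝ) - η) := Real.rpow_pos_of_pos hgr0 _
  have hWe : 0 < W ^ (1 - 2 / (n:ℝ) - η) := Real.rpow_pos_of_pos hW0 _
  calc κ * ((g:ℝ) ^ (1 - 2 / (n:ℝ) - η) * W ^ (1 - 2 / (n:ℝ) - η))
      = (g:ℝ) ^ (1 - 2 / (n:ℝ) - η) * (κ * W ^ (1 - 2 / (n:ℝ) - η)) := by ring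
    _ ≤ g * |(x:ℝ) - y| := by gcongr

end Pool.Agent.U964.ML
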