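import Mathlib
import Pool.Agent.U964.ML.Pow

/-!
Values of polynomials whose quotient by the leading term is an `n`-th power up to a finite set of primes
(helper964)
-/

set_option autoImplicit false

namespace Pool.Agent.U964.ML

open Finset Polynomial

/-- a value of `f` and the leading term -/
theorem hyper (d : ℕ) (hd : 1 ≤ d) (S : Finset ℕ) (κ : ℝ) (hκ : 1 < κ) : ∃ N B : ℕ, 1 ≤ B ∧
    ∀ f : ℤ[X], f.natDegree = d → ∀ L : ℝ, 1 ≤ L → ∑ i ∈ range d, |(f.coeff i : ℝ)| ≤ L →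
      ∀ x : ℤ, x ≠ 0 → f.eval x ≠ 0 → f.eval x ≠ f.leadingCoeff * x ^ d → ∀ n : ℕ, N ≤ n →
      AP S n (((f.eval x : ℤ) : ℚ) / ((f.leadingCoeff * x ^ d : ℤ) : ℚ)) →
      |(x : ℝ)| ≤ B * L ^ κ := by
  have hκ0 : 0 < κ := by linarith
  have hdr : (1:ℝ) ≤ d := by exact_mod_cast hd
  have hdpos : (0:ℝ) < d := by linarith
  have hκ1 : 1 / κ < 1 := by rw [div_lt_one hκ0]; exact hκ
  have hκ2 : 0 < 1 / κ := by positivity
  obtain ⟨δ, hδ⟩ : ∃ δ : ℝ, δ = (1 - 1 / κ) / d := ⟨_, rfl⟩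
  have hδ0 : 0 < δ := by rw [hδ]; apply div_pos <;> linarith
  have hδ1 : δ ≤ 1 := by
    rw [hδ, div_le_one hdpos]
    linarith
  obtain ⟨N, B, hB1, hN⟩ := pow_gap S δ hδ0
  refine ⟨N, B, hB1, ?_⟩
  intro f hf L hL hsum x hx hu hne n hn hAP
  by_contra hcon
  rw [not_le] at hcon
  have hf0 : f ≠ 0 := by rintro rfl; rw [natDegree_zero] at hf; omega
  have hlc : f.leadingCoeff ≠ 0 := leadingCoeff_ne_zero.2 hf0
  have hv : f.leadingCoeff * x ^ d ≠ 0 := mul_ne_zero hlc (pow_ne_zero _ hx)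
  have hxr : (1:ℝ) ≤ |(x:ℝ)| := by
    have := Int.one_le_abs hx
    exact_mod_cast this
  have hxpos : (0:ℝ) < |(x:ℝ)| := by linarith
  have hBr : (1:ℝ) ≤ B := by exact_mod_cast hB1
  have hL0 : (0:ℝ) < L := by linarith
  have hLκ : L ^ κ < |(x:ℝ)| := by
    refine lt_of_le_of_lt ?_ hcon
    have := Real.rpow_pos_of_pos hL0 κ
    nlinarith
  have hLx : L ≤ |(x:ℝ)| ^ (1 / κ) := by
    have h1 := Real.rpow_le_rpow (Real.rpow_pos_of_pos hL0 κ).le hLκ.le hκ2.le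
    rwa [← Real.rpow_mul hL0.le, mul_one_div_cancel hκ0.ne', Real.rpow_one] at h1
  obtain ⟨W, hW⟩ : ∃ W : ℝ, W = max |((f.eval x : ℤ) : ℝ)| |((f.leadingCoeff * x ^ d : ℤ) : ℝ)| :=
    ⟨_, rfl⟩
  have hWu : |((f.eval x : ℤ) : ℝ)| ≤ W := by rw [hW]; exact le_max_left _ _
  have hWv : |((f.leadingCoeff * x ^ d : ℤ) : ℝ)| ≤ W := by rw [hW]; exact le_max_right _ _
  have hxW : |(x:ℝ)| ^ d ≤ W := by
    refine le_trans ?_ hWv
    rw [Int.cast_mul, Int.cast_pow, abs_mul, abs_pow]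
    have h1 : (1:ℝ) ≤ |(f.leadingCoeff : ℝ)| := by
      have := Int.one_le_abs hlc
      exact_mod_cast this
    have h2 : 0 ≤ |(x:ℝ)| ^ d := by positivity
    nlinarith
  have hdiff : |((f.eval x : ℤ) : ℝ) - ((f.leadingCoeff * x ^ d : ℤ) : ℝ)| ≤
      L * |(x:ℝ)| ^ (d - 1) := by
    have h1 : f.eval x - f.leadingCoeff * x ^ d = ∑ i ∈ range d, f.coeff i * x ^ i := by
      rw [eval_eq_sum_range, hf, Finset.sum_range_succ, leadingCoeff, hf]
      ring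
    have h2 : ((f.eval x : ℤ) : ℝ) - ((f.leadingCoeff * x ^ d : ℤ) : ℝ) =
        ∑ i ∈ range d, (f.coeff i : ℝ) * (x:ℝ) ^ i := by
      have := congrArg (fun z : ℤ => (z : ℝ)) h1
      push_cast at this ⊢
      exact this
    rw [h2]
    refine (Finset.abs_sum_le_sum_abs _ _).trans ?_
    calc ∑ i ∈ range d, |(f.coeff i : ℝ) * (x:ℝ) ^ i|
        ≤ ∑ i ∈ range d, |(f.coeff i : ℝ)| * |(x:ℝ)| ^ (d - 1) := by
          refine Finset.sum_le_sum fun i hi => ?_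
          rw [abs_mul, abs_pow]
          refine mul_le_mul_of_nonneg_left (pow_le_pow_right₀ hxr ?_) (abs_nonneg _)
          have := Finset.mem_range.1 hi
          omega
      _ = (∑ i ∈ range d, |(f.coeff i : ℝ)|) * |(x:ℝ)| ^ (d - 1) := by rw [Finset.sum_mul]
      _ ≤ L * |(x:ℝ)| ^ (d - 1) := by gcongr
  have hmain : |((f.eval x : ℤ) : ℝ) - ((f.leadingCoeff * x ^ d : ℤ) : ℝ)| ≤ W ^ (1 - δ) := by
    refine hdiff.trans ?_
    calc L * |(x:ℝ)| ^ (d - 1) ≤ |(x:ℝ)| ^ (1 / κ) * |(x:ℝ)| ^ (d - 1) := by gcongr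
      _ = |(x:ℝ)| ^ (1 / κ + ((d - 1 : ℕ) : ℝ)) := by
          rw [Real.rpow_add hxpos, Real.rpow_natCast]
      _ = (|(x:ℝ)| ^ d) ^ (1 - δ) := by
          rw [← Real.rpow_natCast |(x:ℝ)| d, ← Real.rpow_mul hxpos.le]
          congr 1
          rw [hδ, Nat.cast_sub hd, Nat.cast_one]
          field_simp
          ring
      _ ≤ W ^ (1 - δ) := Real.rpow_le_rpow (by positivity) hxW (by linarith)
  have hfin := hN n hn (f.eval x) (f.leadingCoeff * x ^ d) hu hv hne hAP W hWu hWv (by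
    rw [hW]
    rcases le_total |((f.eval x : ℤ) : ℝ)| |((f.leadingCoeff * x ^ d : ℤ) : ℝ)| with h | h
    · exact Or.inr (max_eq_right h).symm
    · exact Or.inl (max_eq_left h).symm) hmain
  have h1 : |(x:ℝ)| ≤ |(x:ℝ)| ^ d := by
    calc |(x:ℝ)| = |(x:ℝ)| ^ 1 := (pow_one _).symm
      _ ≤ |(x:ℝ)| ^ d := pow_le_pow_right₀ hxr hd
  have h2 : (B:ℝ) ≤ B * L ^ κ := by
    have := Real.one_le_rpow hL hκ0.le
    nlinarith
  linarith

/-- an integer root is bounded by the largest coefficient -/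
theorem root_le (g : ℤ[X]) (hg : g ≠ 0) (M : ℕ) (hM : ∀ i, (g.coeff i).natAbs ≤ M) (x : ℤ)
    (hx : g.eval x = 0) : |(x : ℝ)| ≤ M := by
  have hinj : Function.Injective (Int.castRingHom ℝ) := Int.cast_injective
  have hg' : g.map (Int.castRingHom ℝ) ≠ 0 := (Polynomial.map_ne_zero_iff hinj).2 hg
  have hroot : (g.map (Int.castRingHom ℝ)).IsRoot (x : ℝ) := by
    rw [IsRoot, eval_map, eval₂_at_intCast, Int.cast_id, hx]
    simp
  have h := hroot.norm_lt_cauchyBound hg'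
  have hb : (g.map (Int.castRingHom ℝ)).cauchyBound ≤ (M : NNReal) + 1 := by
    rw [cauchyBound]
    gcongr
    have h1 : (1 : NNReal) ≤ ‖(g.map (Int.castRingHom ℝ)).leadingCoeff‖₊ := by
      rw [leadingCoeff_map_of_injective hinj]
      have h2 : (1:ℤ) ≤ |g.leadingCoeff| := Int.one_le_abs (leadingCoeff_ne_zero.2 hg)
      rw [← NNReal.coe_le_coe]
      simp only [NNReal.coe_one, coe_nnnorm, Real.norm_eq_abs, eq_intCast]
      exact_mod_cast h2
    refine div_le_of_le_mul₀ zero_le zero_le ?_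
    refine (Finset.sup_le fun i _ => ?_).trans (le_mul_of_one_le_right zero_le h1)
    rw [← NNReal.coe_le_coe]
    simp only [coeff_map, coe_nnnorm, Real.norm_eq_abs, eq_intCast, NNReal.coe_natCast]
    have h3 := hM i
    have h4 : |(g.coeff i : ℤ)| ≤ (M : ℤ) := by
      rw [Int.abs_eq_natAbs]
      exact_mod_cast h3
    exact_mod_cast h4
  have h1 : |(x:ℝ)| < (M : ℝ) + 1 := by
    rw [← Real.norm_eq_abs]
    refine lt_of_lt_of_le h ?_
    exact_mod_cast hb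
  have h2 : |x| < (M : ℤ) + 1 := by exact_mod_cast h1
  have h3 : |x| ≤ (M : ℤ) := by omega
  exact_mod_cast h3

end Pool.Agent.U964.ML
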