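import Pool.Agent.U964.ML.Two

/-!
Linear forms in two logarithms of positive rational numbers with integer coefficients.
-/

set_option autoImplicit false

namespace Pool.Agent.U964.ML

open Finset

theorem liouville (P Q : ℕ) (hP : 1 ≤ P) (hQ : 1 ≤ Q) (hPQ : P ≠ Q) (h : ℝ) (h1 : Real.log P ≤ h)
    (h2 : Real.log Q ≤ h) : Real.exp (-h) ≤ |Real.log P - Real.log Q| := by
  wlog hlt : Q < P generalizing P Q
  · rw [abs_sub_comm]
    exact this Q P hQ hP hPQ.symm h2 h1 (by omega)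
  have hPr : (0:ℝ) < P := by exact_mod_cast hP
  have hQr : (0:ℝ) < Q := by exact_mod_cast hQ
  have e1 : Real.log P - Real.log Q = -Real.log ((Q:ℝ) / P) := by
    rw [Real.log_div hQr.ne' hPr.ne']; ring
  have h3 : Real.log ((Q:ℝ) / P) ≤ Q / P - 1 := Real.log_le_sub_one_of_pos (by positivity)
  have h4 : (1:ℝ) / P ≤ 1 - Q / P := by
    rw [div_le_iff₀ hPr, sub_mul, one_mul, div_mul_cancel₀ _ hPr.ne']
    have : (Q:ℝ) + 1 ≤ P := by exact_mod_cast hlt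
    linarith
  have h5 : Real.exp (-h) ≤ 1 / P := by
    rw [one_div, ← Real.exp_log hPr, ← Real.exp_neg]
    exact Real.exp_le_exp.2 (by linarith)
  rw [e1]
  exact (h5.trans (h4.trans (by linarith))).trans (le_abs_self _)

theorem natAbs_pos_cast {z : ℤ} (h : z = (z.natAbs : ℤ)) : (z:ℝ) = (z.natAbs : ℝ) := by
  have := congrArg (Int.cast : ℤ → ℝ) h
  rw [Int.cast_natCast] at this
  exact this

theorem natAbs_neg_cast {z : ℤ} (h : z = -(z.natAbs : ℤ)) : (z:ℝ) = -(z.natAbs : ℝ) := by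
  have := congrArg (Int.cast : ℤ → ℝ) h
  rw [Int.cast_neg, Int.cast_natCast] at this
  exact this

theorem one_le_pow' {u : ℕ} (h : 1 ≤ u) (n : ℕ) : 1 ≤ u ^ n :=
  Nat.one_le_iff_ne_zero.2 (pow_ne_zero _ (by omega))

/-- the logarithm of `u / v` -/
noncomputable def lg (u v : ℕ) : ℝ := Real.log ((u:ℝ) / v)

theorem lg_swap (u v : ℕ) : lg v u = -lg u v := by
  unfold lg
  rw [← Real.log_inv, inv_div]

theorem lg_eq {u v : ℕ} (hu : 1 ≤ u) (hv : 1 ≤ v) : lg u v = Real.log u - Real.log v := by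
  unfold lg
  rw [Real.log_div (by positivity) (by positivity)]

theorem lg_low {u v : ℕ} (hu : 1 ≤ u) (hv : 1 ≤ v) (hne : lg u v ≠ 0) {h : ℝ}
    (h1 : Real.log u ≤ h) (h2 : Real.log v ≤ h) : Real.exp (-h) ≤ |lg u v| := by
  rw [lg_eq hu hv] at hne ⊢
  exact liouville u v hu hv (fun e => hne (by rw [e, sub_self])) h h1 h2

/-- the hypotheses on the parameters -/
structure Par (H Y L : ℕ) (D : ℝ) : Prop where
  hH : 1 ≤ H
  hY : 1 ≤ Y
  hL1 : 1 ≤ L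
  hD1 : 1 ≤ D
  hL : 8 * (2 + Real.log D) ≤ L

/-- the hypotheses on the numbers -/
structure Num (u v : ℕ) (H : ℕ) : Prop where
  hu : 1 ≤ u
  hv : 1 ≤ v
  lu : Real.log u ≤ H
  lv : Real.log v ≤ H

theorem Num.swap {u v H : ℕ} (h : Num u v H) : Num v u H := ⟨h.hv, h.hu, h.lv, h.lu⟩

theorem Par.swap {H Y L : ℕ} {D : ℝ} (h : Par H Y L D) : Par Y H L D :=
  ⟨h.hY, h.hH, h.hL1, h.hD1, h.hL⟩

theorem Par.le {H Y L : ℕ} {D : ℝ} (h : Par H Y L D) :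
    (Y:ℝ) < 24492 * (H:ℝ) * Y * (L:ℝ) ^ 2 ∧ 314 * (H:ℝ) * Y * L < 24492 * (H:ℝ) * Y * (L:ℝ) ^ 2 := by
  have hH : (1:ℝ) ≤ H := by exact_mod_cast h.hH
  have hY : (1:ℝ) ≤ Y := by exact_mod_cast h.hY
  have hL : (1:ℝ) ≤ L := by exact_mod_cast h.hL1
  have h1 : (Y:ℝ) ≤ H * Y := le_mul_of_one_le_left (by linarith) hH
  have h2 : (H:ℝ) * Y ≤ H * Y * L := le_mul_of_one_le_right (by positivity) hL
  have h3 : (H:ℝ) * Y * L ≤ H * Y * L * L := le_mul_of_one_le_right (by positivity) hL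
  have e : 24492 * (H:ℝ) * Y * (L:ℝ) ^ 2 = 24492 * (H * Y * L * L) := by ring
  have e2 : 314 * (H:ℝ) * Y * L = 314 * (H * Y * L) := by ring
  rw [e, e2]
  constructor <;> nlinarith

theorem core_s {u1 v1 u2 v2 a b H Y L : ℕ} {D : ℝ} (hp : Par H Y L D) (n1 : Num u1 v1 H)
    (n2 : Num u2 v2 Y) (hab : Nat.Coprime a b) (hb : 157 * H * L ≤ b) (hbD : (b:ℝ) ≤ D * H)
    (haD : (a:ℝ) ≤ D * Y) (hne : b * lg u2 v2 - a * lg u1 v1 ≠ 0) :
    Real.exp (-(24492 * (H:ℝ) * Y * (L:ℝ) ^ 2)) < |b * lg u2 v2 - a * lg u1 v1| := by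
  rcases lt_trichotomy v1 u1 with h | h | h
  · exact two_core u1 v1 u2 v2 a b Y H L D n1.hv h n2.hu n2.hv hab hp.hY hp.hH hp.hL1 n1.lu n1.lv
      n2.lu n2.lv hb hp.hD1 hbD haD hp.hL
  · subst h
    have e : lg v1 v1 = 0 := by
      rw [lg_eq n1.hv n1.hv, sub_self]
    rw [e, mul_zero, sub_zero] at hne ⊢
    have h2 : lg u2 v2 ≠ 0 := right_ne_zero_of_mul hne
    have hb1 : (1:ℝ) ≤ b := by
      have : 1 ≤ 157 * H * L := Nat.mul_pos (Nat.mul_pos (by norm_num) hp.hH) hp.hL1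
      exact_mod_cast this.trans hb
    have h3 := lg_low n2.hu n2.hv h2 n2.lu n2.lv
    rw [abs_mul, Nat.abs_cast]
    have h4 : |lg u2 v2| ≤ b * |lg u2 v2| := le_mul_of_one_le_left (abs_nonneg _) hb1
    refine lt_of_lt_of_le ?_ (h3.trans h4)
    exact Real.exp_lt_exp.2 (neg_lt_neg hp.le.1)
  · have h1 := two_core v1 u1 v2 u2 a b Y H L D n1.hu h n2.hv n2.hu hab hp.hY hp.hH hp.hL1 n1.lv
      n1.lu n2.lv n2.lu hb hp.hD1 hbD haD hp.hL
    change _ < |b * lg v2 u2 - a * lg v1 u1| at h1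
    rw [lg_swap u2 v2, lg_swap u1 v1] at h1
    have e : (b:ℝ) * -lg u2 v2 - a * -lg u1 v1 = -(b * lg u2 v2 - a * lg u1 v1) := by ring
    rw [e, abs_neg] at h1
    exact h1

theorem core_z {u1 v1 u2 v2 H Y L : ℕ} {a b : ℤ} {D : ℝ} (hp : Par H Y L D) (n1 : Num u1 v1 H)
    (n2 : Num u2 v2 Y) (hab : Nat.Coprime a.natAbs b.natAbs) (hb : 157 * H * L ≤ b.natAbs)
    (hbD : (b.natAbs:ℝ) ≤ D * H) (haD : (a.natAbs:ℝ) ≤ D * Y)
    (hne : (a:ℝ) * lg u1 v1 + b * lg u2 v2 ≠ 0) :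
    Real.exp (-(24492 * (H:ℝ) * Y * (L:ℝ) ^ 2)) < |(a:ℝ) * lg u1 v1 + b * lg u2 v2| := by
  have key : ∀ (s t : ℝ), (s = 1 ∨ s = -1) → (t = 1 ∨ t = -1) → (a:ℝ) = s * a.natAbs →
      (b:ℝ) = t * b.natAbs →
      Real.exp (-(24492 * (H:ℝ) * Y * (L:ℝ) ^ 2)) < |(a:ℝ) * lg u1 v1 + b * lg u2 v2| := by
    intro s t hs ht ea eb
    rw [ea, eb] at hne ⊢
    rcases hs with rfl | rfl <;> rcases ht with rfl | rfl
    · have e : (1:ℝ) * a.natAbs * lg u1 v1 + 1 * b.natAbs * lg u2 v2 =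
          b.natAbs * lg u2 v2 - a.natAbs * lg v1 u1 := by rw [lg_swap u1 v1]; ring
      rw [e] at hne ⊢
      exact core_s hp n1.swap n2 hab hb hbD haD hne
    · have e : (1:ℝ) * a.natAbs * lg u1 v1 + -1 * b.natAbs * lg u2 v2 =
          -(b.natAbs * lg u2 v2 - a.natAbs * lg u1 v1) := by ring
      rw [e] at hne ⊢
      rw [abs_neg]
      exact core_s hp n1 n2 hab hb hbD haD (fun h => hne (by rw [h, neg_zero]))
    · have e : (-1:ℝ) * a.natAbs * lg u1 v1 + 1 * b.natAbs * lg u2 v2 =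
          b.natAbs * lg u2 v2 - a.natAbs * lg u1 v1 := by ring
      rw [e] at hne ⊢
      exact core_s hp n1 n2 hab hb hbD haD hne
    · have e : (-1:ℝ) * a.natAbs * lg u1 v1 + -1 * b.natAbs * lg u2 v2 =
          -(b.natAbs * lg u2 v2 - a.natAbs * lg v1 u1) := by rw [lg_swap u1 v1]; ring
      rw [e] at hne ⊢
      rw [abs_neg]
      exact core_s hp n1.swap n2 hab hb hbD haD (fun h => hne (by rw [h, neg_zero]))
  have sgn : ∀ z : ℤ, ∃ s : ℝ, (s = 1 ∨ s = -1) ∧ (z:ℝ) = s * z.natAbs := by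
    intro z
    rcases Int.natAbs_eq z with h | h
    · refine ⟨1, Or.inl rfl, ?_⟩
      rw [one_mul]
      exact natAbs_pos_cast h
    · refine ⟨-1, Or.inr rfl, ?_⟩
      rw [neg_one_mul]
      exact natAbs_neg_cast h
  obtain ⟨s, hs, ea⟩ := sgn a
  obtain ⟨t, ht, eb⟩ := sgn b
  exact key s t hs ht ea eb

/-- small coefficients -/
theorem small {u1 v1 u2 v2 H Y L : ℕ} {a b : ℤ} {D : ℝ} (hp : Par H Y L D) (n1 : Num u1 v1 H)
    (n2 : Num u2 v2 Y) (hb : b.natAbs ≤ 157 * H * L) (ha : a.natAbs ≤ 157 * Y * L)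
    (hne : (a:ℝ) * lg u1 v1 + b * lg u2 v2 ≠ 0) :
    Real.exp (-(24492 * (H:ℝ) * Y * (L:ℝ) ^ 2)) < |(a:ℝ) * lg u1 v1 + b * lg u2 v2| := by
  have pw : ∀ (u v : ℕ) (z : ℤ) (B : ℕ), Num u v B → ∃ P Q : ℕ, 1 ≤ P ∧ 1 ≤ Q ∧
      Real.log P - Real.log Q = z * lg u v ∧ Real.log P ≤ z.natAbs * B ∧
      Real.log Q ≤ z.natAbs * B := by
    intro u v z B h
    rcases Int.natAbs_eq z with e | e
    · refine ⟨u ^ z.natAbs, v ^ z.natAbs, one_le_pow' h.hu _, one_le_pow' h.hv _, ?_, ?_, ?_⟩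
      · have e2 : (z:ℝ) = z.natAbs := natAbs_pos_cast e
        rw [lg_eq h.hu h.hv, e2]
        push_cast
        rw [Real.log_pow, Real.log_pow]
        ring
      · push_cast
        rw [Real.log_pow]
        exact mul_le_mul_of_nonneg_left h.lu (Nat.cast_nonneg _)
      · push_cast
        rw [Real.log_pow]
        exact mul_le_mul_of_nonneg_left h.lv (Nat.cast_nonneg _)
    · refine ⟨v ^ z.natAbs, u ^ z.natAbs, one_le_pow' h.hv _, one_le_pow' h.hu _, ?_, ?_, ?_⟩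
      · have e2 : (z:ℝ) = -z.natAbs := natAbs_neg_cast e
        rw [lg_eq h.hu h.hv, e2]
        push_cast
        rw [Real.log_pow, Real.log_pow]
        ring
      · push_cast
        rw [Real.log_pow]
        exact mul_le_mul_of_nonneg_left h.lv (Nat.cast_nonneg _)
      · push_cast
        rw [Real.log_pow]
        exact mul_le_mul_of_nonneg_left h.lu (Nat.cast_nonneg _)
  obtain ⟨P1, Q1, p1, q1, e1, f1, g1⟩ := pw u1 v1 a H n1
  obtain ⟨P2, Q2, p2, q2, e2, f2, g2⟩ := pw u2 v2 b Y n2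
  have hP : Real.log ((P1 * P2 : ℕ) : ℝ) = Real.log P1 + Real.log P2 := by
    push_cast
    rw [Real.log_mul (by positivity) (by positivity)]
  have hQ : Real.log ((Q1 * Q2 : ℕ) : ℝ) = Real.log Q1 + Real.log Q2 := by
    push_cast
    rw [Real.log_mul (by positivity) (by positivity)]
  have e3 : (a:ℝ) * lg u1 v1 + b * lg u2 v2 =
      Real.log ((P1 * P2 : ℕ) : ℝ) - Real.log ((Q1 * Q2 : ℕ) : ℝ) := by
    rw [hP, hQ, ← e1, ← e2]; ring
  have ha' : (a.natAbs:ℝ) * H ≤ 157 * Y * L * H := by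
    have : (a.natAbs:ℝ) ≤ 157 * Y * L := by exact_mod_cast ha
    gcongr
  have hb' : (b.natAbs:ℝ) * Y ≤ 157 * H * L * Y := by
    have : (b.natAbs:ℝ) ≤ 157 * H * L := by exact_mod_cast hb
    gcongr
  have h4 := liouville (P1 * P2) (Q1 * Q2) (Nat.mul_pos p1 p2) (Nat.mul_pos q1 q2) (by
      intro h
      rw [e3, h, sub_self] at hne
      exact hne rfl) (314 * (H:ℝ) * Y * L) (by rw [hP]; linarith) (by rw [hQ]; linarith)
  rw [e3]
  refine lt_of_lt_of_le ?_ h4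
  exact Real.exp_lt_exp.2 (neg_lt_neg hp.le.2)

/-- **Two logarithms.** -/
theorem two_log {u1 v1 u2 v2 H Y L : ℕ} {a b : ℤ} {D : ℝ} (hp : Par H Y L D) (n1 : Num u1 v1 H)
    (n2 : Num u2 v2 Y) (hb : (b.natAbs:ℝ) ≤ D * H) (ha : (a.natAbs:ℝ) ≤ D * Y)
    (hne : (a:ℝ) * lg u1 v1 + b * lg u2 v2 ≠ 0) :
    Real.exp (-(24492 * (H:ℝ) * Y * (L:ℝ) ^ 2)) < |(a:ℝ) * lg u1 v1 + b * lg u2 v2| := by
  -- the primitive case
  have prim : ∀ a b : ℤ, Nat.Coprime a.natAbs b.natAbs → (b.natAbs:ℝ) ≤ D * H →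
      (a.natAbs:ℝ) ≤ D * Y → (a:ℝ) * lg u1 v1 + b * lg u2 v2 ≠ 0 →
      Real.exp (-(24492 * (H:ℝ) * Y * (L:ℝ) ^ 2)) < |(a:ℝ) * lg u1 v1 + b * lg u2 v2| := by
    intro a b hab hb ha hne
    rcases le_or_gt (157 * H * L) b.natAbs with h | h
    · exact core_z hp n1 n2 hab h hb ha hne
    · rcases le_or_gt (157 * Y * L) a.natAbs with h2 | h2
      · have h3 := core_z (a := b) (b := a) hp.swap n2 n1 hab.symm h2 ha hb (by
          rw [add_comm]; exact hne)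
        rw [add_comm] at h3
        have e : 24492 * (Y:ℝ) * H * (L:ℝ) ^ 2 = 24492 * (H:ℝ) * Y * (L:ℝ) ^ 2 := by ring
        rw [e] at h3
        exact h3
      · exact small hp n1 n2 h.le h2.le hne
  obtain ⟨g, hg⟩ : ∃ g : ℕ, g = Int.gcd a b := ⟨_, rfl⟩
  have hg0 : 0 < g := by
    rw [hg]
    apply Nat.pos_of_ne_zero
    intro h0
    rw [Int.gcd_eq_zero_iff] at h0
    apply hne
    rw [h0.1, h0.2]
    simp
  obtain ⟨a', ha'⟩ : (g:ℤ) ∣ a := by rw [hg]; exact Int.gcd_dvd_left ..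
  obtain ⟨b', hb'⟩ : (g:ℤ) ∣ b := by rw [hg]; exact Int.gcd_dvd_right ..
  have hcop : Nat.Coprime a'.natAbs b'.natAbs := by
    have h1 : Int.gcd a b = g * Int.gcd a' b' := by
      rw [ha', hb', Int.gcd_mul_left, Int.natAbs_natCast]
    rw [← hg] at h1
    have h2 : g * Int.gcd a' b' = g * 1 := by rw [← h1, mul_one]
    exact Nat.eq_of_mul_eq_mul_left hg0 h2
  have hgr : (1:ℝ) ≤ g := by exact_mod_cast hg0
  have e : (a:ℝ) * lg u1 v1 + b * lg u2 v2 = g * ((a':ℝ) * lg u1 v1 + b' * lg u2 v2) := by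
    rw [ha', hb']
    push_cast
    ring
  have hle : ∀ z z' : ℤ, z = g * z' → (z'.natAbs:ℝ) ≤ z.natAbs := by
    intro z z' hz
    rw [hz, Int.natAbs_mul, Int.natAbs_natCast]
    push_cast
    exact le_mul_of_one_le_left (Nat.cast_nonneg _) hgr
  rw [e] at hne ⊢
  have h5 := prim a' b' hcop ((hle b b' hb').trans hb) ((hle a a' ha').trans ha)
    (right_ne_zero_of_mul hne)
  refine h5.trans_le ?_
  rw [abs_mul, Nat.abs_cast]
  exact le_mul_of_one_le_left (abs_nonneg _) hgr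

end Pool.Agent.U964.ML
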