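import Mathlib

/-!
Reduction of a lattice of rank two and simultaneous approximation.
-/

set_option autoImplicit false

namespace Pool.Agent.U964.ML

open Finset

section lattice
variable {ι : Type} [Fintype ι] (w : ι → ℤ)

/-- the weighted scalar product -/
def fm (x y : ι → ℤ) : ℤ := ∑ i, w i * (x i * y i)

theorem fm_comm (x y : ι → ℤ) : fm w x y = fm w y x := by
  unfold fm
  exact Finset.sum_congr rfl fun i _ => by ring

theorem fm_comb (x y z t : ι → ℤ) (a b c d : ℤ) :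
    fm w (fun i => a * x i + b * y i) (fun i => c * z i + d * t i) =
      a * c * fm w x z + a * d * fm w x t + b * c * fm w y z + b * d * fm w y t := by
  unfold fm
  rw [Finset.mul_sum, Finset.mul_sum, Finset.mul_sum, Finset.mul_sum, ← Finset.sum_add_distrib,
    ← Finset.sum_add_distrib, ← Finset.sum_add_distrib]
  exact Finset.sum_congr rfl fun i _ => by ring

theorem fm_nonneg (hw : ∀ i, 0 ≤ w i) (x : ι → ℤ) : 0 ≤ fm w x x :=
  Finset.sum_nonneg fun i _ => mul_nonneg (hw i) (mul_self_nonneg _)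

/-- `(P, Q)` is a basis of the lattice of `(B, C)` -/
def Rel (B C P Q : ι → ℤ) : Prop :=
  ∃ a1 a2 c1 c2 : ℤ, (∀ i, B i = a1 * P i + a2 * Q i) ∧ (∀ i, C i = c1 * P i + c2 * Q i) ∧
    (a1 * c2 - a2 * c1) ^ 2 = 1

theorem Rel.symm {B C P Q : ι → ℤ} (h : Rel B C P Q) : Rel B C Q P := by
  obtain ⟨a1, a2, c1, c2, h1, h2, h3⟩ := h
  refine ⟨a2, a1, c2, c1, fun i => by rw [h1]; ring, fun i => by rw [h2]; ring, ?_⟩
  rw [← h3]; ring

theorem Rel.shift {B C P Q : ι → ℤ} (h : Rel B C P Q) (e : ℤ) :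
    Rel B C P (fun i => Q i - e * P i) := by
  obtain ⟨a1, a2, c1, c2, h1, h2, h3⟩ := h
  refine ⟨a1 + e * a2, a2, c1 + e * c2, c2, fun i => by rw [h1]; ring, fun i => by rw [h2]; ring,
    ?_⟩
  rw [← h3]; ring

theorem reduce (hw : ∀ i, 0 ≤ w i) (B C : ι → ℤ) : ∃ P Q : ι → ℤ, Rel B C P Q ∧
    2 * |fm w P Q| ≤ fm w P P ∧ 2 * |fm w P Q| ≤ fm w Q Q := by
  classical
  have hex : ∃ n : ℕ, ∃ P Q : ι → ℤ, Rel B C P Q ∧ (fm w P P + fm w Q Q).toNat = n :=
    ⟨_, B, C, ⟨1, 0, 0, 1, fun i => by ring, fun i => by ring, by ring⟩, rfl⟩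
  obtain ⟨P, Q, hR, hn⟩ := Nat.find_spec hex
  have hmin : ∀ P' Q' : ι → ℤ, Rel B C P' Q' → fm w P P + fm w Q Q ≤ fm w P' P' + fm w Q' Q' := by
    intro P' Q' hR'
    have h1 := Nat.find_min' hex ⟨P', Q', hR', rfl⟩
    rw [← hn] at h1
    have h2 := fm_nonneg w hw P
    have h3 := fm_nonneg w hw Q
    have h4 := fm_nonneg w hw P'
    have h5 := fm_nonneg w hw Q'
    omega
  have step : ∀ P Q : ι → ℤ, Rel B C P Q →
      (∀ P' Q' : ι → ℤ, Rel B C P' Q' → fm w P P + fm w Q Q ≤ fm w P' P' + fm w Q' Q') →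
      2 * |fm w P Q| ≤ fm w P P := by
    intro P Q hR hmin
    have key : ∀ e : ℤ, fm w (fun i => Q i - e * P i) (fun i => Q i - e * P i) =
        fm w Q Q - 2 * e * fm w P Q + e ^ 2 * fm w P P := by
      intro e
      have h1 := fm_comb w Q P Q P 1 (-e) 1 (-e)
      have e1 : (fun i => 1 * Q i + -e * P i) = fun i => Q i - e * P i := by
        funext i; ring
      rw [e1] at h1
      rw [h1, fm_comm w Q P]
      ring
    have h1 := hmin P _ (hR.shift 1)
    have h2 := hmin P _ (hR.shift (-1))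
    rw [key] at h1 h2
    rcases abs_cases (fm w P Q) with ⟨h, -⟩ | ⟨h, -⟩ <;> rw [h] <;> linarith
  refine ⟨P, Q, hR, step P Q hR hmin, ?_⟩
  have h6 := step Q P hR.symm (fun P' Q' h => by
    rw [add_comm]; exact hmin P' Q' h)
  rw [fm_comm w Q P] at h6
  exact h6

/-- the inequalities for a reduced basis -/
theorem reduce_ineq (hw : ∀ i, 0 ≤ w i) (B C R : ι → ℤ) (b q : ℤ)
    (hR : ∀ i, b * C i = q * B i - R i) :
    ∃ (P Q : ι → ℤ) (a1 a2 c1 c2 : ℤ), (∀ i, B i = a1 * P i + a2 * Q i) ∧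
      (∀ i, C i = c1 * P i + c2 * Q i) ∧ (a1 * c2 - a2 * c1) ^ 2 = 1 ∧
      a1 ^ 2 * fm w P P ≤ 2 * fm w B B ∧ a2 ^ 2 * fm w Q Q ≤ 2 * fm w B B ∧
      3 * b ^ 2 * (fm w P P * fm w Q Q) ≤ 4 * (fm w B B * fm w R R) := by
  obtain ⟨P, Q, ⟨a1, a2, c1, c2, h1, h2, h3⟩, h4, h5⟩ := reduce w hw B C
  refine ⟨P, Q, a1, a2, c1, c2, h1, h2, h3, ?_⟩
  obtain ⟨p, hp⟩ : ∃ p, p = fm w P P := ⟨_, rfl⟩
  obtain ⟨r, hr⟩ : ∃ r, r = fm w Q Q := ⟨_, rfl⟩
  obtain ⟨s, hs⟩ : ∃ s, s = fm w P Q := ⟨_, rfl⟩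
  rw [← hp, ← hs] at h4
  rw [← hr, ← hs] at h5
  have hp0 : 0 ≤ p := by rw [hp]; exact fm_nonneg w hw P
  have hr0 : 0 ≤ r := by rw [hr]; exact fm_nonneg w hw Q
  have h4s : 4 * s ^ 2 ≤ p * r := by
    have h6 : (2 * |s|) * (2 * |s|) ≤ p * r := mul_le_mul h4 h5 (by positivity) hp0
    have h7 : (2 * |s|) * (2 * |s|) = 4 * s ^ 2 := by
      have := sq_abs s
      nlinarith
    linarith
  have hBB : fm w B B = a1 ^ 2 * p + 2 * a1 * a2 * s + a2 ^ 2 * r := by
    have h6 := fm_comb w P Q P Q a1 a2 a1 a2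
    have e1 : (fun i => a1 * P i + a2 * Q i) = B := by funext i; exact (h1 i).symm
    rw [e1, fm_comm w Q P, ← hp, ← hr, ← hs] at h6
    rw [h6]; ring
  have hCC : fm w C C = c1 ^ 2 * p + 2 * c1 * c2 * s + c2 ^ 2 * r := by
    have h6 := fm_comb w P Q P Q c1 c2 c1 c2
    have e1 : (fun i => c1 * P i + c2 * Q i) = C := by funext i; exact (h2 i).symm
    rw [e1, fm_comm w Q P, ← hp, ← hr, ← hs] at h6
    rw [h6]; ring
  have hBC : fm w B C = a1 * c1 * p + (a1 * c2 + a2 * c1) * s + a2 * c2 * r := by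
    have h6 := fm_comb w P Q P Q a1 a2 c1 c2
    have e1 : (fun i => a1 * P i + a2 * Q i) = B := by funext i; exact (h1 i).symm
    have e2 : (fun i => c1 * P i + c2 * Q i) = C := by funext i; exact (h2 i).symm
    rw [e1, e2, fm_comm w Q P, ← hp, ← hr, ← hs] at h6
    rw [h6]; ring
  have hgram : fm w B B * fm w C C - fm w B C ^ 2 = p * r - s ^ 2 := by
    have e : fm w B B * fm w C C - fm w B C ^ 2 = (a1 * c2 - a2 * c1) ^ 2 * (p * r - s ^ 2) := by
      rw [hBB, hCC, hBC]; ring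
    rw [e, h3, one_mul]
  -- the discriminant
  have quad : ∀ x y : ℤ, 0 ≤ p * x ^ 2 + 4 * s * x * y + r * y ^ 2 := by
    intro x y
    rcases hp0.eq_or_lt with h0 | h0
    · have hs0 : s = 0 := by
        have : 2 * |s| ≤ 0 := by rw [h0]; exact h4
        have h7 : |s| = 0 := le_antisymm (by linarith) (abs_nonneg s)
        exact abs_eq_zero.1 h7
      rw [← h0, hs0]
      have : 0 ≤ r * y ^ 2 := by positivity
      linarith
    · have h7 : 0 ≤ p * (p * x ^ 2 + 4 * s * x * y + r * y ^ 2) := by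
        have e : p * (p * x ^ 2 + 4 * s * x * y + r * y ^ 2) =
            (p * x + 2 * s * y) ^ 2 + (p * r - 4 * s ^ 2) * y ^ 2 := by ring
        rw [e]
        have h8 : 0 ≤ (p * r - 4 * s ^ 2) * y ^ 2 := mul_nonneg (by linarith) (sq_nonneg y)
        have := sq_nonneg (p * x + 2 * s * y)
        linarith
      exact nonneg_of_mul_nonneg_right h7 h0
  have hq := quad a1 a2
  have hx1 : 0 ≤ a1 ^ 2 * p := by positivity
  have hx2 : 0 ≤ a2 ^ 2 * r := by positivity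
  refine ⟨?_, ?_, ?_⟩
  · rw [← hp, hBB]; nlinarith
  · rw [← hr, hBB]; nlinarith
  · -- the Gram determinant
    obtain ⟨β, hβ⟩ : ∃ β, β = fm w B B := ⟨_, rfl⟩
    have k1 : b * fm w B C = q * fm w B B - fm w B R := by
      unfold fm
      rw [Finset.mul_sum, Finset.mul_sum, ← Finset.sum_sub_distrib]
      refine Finset.sum_congr rfl fun i _ => ?_
      have := hR i
      linear_combination w i * B i * this
    have k2 : b ^ 2 * fm w C C = q ^ 2 * fm w B B - 2 * q * fm w B R + fm w R R := by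
      unfold fm
      rw [Finset.mul_sum, Finset.mul_sum, Finset.mul_sum, ← Finset.sum_sub_distrib,
        ← Finset.sum_add_distrib]
      refine Finset.sum_congr rfl fun i _ => ?_
      have := hR i
      linear_combination w i * (b * C i + q * B i - R i) * this
    have k3 : b ^ 2 * (fm w B B * fm w C C - fm w B C ^ 2) =
        fm w B B * fm w R R - fm w B R ^ 2 := by
      have e : b ^ 2 * (fm w B B * fm w C C - fm w B C ^ 2) =
          fm w B B * (b ^ 2 * fm w C C) - (b * fm w B C) ^ 2 := by ring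
      rw [e, k1, k2]; ring
    rw [hgram] at k3
    rw [← hp, ← hr]
    have k4 := sq_nonneg (fm w B R)
    have k5 : 0 ≤ b ^ 2 := sq_nonneg b
    have k6 : b ^ 2 * (3 * (p * r)) ≤ b ^ 2 * (4 * (p * r - s ^ 2)) :=
      mul_le_mul_of_nonneg_left (by linarith) k5
    nlinarith

end lattice

/-- simultaneous approximation -/
theorem dirichlet {ι : Type} [Fintype ι] (b D : ℕ) (hDb : D ^ Fintype.card ι < b)
    (hD : 1 ≤ D) (e : ι → ℤ) :
    ∃ (q : ℕ) (c r : ι → ℤ), 1 ≤ q ∧ q < b ∧ (∀ j, (b : ℤ) * c j = q * e j - r j) ∧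
      ∀ j, |r j| * D ≤ b := by
  classical
  have hb : 0 < b := by omega
  have hbz : (0 : ℤ) < b := by exact_mod_cast hb
  have hDz : (0 : ℤ) < D := by exact_mod_cast hD
  have hlt : ∀ (t : Fin b) (j : ι), ((((t : ℕ) : ℤ) * e j % b) * D / b).toNat < D := by
    intro t j
    have h1 := Int.emod_nonneg (((t : ℕ) : ℤ) * e j) hbz.ne'
    have h2 := Int.emod_lt_of_pos (((t : ℕ) : ℤ) * e j) hbz
    have h3 : (((t : ℕ) : ℤ) * e j % b) * D / b < D := by
      apply Int.ediv_lt_of_lt_mul hbz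
      rw [mul_comm (D : ℤ)]
      exact mul_lt_mul_of_pos_right h2 hDz
    have h4 : 0 ≤ (((t : ℕ) : ℤ) * e j % b) * D / b :=
      Int.ediv_nonneg (mul_nonneg h1 hDz.le) hbz.le
    omega
  let f : Fin b → (ι → Fin D) := fun t j => ⟨_, hlt t j⟩
  obtain ⟨t, t', hne, hf⟩ := Fintype.exists_ne_map_eq_of_card_lt f (by
    rw [Fintype.card_fun, Fintype.card_fin, Fintype.card_fin]
    exact hDb)
  have main : ∀ t t' : Fin b, (t' : ℕ) < t → f t = f t' →
      ∃ (q : ℕ) (c r : ι → ℤ), 1 ≤ q ∧ q < b ∧ (∀ j, (b : ℤ) * c j = q * e j - r j) ∧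
      ∀ j, |r j| * D ≤ b := by
    intro t t' hlt' hff
    refine ⟨t - t', fun j => (((t : ℕ) : ℤ) * e j) / b - (((t' : ℕ) : ℤ) * e j) / b,
      fun j => (((t : ℕ) : ℤ) * e j) % b - (((t' : ℕ) : ℤ) * e j) % b, by omega,
      by have := t.2; omega, ?_, ?_⟩
    · intro j
      have h1 := Int.emod_add_mul_ediv (((t : ℕ) : ℤ) * e j) b
      have h2 := Int.emod_add_mul_ediv (((t' : ℕ) : ℤ) * e j) b
      have h3 : (((t : ℕ) - (t' : ℕ) : ℕ) : ℤ) = (t : ℕ) - (t' : ℕ) := by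
        rw [Nat.cast_sub hlt'.le]
      rw [h3]
      linear_combination h1 - h2
    · intro j
      have h1 := congrArg Fin.val (congrFun hff j)
      change ((((t : ℕ) : ℤ) * e j % b) * D / b).toNat =
        ((((t' : ℕ) : ℤ) * e j % b) * D / b).toNat at h1
      have n1 := Int.emod_nonneg (((t : ℕ) : ℤ) * e j) hbz.ne'
      have n2 := Int.emod_nonneg (((t' : ℕ) : ℤ) * e j) hbz.ne'
      obtain ⟨x, hx⟩ : ∃ x, x = ((t : ℕ) : ℤ) * e j % b := ⟨_, rfl⟩
      obtain ⟨y, hy⟩ : ∃ y, y = ((t' : ℕ) : ℤ) * e j % b := ⟨_, rfl⟩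
      rw [← hx, ← hy] at h1
      rw [← hx] at n1
      rw [← hy] at n2
      have p1 : 0 ≤ x * D / b := Int.ediv_nonneg (mul_nonneg n1 hDz.le) hbz.le
      have p2 : 0 ≤ y * D / b := Int.ediv_nonneg (mul_nonneg n2 hDz.le) hbz.le
      have h2 : x * D / b = y * D / b := by omega
      have h3 := Int.emod_add_mul_ediv (x * D) b
      have h4 := Int.emod_add_mul_ediv (y * D) b
      have m1 := Int.emod_nonneg (x * D) hbz.ne'
      have m2 := Int.emod_nonneg (y * D) hbz.ne'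
      have m3 := Int.emod_lt_of_pos (x * D) hbz
      have m4 := Int.emod_lt_of_pos (y * D) hbz
      rw [h2] at h3
      have h5 : (x - y) * D = x * D % b - y * D % b := by linear_combination h4 - h3
      have h6 : |x - y| * D = |(x - y) * D| := by rw [abs_mul, abs_of_pos hDz]
      show |(((t : ℕ) : ℤ) * e j) % b - (((t' : ℕ) : ℤ) * e j) % b| * D ≤ b
      rw [← hx, ← hy, h6, h5, abs_le]
      constructor <;> linarith
  rcases lt_or_gt_of_ne (fun h => hne (Fin.ext h) : (t : ℕ) ≠ t') with h | h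
  · exact main t' t h hf.symm
  · exact main t t' h hf

end Pool.Agent.U964.ML
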