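import Pool.Agent.U964.ML.Gen
import Pool.Agent.U964.ML.Lat

/-!
Linear forms in several logarithms of fixed natural numbers and one logarithm of a rational number of
arbitrary height, by reduction of a lattice of rank two.
-/

set_option autoImplicit false

namespace Pool.Agent.U964.ML

open Finset

section
variable {ι : Type} [Fintype ι] (P : ι → ℕ) (u v : ℕ)

/-- numerators -/
def nm (x : Option ι → ℤ) : ℕ :=
  (∏ j, P j ^ (x (some j)).toNat) * (u ^ (x none).toNat * v ^ (-(x none)).toNat)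

theorem one_le_nm (hP : ∀ j, 1 ≤ P j) (hu : 1 ≤ u) (hv : 1 ≤ v) (x : Option ι → ℤ) :
    1 ≤ nm P u v x := by
  unfold nm
  refine Nat.mul_pos (Nat.pos_of_ne_zero ?_) (Nat.mul_pos (one_le_pow' hu _) (one_le_pow' hv _))
  exact Finset.prod_ne_zero_iff.2 fun j _ => pow_ne_zero _ (by have := hP j; omega)

theorem log_nm (hP : ∀ j, 1 ≤ P j) (hu : 1 ≤ u) (hv : 1 ≤ v) (x : Option ι → ℤ) :
    Real.log (nm P u v x) = ∑ j, ((x (some j)).toNat : ℝ) * Real.log (P j) +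
      (((x none).toNat : ℝ) * Real.log u + ((-(x none)).toNat : ℝ) * Real.log v) := by
  have hP0 : ∀ j, ((P j : ℕ) : ℝ) ≠ 0 := fun j => by
    have := hP j
    positivity
  unfold nm
  push_cast
  rw [Real.log_mul (Finset.prod_ne_zero_iff.2 fun j _ => pow_ne_zero _ (hP0 j)) (by positivity),
    Real.log_prod (fun j _ => pow_ne_zero _ (hP0 j)), Real.log_mul (by positivity) (by positivity),
    Real.log_pow, Real.log_pow]
  congr 1
  exact Finset.sum_congr rfl fun j _ => Real.log_pow _ _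

theorem toNat_sub (z : ℤ) : (z.toNat : ℝ) - ((-z).toNat : ℝ) = z := by
  have h : ((z.toNat : ℤ) - ((-z).toNat : ℤ)) = z := by omega
  have h2 := congrArg (Int.cast : ℤ → ℝ) h
  rw [Int.cast_sub, Int.cast_natCast, Int.cast_natCast] at h2
  exact h2

theorem toNat_add (z : ℤ) : (z.toNat : ℝ) + ((-z).toNat : ℝ) = |(z : ℝ)| := by
  have h : ((z.toNat : ℤ) + ((-z).toNat : ℤ)) = |z| := by
    rcases abs_cases z with ⟨h, _⟩ | ⟨h, _⟩ <;> rw [h] <;> omega
  have h2 := congrArg (Int.cast : ℤ → ℝ) h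
  rw [Int.cast_add, Int.cast_natCast, Int.cast_natCast, Int.cast_abs] at h2
  exact h2

theorem lg_nm (hP : ∀ j, 1 ≤ P j) (hu : 1 ≤ u) (hv : 1 ≤ v) (x : Option ι → ℤ) :
    lg (nm P u v x) (nm P u v (fun i => -x i)) =
      ∑ j, (x (some j) : ℝ) * Real.log (P j) + (x none : ℝ) * lg u v := by
  rw [lg_eq (one_le_nm P u v hP hu hv _) (one_le_nm P u v hP hu hv _), log_nm P u v hP hu hv,
    log_nm P u v hP hu hv, lg_eq hu hv, neg_neg]
  have e : ∀ j, (x (some j) : ℝ) * Real.log (P j) = ((x (some j)).toNat : ℝ) * Real.log (P j) -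
      ((-(x (some j))).toNat : ℝ) * Real.log (P j) := by
    intro j
    rw [← sub_mul, toNat_sub]
  rw [Finset.sum_congr rfl fun j _ => e j, Finset.sum_sub_distrib]
  have e2 := toNat_sub (x none)
  rw [← e2]
  ring

theorem log_nm_le {T Y : ℕ} (hP : ∀ j, 1 ≤ P j) (hPT : ∀ j, Real.log (P j) ≤ T)
    (n : Num u v Y) (x : Option ι → ℤ) :
    Real.log (nm P u v x) ≤ ∑ j, |(x (some j) : ℝ)| * T + |(x none : ℝ)| * Y := by
  rw [log_nm P u v hP n.hu n.hv]
  have h1 : ∑ j, ((x (some j)).toNat : ℝ) * Real.log (P j) ≤ ∑ j, |(x (some j) : ℝ)| * T := by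
    refine Finset.sum_le_sum fun j _ => ?_
    have h2 := toNat_add (x (some j))
    have h3 : (0:ℝ) ≤ ((-(x (some j))).toNat : ℝ) := Nat.cast_nonneg _
    have h4 : 0 ≤ Real.log (P j) := Real.log_nonneg (by exact_mod_cast hP j)
    exact mul_le_mul (by linarith) (hPT j) h4 (abs_nonneg _)
  have h2 : ((x none).toNat : ℝ) * Real.log u + ((-(x none)).toNat : ℝ) * Real.log v ≤
      |(x none : ℝ)| * Y := by
    rw [← toNat_add, add_mul]
    exact add_le_add (mul_le_mul_of_nonneg_left n.lu (Nat.cast_nonneg _))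
      (mul_le_mul_of_nonneg_left n.lv (Nat.cast_nonneg _))
  linarith

/-- the weights -/
def wt (T Y : ℕ) : Option ι → ℤ
  | none => (Y:ℤ) ^ 2
  | some _ => (T:ℤ) ^ 2

/-- the size of a vector -/
def sz (T Y : ℕ) (x : Option ι → ℤ) : ℕ := Nat.sqrt (fm (wt T Y) x x).toNat + 1

theorem wt_nonneg (T Y : ℕ) (i : Option ι) : 0 ≤ wt (ι := ι) T Y i := by
  cases i <;> exact sq_nonneg _

theorem fm_eq (T Y : ℕ) (x : Option ι → ℤ) : fm (wt T Y) x x =
    (Y:ℤ) ^ 2 * (x none * x none) + ∑ j, (T:ℤ) ^ 2 * (x (some j) * x (some j)) := by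
  unfold fm
  rw [Fintype.sum_option]
  rfl

theorem le_sz {T Y : ℕ} {x : Option ι → ℤ} {z : ℤ} (h : z ^ 2 ≤ fm (wt T Y) x x) :
    |z| ≤ sz T Y x := by
  have h0 := fm_nonneg (wt T Y) (wt_nonneg T Y) x
  have h1 : (fm (wt T Y) x x).toNat < sz T Y x * sz T Y x := Nat.lt_succ_sqrt _
  have h2 : fm (wt T Y) x x < (sz T Y x : ℤ) * sz T Y x := by
    have : (((fm (wt T Y) x x).toNat : ℕ) : ℤ) < ((sz T Y x * sz T Y x : ℕ) : ℤ) := by
      exact_mod_cast h1
    rw [Int.toNat_of_nonneg h0] at this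
    push_cast at this
    exact this
  have h3 : z ^ 2 < (sz T Y x : ℤ) ^ 2 := by
    rw [sq (sz T Y x : ℤ)]; linarith
  exact (abs_lt_of_sq_lt_sq h3 (Int.natCast_nonneg _)).le

theorem le_sz_some {T Y : ℕ} (x : Option ι → ℤ) (j : ι) :
    |(x (some j) : ℝ)| * T ≤ sz T Y x := by
  have h : ((T:ℤ) * x (some j)) ^ 2 ≤ fm (wt T Y) x x := by
    rw [fm_eq]
    have h1 : 0 ≤ (Y:ℤ) ^ 2 * (x none * x none) := mul_nonneg (sq_nonneg _) (mul_self_nonneg _)
    have h2 : (T:ℤ) ^ 2 * (x (some j) * x (some j)) ≤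
        ∑ j, (T:ℤ) ^ 2 * (x (some j) * x (some j)) :=
      Finset.single_le_sum (f := fun j => (T:ℤ) ^ 2 * (x (some j) * x (some j)))
        (fun j _ => mul_nonneg (sq_nonneg _) (mul_self_nonneg _)) (Finset.mem_univ j)
    have e : ((T:ℤ) * x (some j)) ^ 2 = (T:ℤ) ^ 2 * (x (some j) * x (some j)) := by ring
    rw [e]; linarith
  have h1 := le_sz h
  have h2 : ((|(T:ℤ) * x (some j)| : ℤ) : ℝ) ≤ ((sz T Y x : ℤ) : ℝ) := by exact_mod_cast h1
  rw [Int.cast_abs, Int.cast_mul, abs_mul, Int.cast_natCast, Int.cast_natCast, Nat.abs_cast,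
    mul_comm] at h2
  exact h2

theorem le_sz_none {T Y : ℕ} (x : Option ι → ℤ) : |(x none : ℝ)| * Y ≤ sz T Y x := by
  have h : ((Y:ℤ) * x none) ^ 2 ≤ fm (wt T Y) x x := by
    rw [fm_eq]
    have h2 : 0 ≤ ∑ j, (T:ℤ) ^ 2 * (x (some j) * x (some j)) :=
      Finset.sum_nonneg fun j _ => mul_nonneg (sq_nonneg _) (mul_self_nonneg _)
    have e : ((Y:ℤ) * x none) ^ 2 = (Y:ℤ) ^ 2 * (x none * x none) := by ring
    rw [e]; linarith
  have h1 := le_sz h
  have h2 : ((|(Y:ℤ) * x none| : ℤ) : ℝ) ≤ ((sz T Y x : ℤ) : ℝ) := by exact_mod_cast h1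
  rw [Int.cast_abs, Int.cast_mul, abs_mul, Int.cast_natCast, Int.cast_natCast, Nat.abs_cast,
    mul_comm] at h2
  exact h2

theorem fm_neg (T Y : ℕ) (x : Option ι → ℤ) :
    fm (wt T Y) (fun i => -x i) (fun i => -x i) = fm (wt T Y) x x := by
  unfold fm
  exact Finset.sum_congr rfl fun i _ => by ring

theorem num_nm {T Y : ℕ} (hP : ∀ j, 1 ≤ P j) (hPT : ∀ j, Real.log (P j) ≤ T)
    (n : Num u v Y) (x : Option ι → ℤ) :
    Num (nm P u v x) (nm P u v (fun i => -x i)) ((Fintype.card ι + 1) * sz T Y x) := by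
  have key : ∀ x : Option ι → ℤ, Real.log (nm P u v x) ≤
      (((Fintype.card ι + 1) * sz T Y x : ℕ) : ℝ) := by
    intro x
    refine (log_nm_le P u v hP hPT n x).trans ?_
    have h1 : ∑ j, |(x (some j) : ℝ)| * T ≤ ∑ _j : ι, ((sz T Y x : ℕ) : ℝ) :=
      Finset.sum_le_sum fun j _ => le_sz_some x j
    rw [Finset.sum_const, Finset.card_univ, nsmul_eq_mul] at h1
    have h2 := le_sz_none (T := T) (Y := Y) x
    push_cast
    linarith
  refine ⟨one_le_nm P u v hP n.hu n.hv _, one_le_nm P u v hP n.hu n.hv _, key x, ?_⟩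
  have h := key (fun i => -x i)
  unfold sz at h ⊢
  rw [fm_neg] at h
  exact h

/-- the size of a nonzero vector -/
theorem sz_le {T Y : ℕ} {x : Option ι → ℤ} (h : 1 ≤ fm (wt T Y) x x) :
    ((sz T Y x : ℕ) : ℝ) ≤ 2 * Real.sqrt ((fm (wt T Y) x x : ℤ) : ℝ) := by
  obtain ⟨f, hf⟩ : ∃ f, f = fm (wt T Y) x x := ⟨_, rfl⟩
  rw [← hf] at h ⊢
  have h1 : ((Nat.sqrt f.toNat : ℕ) : ℝ) ≤ Real.sqrt (f : ℝ) := by
    apply Real.le_sqrt_of_sq_le
    have h2 : Nat.sqrt f.toNat * Nat.sqrt f.toNat ≤ f.toNat := Nat.sqrt_le _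
    have h3 : ((Nat.sqrt f.toNat * Nat.sqrt f.toNat : ℕ) : ℤ) ≤ f := by
      have : ((f.toNat : ℕ) : ℤ) = f := Int.toNat_of_nonneg (by linarith)
      rw [← this]
      exact_mod_cast h2
    have h4 : (((Nat.sqrt f.toNat * Nat.sqrt f.toNat : ℕ) : ℤ) : ℝ) ≤ (f : ℝ) := by
      exact_mod_cast h3
    rw [sq]
    push_cast at h4
    exact h4
  have h5 : (1:ℝ) ≤ Real.sqrt (f : ℝ) := by
    rw [Real.one_le_sqrt]
    exact_mod_cast h
  have e : ((sz T Y x : ℕ) : ℝ) = ((Nat.sqrt f.toNat : ℕ) : ℝ) + 1 := by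
    unfold sz
    rw [← hf]
    push_cast
    ring
  rw [e]; linarith

theorem sz_ge {T Y : ℕ} (x : Option ι → ℤ) :
    Real.sqrt ((fm (wt T Y) x x : ℤ) : ℝ) ≤ ((sz T Y x : ℕ) : ℝ) := by
  rw [Real.sqrt_le_left (Nat.cast_nonneg _)]
  have h0 := fm_nonneg (wt T Y) (wt_nonneg T Y) x
  have h1 : (fm (wt T Y) x x).toNat < sz T Y x * sz T Y x := Nat.lt_succ_sqrt _
  have h2 : (((fm (wt T Y) x x).toNat : ℕ) : ℤ) < ((sz T Y x * sz T Y x : ℕ) : ℤ) := by
    exact_mod_cast h1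
  rw [Int.toNat_of_nonneg h0] at h2
  have h3 : ((fm (wt T Y) x x : ℤ) : ℝ) < (((sz T Y x * sz T Y x : ℕ) : ℤ) : ℝ) := by
    exact_mod_cast h2
  rw [sq]
  push_cast at h3
  exact h3.le

end

end Pool.Agent.U964.ML
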